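import Mathlib

-- merged part: Pool.Agent.Work.MP_6aef45_co.Lambda
section
-- merged part: Pool.Agent.Work.MP_6aef45_co.Fam
section
namespace Pool.Agent.Work.MP_6aef45_co
open Finset

variable {Pt : Type*} [DecidableEq Pt]

/-- Sum of `φ` over the one point extensions of `R` by points of `D`. -/
def up (D : Finset Pt) (φ : Finset Pt → ℝ) (R : Finset Pt) : ℝ := ∑ x ∈ D \ R, φ (insert x R)

/-- Indicator of a family. -/
def ind (F : Finset (Finset Pt)) (H : Finset Pt) : ℝ := if H ∈ F then 1 else 0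

/-- Number of extensions inside the family. -/
def kk (D : Finset Pt) (F : Finset (Finset Pt)) (R : Finset Pt) : ℝ := up D (ind F) R

/-- Number of extensions outside the family. -/
def kb (D : Finset Pt) (F : Finset (Finset Pt)) (R : Finset Pt) : ℝ :=
  up D (fun H => 1 - ind F H) R

/-- Total number of escaping swaps. -/
def esc [Fintype Pt] (D : Finset Pt) (F : Finset (Finset Pt)) : ℝ := ∑ R, kk D F R * kb D F R

lemma ind_nonneg (F : Finset (Finset Pt)) (H : Finset Pt) : 0 ≤ ind F H := by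
  unfold ind; split_ifs <;> norm_num

lemma ind_le_one (F : Finset (Finset Pt)) (H : Finset Pt) : ind F H ≤ 1 := by
  unfold ind; split_ifs <;> norm_num

lemma up_nonneg (D : Finset Pt) {φ : Finset Pt → ℝ} (h : ∀ H, 0 ≤ φ H) (R : Finset Pt) :
    0 ≤ up D φ R := sum_nonneg fun _ _ => h _

lemma up_mono (D : Finset Pt) {φ ψ : Finset Pt → ℝ} (R : Finset Pt)
    (h : ∀ x ∈ D \ R, φ (insert x R) ≤ ψ (insert x R)) : up D φ R ≤ up D ψ R :=
  sum_le_sum h

lemma kk_nonneg (D : Finset Pt) (F : Finset (Finset Pt)) (R : Finset Pt) : 0 ≤ kk D F R :=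
  up_nonneg D (ind_nonneg F) R

lemma kb_nonneg (D : Finset Pt) (F : Finset (Finset Pt)) (R : Finset Pt) : 0 ≤ kb D F R :=
  up_nonneg D (fun H => by linarith [ind_le_one F H]) R

lemma kk_add_kb (D : Finset Pt) (F : Finset (Finset Pt)) (R : Finset Pt) :
    kk D F R + kb D F R = ((D \ R).card : ℝ) := by
  unfold kk kb up
  rw [← sum_add_distrib]; simp

lemma esc_nonneg [Fintype Pt] (D : Finset Pt) (F : Finset (Finset Pt)) : 0 ≤ esc D F :=
  sum_nonneg fun R _ => mul_nonneg (kk_nonneg D F R) (kb_nonneg D F R)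

lemma exists_of_kk_ne_zero {D : Finset Pt} {F : Finset (Finset Pt)} {R : Finset Pt}
    (h : kk D F R ≠ 0) : ∃ x ∈ D, x ∉ R ∧ insert x R ∈ F := by
  unfold kk up at h
  obtain ⟨x, hx, hx'⟩ := exists_ne_zero_of_sum_ne_zero h
  rw [mem_sdiff] at hx
  refine ⟨x, hx.1, hx.2, ?_⟩
  by_contra hc
  exact hx' (by simp [ind, hc])

lemma card_inter_insert_of_mem {D R : Finset Pt} {x : Pt} (hx : x ∈ D) (hxR : x ∉ R) :
    (D ∩ insert x R).card = (D ∩ R).card + 1 := by
  rw [inter_insert_of_mem hx, card_insert_of_notMem (by simp [hxR])]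

lemma card_inter_insert_of_notMem {D R : Finset Pt} {x : Pt} (hx : x ∉ D) :
    (D ∩ insert x R).card = (D ∩ R).card := by
  rw [inter_insert_of_notMem hx]

lemma card_sdiff_cast (D R : Finset Pt) :
    ((D \ R).card : ℝ) = D.card - (D ∩ R).card := by
  have := card_sdiff_add_card_inter D R
  have h2 : ((D \ R).card : ℝ) + (D ∩ R).card = D.card := by exact_mod_cast this
  linarith only [h2]

section
variable [Fintype Pt]

lemma sum_up_gen (D : Finset Pt) (φ : Finset Pt → Pt → ℝ) :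
    ∑ R, ∑ x ∈ D \ R, φ (insert x R) x = ∑ H, ∑ x ∈ D ∩ H, φ H x := by
  have h1 : ∑ R : Finset Pt, ∑ x ∈ D \ R, φ (insert x R) x
      = ∑ x ∈ D, ∑ R ∈ univ.filter (fun R : Finset Pt => x ∉ R), φ (insert x R) x := by
    apply sum_comm'
    intro R x; simp [and_comm]
  have h2 : ∑ H : Finset Pt, ∑ x ∈ D ∩ H, φ H x
      = ∑ x ∈ D, ∑ H ∈ univ.filter (fun H : Finset Pt => x ∈ H), φ H x := by
    apply sum_comm'
    intro R x; simp [and_comm]
  rw [h1, h2]
  refine sum_congr rfl fun x _ => ?_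
  refine sum_nbij' (fun R => insert x R) (fun H => H.erase x) ?_ ?_ ?_ ?_ ?_
  · intro R _; simp
  · intro H _; simp
  · intro R hR; simp at hR; simp [hR]
  · intro H hH; simp at hH; simp [hH]
  · intro R _; rfl

lemma sum_up (D : Finset Pt) (φ : Finset Pt → ℝ) :
    ∑ R, up D φ R = ∑ H, ((D ∩ H).card : ℝ) * φ H := by
  unfold up
  rw [sum_up_gen D (fun H _ => φ H)]
  simp

lemma sum_ind_mul (F : Finset (Finset Pt)) (φ : Finset Pt → ℝ) :
    ∑ H, ind F H * φ H = ∑ H ∈ F, φ H := by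
  unfold ind
  simp only [ite_mul, one_mul, zero_mul]
  rw [← sum_filter]; simp

lemma sum_kk {D : Finset Pt} {F : Finset (Finset Pt)} {h : ℕ}
    (hF : ∀ H ∈ F, (D ∩ H).card = h) : ∑ R, kk D F R = h * F.card := by
  unfold kk
  rw [sum_up]
  simp_rw [mul_comm _ (ind F _)]
  rw [sum_ind_mul, sum_congr rfl (fun H hH => by rw [hF H hH])]
  simp [mul_comm]

end

lemma sum_card_filter_mem {D : Finset Pt} {F : Finset (Finset Pt)} {h : ℕ}
    (hF : ∀ H ∈ F, (D ∩ H).card = h) :
    ∑ y ∈ D, ((F.filter (fun H => y ∈ H)).card : ℝ) = h * F.card := by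
  have : ∑ y ∈ D, ((F.filter (fun H => y ∈ H)).card : ℝ)
      = ∑ H ∈ F, ∑ y ∈ D ∩ H, (1 : ℝ) := by
    simp_rw [card_eq_sum_ones, Nat.cast_sum, Nat.cast_one]
    apply sum_comm'
    intro y H; simp; tauto
  rw [this, sum_congr rfl (fun H hH => by rw [sum_const, hF H hH])]
  simp [mul_comm]

lemma sum_filter_mem_comm (D : Finset Pt) (F : Finset (Finset Pt)) (φ : Finset Pt → Pt → ℝ) :
    ∑ y ∈ D, ∑ H ∈ F.filter (fun H => y ∈ H), φ H y = ∑ H ∈ F, ∑ y ∈ D ∩ H, φ H y := by
  apply sum_comm'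
  intro y H; simp; tauto

lemma kk_rev_mem (D : Finset Pt) (F : Finset (Finset Pt)) {y : Pt} {R : Finset Pt}
    (hy : y ∈ R) : kk (D.erase y) (F.filter (fun H => y ∈ H)) R = kk D F R := by
  unfold kk up
  have : D.erase y \ R = D \ R := by
    ext x; simp only [mem_sdiff, mem_erase]
    constructor
    · tauto
    · rintro ⟨h1, h2⟩; exact ⟨⟨fun h => h2 (h ▸ hy), h1⟩, h2⟩
  rw [this]
  refine sum_congr rfl fun x _ => ?_
  simp [ind, hy]

lemma kb_rev_mem (D : Finset Pt) (F : Finset (Finset Pt)) {y : Pt} {R : Finset Pt}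
    (hy : y ∈ R) : kb (D.erase y) (F.filter (fun H => y ∈ H)) R = kb D F R := by
  unfold kb up
  have : D.erase y \ R = D \ R := by
    ext x; simp only [mem_sdiff, mem_erase]
    constructor
    · tauto
    · rintro ⟨h1, h2⟩; exact ⟨⟨fun h => h2 (h ▸ hy), h1⟩, h2⟩
  rw [this]
  refine sum_congr rfl fun x _ => ?_
  simp [ind, hy]

lemma kk_rev_notMem (D : Finset Pt) (F : Finset (Finset Pt)) {y : Pt} {R : Finset Pt}
    (hy : y ∉ R) : kk (D.erase y) (F.filter (fun H => y ∈ H)) R = 0 := by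
  unfold kk up
  refine sum_eq_zero fun x hx => ?_
  simp only [mem_sdiff, mem_erase] at hx
  have : ¬ y = x := fun h => hx.1.1 h.symm
  simp [ind, hy, this]

lemma kk_out_mem (D : Finset Pt) (F : Finset (Finset Pt)) {v : Pt} {R : Finset Pt}
    (hv : v ∈ R) : kk (D.erase v) (F.filter (fun H => v ∉ H)) R = 0 := by
  unfold kk up
  refine sum_eq_zero fun x _ => ?_
  simp [ind, hv]

lemma up_out_notMem (D : Finset Pt) (φ : Finset Pt → ℝ) {v : Pt} {R : Finset Pt}
    (hv : v ∉ R) : up D φ R = up (D.erase v) φ R + if v ∈ D then φ (insert v R) else 0 := by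
  unfold up
  split_ifs with hD
  · have : D \ R = insert v (D.erase v \ R) := by
      ext x; simp only [mem_sdiff, mem_erase, mem_insert]
      constructor
      · rintro ⟨h1, h2⟩
        by_cases hx : x = v
        · exact Or.inl hx
        · exact Or.inr ⟨⟨hx, h1⟩, h2⟩
      · rintro (h | h)
        · subst h; exact ⟨hD, hv⟩
        · exact ⟨h.1.2, h.2⟩
    rw [this, sum_insert (by simp), add_comm]
  · rw [erase_eq_of_notMem hD, add_zero]

lemma kk_out_notMem (D : Finset Pt) (F : Finset (Finset Pt)) {v : Pt} {R : Finset Pt}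
    (hv : v ∉ R) : kk D F R = kk (D.erase v) (F.filter (fun H => v ∉ H)) R
      + if v ∈ D then ind F (insert v R) else 0 := by
  unfold kk
  rw [up_out_notMem D (ind F) hv]
  congr 1
  unfold up
  refine sum_congr rfl fun x hx => ?_
  simp only [mem_sdiff, mem_erase] at hx
  have : ¬ v = x := fun h => hx.1.1 h.symm
  simp [ind, hv, this]

lemma kb_out_notMem (D : Finset Pt) (F : Finset (Finset Pt)) {v : Pt} {R : Finset Pt}
    (hv : v ∉ R) : kb D F R = kb (D.erase v) (F.filter (fun H => v ∉ H)) R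
      + if v ∈ D then 1 - ind F (insert v R) else 0 := by
  unfold kb
  rw [up_out_notMem D (fun H => 1 - ind F H) hv]
  congr 1
  unfold up
  refine sum_congr rfl fun x hx => ?_
  simp only [mem_sdiff, mem_erase] at hx
  have : ¬ v = x := fun h => hx.1.1 h.symm
  simp [ind, hv, this]

section
variable [Fintype Pt]

lemma esc_rev (D : Finset Pt) (F : Finset (Finset Pt)) (y : Pt) :
    esc (D.erase y) (F.filter (fun H => y ∈ H))
      = ∑ R, if y ∈ R then kk D F R * kb D F R else 0 := by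
  unfold esc
  refine sum_congr rfl fun R _ => ?_
  split_ifs with hy
  · rw [kk_rev_mem D F hy, kb_rev_mem D F hy]
  · rw [kk_rev_notMem D F hy, zero_mul]

lemma sum_esc_rev (D D' : Finset Pt) (F : Finset (Finset Pt)) (t : ℕ)
    (ht : ∀ R, kk D F R ≠ 0 → (D' ∩ R).card = t) :
    ∑ y ∈ D', esc (D.erase y) (F.filter (fun H => y ∈ H)) = t * esc D F := by
  simp_rw [esc_rev]
  rw [sum_comm]
  unfold esc
  rw [mul_sum]
  refine sum_congr rfl fun R _ => ?_
  rw [← sum_filter, sum_const, filter_mem_eq_inter]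
  by_cases hk : kk D F R = 0
  · simp [hk]
  · rw [ht R hk]; simp

lemma esc_query_other (D : Finset Pt) (F : Finset (Finset Pt)) {v : Pt} (hv : v ∉ D) :
    esc (D.erase v) (F.filter (fun H => v ∈ H)) + esc (D.erase v) (F.filter (fun H => v ∉ H))
      = esc D F := by
  rw [esc_rev]
  unfold esc
  rw [← sum_add_distrib]
  refine sum_congr rfl fun R _ => ?_
  split_ifs with hR
  · rw [kk_out_mem D F hR]; simp
  · rw [kk_out_notMem D F hR, kb_out_notMem D F hR]; simp [hv]

lemma esc_query_same (D : Finset Pt) (F : Finset (Finset Pt)) {v : Pt} (hv : v ∈ D) {h : ℕ}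
    (hF : ∀ H ∈ F, (D ∩ H).card = h) :
    esc (D.erase v) (F.filter (fun H => v ∈ H)) + esc (D.erase v) (F.filter (fun H => v ∉ H))
      + ((F.filter (fun H => v ∈ H)).card : ℝ) * (D.card - h)
      ≤ esc D F + h * (F.filter (fun H => v ∉ H)).card := by
  have hout : ∀ H ∈ F.filter (fun H => v ∉ H), (D.erase v ∩ H).card = h := by
    intro H hH
    rw [mem_filter] at hH
    rw [← hF H hH.1]
    congr 1
    ext x; simp only [mem_inter, mem_erase]
    constructor
    · tauto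
    · rintro ⟨h1, h2⟩; exact ⟨⟨fun h => hH.2 (h ▸ h2), h1⟩, h2⟩
  have hZin : ((F.filter (fun H => v ∈ H)).card : ℝ)
      = ∑ R : Finset Pt, if v ∈ R then 0 else ind F (insert v R) := by
    clear * - Pt v F
    have h1 := sum_up_gen ({v} : Finset Pt) (fun H _ => ind F H)
    have h2 : ∀ R : Finset Pt, ∑ x ∈ ({v} : Finset Pt) \ R, ind F (insert x R)
        = if v ∈ R then 0 else ind F (insert v R) := by
      intro R
      split_ifs with hR
      · rw [sdiff_eq_empty_iff_subset.2 (by simpa using hR)]; simp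
      · rw [sdiff_eq_self_of_disjoint (by simpa using hR)]; simp
    have h3 : ∀ H : Finset Pt, ∑ x ∈ ({v} : Finset Pt) ∩ H, ind F H
        = ind F H * if v ∈ H then 1 else 0 := by
      intro H
      split_ifs with hR
      · rw [singleton_inter_of_mem hR]; simp
      · rw [singleton_inter_of_notMem hR]; simp
    simp only [h2, h3] at h1
    rw [h1, sum_ind_mul]; simp
  rw [← sum_kk hout, hZin, esc_rev]
  unfold esc
  rw [sum_mul, ← sum_add_distrib, ← sum_add_distrib, ← sum_add_distrib]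
  refine sum_le_sum fun R _ => ?_
  split_ifs with hR
  · rw [kk_out_mem D F hR]; simp
  · have e1 := kk_out_notMem D F hR
    have e2 := kb_out_notMem D F hR
    rw [if_pos hv] at e1 e2
    have n1 := kk_nonneg (D.erase v) (F.filter (fun H => v ∉ H)) R
    have n2 := kb_nonneg (D.erase v) (F.filter (fun H => v ∉ H)) R
    by_cases hI : insert v R ∈ F
    · have i1 : ind F (insert v R) = 1 := by simp [ind, hI]
      have c1 := kk_add_kb D F R
      rw [card_sdiff_cast] at c1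
      have c2 := hF _ hI
      rw [card_inter_insert_of_mem hv hR] at c2
      have c3 : ((D ∩ R).card : ℝ) + 1 = h := by exact_mod_cast c2
      rw [i1] at e1 e2 ⊢
      rw [e1, e2] at c1 ⊢
      clear * - Pt D v F R h c1 c3
      linarith only [c1, c3]
    · have i1 : ind F (insert v R) = 0 := by simp [ind, hI]
      rw [i1] at e1 e2 ⊢
      rw [e1, e2]
      linarith only [n1]

lemma swap_bound (D : Finset Pt) (F : Finset (Finset Pt)) {h : ℕ}
    (hF : ∀ H ∈ F, (D ∩ H).card = h) (ψ : Pt → ℝ) (ψm ρ : ℝ) (h0 : ∀ y ∈ D, 0 ≤ ψ y)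
    (h1 : ∀ y ∈ D, ψ y ≤ ψm) (hρ : ρ ≤ D.card - h) :
    ρ * ∑ H ∈ F, ∑ y ∈ D ∩ H, ψ y ≤ esc D F * ψm + h * F.card * ∑ y ∈ D, ψ y := by
  have e1 : ∑ H ∈ F, ∑ y ∈ D ∩ H, ψ y
      = ∑ R : Finset Pt, ∑ y ∈ D \ R, ind F (insert y R) * ψ y := by
    rw [sum_up_gen D (fun H y => ind F H * ψ y), ← sum_ind_mul]
    simp_rw [mul_sum]
  rw [e1, ← sum_kk hF]
  unfold esc
  rw [mul_sum, sum_mul, sum_mul, ← sum_add_distrib]
  refine sum_le_sum fun R _ => ?_
  have a0 : 0 ≤ ∑ y ∈ D \ R, ind F (insert y R) * ψ y :=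
    sum_nonneg fun y hy => mul_nonneg (ind_nonneg _ _) (h0 y (mem_sdiff.1 hy).1)
  have a1 : ∑ y ∈ D \ R, ind F (insert y R) * ψ y ≤ kk D F R * ψm := by
    unfold kk up
    rw [sum_mul]
    exact sum_le_sum fun y hy =>
      mul_le_mul_of_nonneg_left (h1 y (mem_sdiff.1 hy).1) (ind_nonneg _ _)
  have a2 : ∑ y ∈ D \ R, ind F (insert y R) * ψ y ≤ ∑ y ∈ D, ψ y := by
    calc _ ≤ ∑ y ∈ D \ R, ψ y := sum_le_sum fun y hy => by
            have := h0 y (mem_sdiff.1 hy).1
            linarith only [this, ind_le_one F (insert y R), mul_nonneg_of_nonpos_of_nonpos (Mathlib.Tactic.Linarith.sub_nonpos_of_le this) (Mathlib.Tactic.Linarith.sub_nonpos_of_le (ind_le_one F (insert y R)))]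
      _ ≤ _ := sum_le_sum_of_subset_of_nonneg sdiff_subset fun y hy _ => h0 y hy
  have n1 := kk_nonneg D F R
  have n2 := kb_nonneg D F R
  by_cases hk : kk D F R = 0
  · have : ∑ y ∈ D \ R, ind F (insert y R) * ψ y = 0 := by
      rw [hk] at a1; linarith only [a0, a1]
    rw [this, hk]; simp
  · obtain ⟨x, hxD, hxR, hxF⟩ := exists_of_kk_ne_zero hk
    have c1 := kk_add_kb D F R
    rw [card_sdiff_cast] at c1
    have c2 := hF _ hxF
    rw [card_inter_insert_of_mem hxD hxR] at c2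
    have c3 : ((D ∩ R).card : ℝ) + 1 = h := by exact_mod_cast c2
    have c4 : ρ ≤ kk D F R + kb D F R := by linarith only [hρ, c1, c3]
    calc ρ * ∑ y ∈ D \ R, ind F (insert y R) * ψ y
        ≤ (kk D F R + kb D F R) * ∑ y ∈ D \ R, ind F (insert y R) * ψ y :=
          mul_le_mul_of_nonneg_right c4 a0
      _ ≤ _ := by clear * - Pt D F R ψ ψm a1 n2 a2 n1; linarith only [a1, n2, a2, n1, mul_le_mul_of_nonneg_left a1 n2, mul_le_mul_of_nonneg_left a2 n1]

end

lemma up_eq_pairs (D D' : Finset Pt) (φ : Finset Pt → ℝ) (R : Finset Pt) :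
    up D (up D' φ) R = ∑ x ∈ D \ R, ∑ y ∈ D' \ R,
      if x = y then 0 else φ (insert y (insert x R)) := by
  unfold up
  refine sum_congr rfl fun x _ => ?_
  have : D' \ insert x R = (D' \ R).filter (fun y => ¬ x = y) := by
    ext y; simp only [mem_sdiff, mem_insert, mem_filter]
    constructor
    · rintro ⟨h1, h2⟩; push Not at h2; exact ⟨⟨h1, h2.2⟩, fun h => h2.1 h.symm⟩
    · rintro ⟨⟨h1, h2⟩, h3⟩; exact ⟨h1, fun h => h.elim (fun h => h3 h.symm) h2⟩
  rw [this, sum_filter]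
  refine sum_congr rfl fun y _ => ?_
  split_ifs <;> rfl

lemma up_comm (D D' : Finset Pt) (φ : Finset Pt → ℝ) (R : Finset Pt) :
    up D (up D' φ) R = up D' (up D φ) R := by
  rw [up_eq_pairs, up_eq_pairs, sum_comm]
  refine sum_congr rfl fun y _ => sum_congr rfl fun x _ => ?_
  by_cases h : x = y
  · simp [h]
  · rw [if_neg h, if_neg (fun h' => h h'.symm), insert_comm]

end Pool.Agent.Work.MP_6aef45_co
end

-- merged part: Pool.Agent.Work.MP_6aef45_co.Deg
section
namespace Pool.Agent.Work.MP_6aef45_co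
open Finset

variable {Pt : Type*} [DecidableEq Pt]

/-- Points of `L` of type `τ` (`true`: vertices, `false`: colours). -/
def sec (ty : Pt → Bool) (L : Finset Pt) (τ : Bool) : Finset Pt := L.filter (fun x => ty x = τ)

/-- Number of points of type `τ` in a triple. -/
def mult (τ : Bool) : ℕ := if τ then 2 else 1

/-- A triple with two vertices and one colour. -/
def Valid (ty : Pt → Bool) (e : Finset Pt) : Prop := ∀ τ, (sec ty e τ).card = mult τ

/-- Degree of a point. -/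
def deg (T : Finset (Finset Pt)) (v : Pt) : ℕ := (T.filter (fun e => v ∈ e)).card

/-- Number of elements meeting `I`. -/
def touch (T : Finset (Finset Pt)) (I : Finset Pt) : ℕ :=
  (T.filter (fun e => ∃ x ∈ I, x ∈ e)).card

/-- `M` contains a matching covering exactly the complement of `U`. -/
def Cov (M : Finset (Finset Pt)) (U : Finset Pt) : Prop :=
  ∃ F ⊆ M, (∀ v, v ∉ U → ∃! e, e ∈ F ∧ v ∈ e) ∧ ∀ e ∈ F, ∀ v ∈ e, v ∉ U

@[simp] lemma mult_true : mult true = 2 := rfl
@[simp] lemma mult_false : mult false = 1 := rfl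

lemma one_le_mult (τ : Bool) : 1 ≤ mult τ := by cases τ <;> simp
lemma mult_le_two (τ : Bool) : mult τ ≤ 2 := by cases τ <;> simp

omit [DecidableEq Pt] in
@[simp] lemma mem_sec {ty : Pt → Bool} {L : Finset Pt} {τ : Bool} {x : Pt} :
    x ∈ sec ty L τ ↔ x ∈ L ∧ ty x = τ := by simp [sec]

lemma sec_erase (ty : Pt → Bool) (L : Finset Pt) (τ : Bool) (y : Pt) :
    sec ty (L.erase y) τ = (sec ty L τ).erase y := by
  ext x; simp; tauto

omit [DecidableEq Pt] in
lemma card_sec_add (ty : Pt → Bool) (L : Finset Pt) :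
    (sec ty L true).card + (sec ty L false).card = L.card := by
  have := card_filter_add_card_filter_not (s := L) (fun x => ty x = true)
  rw [← this]
  congr 2
  ext x; simp

omit [DecidableEq Pt] in
lemma Valid.card_eq {ty : Pt → Bool} {e : Finset Pt} (h : Valid ty e) : e.card = 3 := by
  rw [← card_sec_add ty e, h true, h false]; rfl

lemma card_sec_insert (ty : Pt → Bool) {P : Finset Pt} {y : Pt} (hy : y ∉ P) (τ : Bool) :
    (sec ty (insert y P) τ).card = (sec ty P τ).card + if τ = ty y then 1 else 0 := by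
  unfold sec
  rw [filter_insert]
  by_cases h : ty y = τ
  · rw [if_pos h, if_pos h.symm, card_insert_of_notMem (by simp [hy])]
  · rw [if_neg h, if_neg (fun h' => h h'.symm), add_zero]

lemma valid_triple {ty : Pt → Bool} {v y z : Pt} (hvy : v ≠ y) (hvz : v ≠ z) (hyz : y ≠ z)
    (hy : ty y = true) (hz : ty z = !ty v) : Valid ty {v, y, z} := by
  intro τ
  rw [card_sec_insert ty (by simp [hvy, hvz]), card_sec_insert ty (by simp [hyz])]
  have : ({z} : Finset Pt) = insert z ∅ := rfl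
  rw [this, card_sec_insert ty (by simp), hy, hz]
  cases τ <;> cases ty v <;> simp [sec]

omit [DecidableEq Pt] in
lemma Cov.mono {M M' : Finset (Finset Pt)} {U : Finset Pt} (h : Cov M U) (hM : M ⊆ M') :
    Cov M' U := by
  obtain ⟨F, hF, h1, h2⟩ := h
  exact ⟨F, hF.trans hM, h1, h2⟩

lemma Cov.add {M M' : Finset (Finset Pt)} {U e : Finset Pt} (h : Cov M U) (hM : M ⊆ M')
    (he : e ∈ M') (heU : e ⊆ U) : Cov M' (U \ e) := by
  obtain ⟨F, hF, h1, h2⟩ := h
  refine ⟨insert e F, insert_subset he (hF.trans hM), ?_, ?_⟩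
  · intro v hv
    by_cases hvU : v ∈ U
    · have hve : v ∈ e := by
        by_contra hc; exact hv (mem_sdiff.2 ⟨hvU, hc⟩)
      refine ⟨e, ⟨mem_insert_self _ _, hve⟩, ?_⟩
      rintro f ⟨hf, hvf⟩
      rcases mem_insert.1 hf with h | h
      · exact h
      · exact absurd hvU (h2 f h v hvf)
    · obtain ⟨f, ⟨hf, hvf⟩, hu⟩ := h1 v hvU
      refine ⟨f, ⟨mem_insert_of_mem hf, hvf⟩, ?_⟩
      rintro g ⟨hg, hvg⟩
      rcases mem_insert.1 hg with h | h
      · subst h; exact absurd (heU hvg) hvU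
      · exact hu g ⟨h, hvg⟩
  · intro f hf v hv hv'
    rw [mem_sdiff] at hv'
    rcases mem_insert.1 hf with h | h
    · subst h; exact hv'.2 hv
    · exact h2 f h v hv hv'.1

lemma deg_mono {T T' : Finset (Finset Pt)} (h : T ⊆ T') (v : Pt) : deg T v ≤ deg T' v :=
  card_le_card (filter_subset_filter _ h)

lemma deg_eq_add {T T' : Finset (Finset Pt)} (h : T ⊆ T') (v : Pt) :
    deg T' v = deg T v + deg (T' \ T) v := by
  unfold deg
  rw [← card_union_of_disjoint (disjoint_filter_filter disjoint_sdiff), ← filter_union,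
    union_sdiff_of_subset h]

lemma deg_le_card (T : Finset (Finset Pt)) (v : Pt) : deg T v ≤ T.card := card_filter_le _ _

lemma deg_le_add {T T' : Finset (Finset Pt)} (h : T ⊆ T') (v : Pt) :
    deg T' v ≤ deg T v + (T' \ T).card := by
  rw [deg_eq_add h]; exact Nat.add_le_add_left (deg_le_card _ _) _

lemma sum_deg_le {T : Finset (Finset Pt)} (h : ∀ e ∈ T, e.card = 3) (I : Finset Pt) :
    ∑ v ∈ I, deg T v ≤ 3 * T.card := by
  have : ∑ v ∈ I, deg T v = ∑ e ∈ T, (I ∩ e).card := by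
    unfold deg
    simp_rw [card_eq_sum_ones]
    apply sum_comm'
    intro v e; simp; tauto
  rw [this, mul_comm, ← smul_eq_mul]
  apply sum_le_card_nsmul
  intro e he
  rw [← h e he]; exact card_le_card inter_subset_right

lemma touch_le_sum (T : Finset (Finset Pt)) (I : Finset Pt) : touch T I ≤ ∑ v ∈ I, deg T v := by
  unfold touch deg
  refine le_trans (card_le_card ?_) card_biUnion_le
  intro e he
  simp only [mem_filter, mem_biUnion] at he ⊢
  obtain ⟨h1, x, hx, hxe⟩ := he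
  exact ⟨x, hx, h1, hxe⟩

lemma touch_le_card (T : Finset (Finset Pt)) (I : Finset Pt) : touch T I ≤ T.card :=
  card_filter_le _ _

lemma touch_le_add {T T' : Finset (Finset Pt)} (I : Finset Pt) :
    touch T' I ≤ touch T I + (T' \ T).card := by
  unfold touch
  refine le_trans (card_le_card ?_) (card_union_le _ _)
  intro e he
  simp only [mem_filter, mem_union, mem_sdiff] at he ⊢
  by_cases h : e ∈ T
  · exact Or.inl ⟨h, he.2⟩
  · exact Or.inr ⟨he.1, h⟩

lemma touch_singleton (T : Finset (Finset Pt)) (v : Pt) : touch T {v} = deg T v := by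
  unfold touch deg; simp

lemma codeg_le [Fintype Pt] {T : Finset (Finset Pt)} (h : ∀ e ∈ T, e.card = 3) {x v : Pt}
    (hxv : x ≠ v) : deg (T.filter (fun e => v ∈ e)) x ≤ Fintype.card Pt := by
  unfold deg
  have : Fintype.card Pt = (powersetCard 1 (univ : Finset Pt)).card := by
    rw [card_powersetCard]; simp
  rw [this]
  refine card_le_card_of_injOn (fun e => e \ {x, v}) ?_ ?_
  · intro e he
    simp only [coe_filter, mem_filter, Set.mem_ofPred_eq] at he
    simp only [mem_coe, mem_powersetCard, subset_univ, true_and]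
    rw [card_sdiff_of_subset (by
      intro a ha; simp only [mem_insert, mem_singleton] at ha
      rcases ha with rfl | rfl
      · exact he.2
      · exact he.1.2), h e he.1.1, card_pair hxv]
  · intro e he f hf hef
    simp only [coe_filter, mem_filter, Set.mem_ofPred_eq] at he hf
    have h1 : ({x, v} : Finset Pt) ⊆ e := by
      intro a ha; simp only [mem_insert, mem_singleton] at ha
      rcases ha with rfl | rfl
      · exact he.2
      · exact he.1.2
    have h2 : ({x, v} : Finset Pt) ⊆ f := by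
      intro a ha; simp only [mem_insert, mem_singleton] at ha
      rcases ha with rfl | rfl
      · exact hf.2
      · exact hf.1.2
    simp only at hef
    rw [← sdiff_union_of_subset h1, ← sdiff_union_of_subset h2, hef]

lemma touch_insert_ge [Fintype Pt] {T : Finset (Finset Pt)} (h : ∀ e ∈ T, e.card = 3)
    {I : Finset Pt} {v : Pt} (hv : v ∉ I) :
    touch T I + deg T v ≤ touch T (insert v I) + I.card * Fintype.card Pt := by
  have h1 : touch (T.filter (fun e => v ∈ e)) I ≤ I.card * Fintype.card Pt := by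
    refine (touch_le_sum _ _).trans ?_
    rw [← smul_eq_mul]
    exact sum_le_card_nsmul _ _ _ fun x hx => codeg_le h (fun hh => hv (hh ▸ hx))
  have h2 : touch T I + deg T v = touch T (insert v I) + touch (T.filter (fun e => v ∈ e)) I := by
    unfold touch deg
    rw [← card_union_add_card_inter]
    congr 2
    · ext e
      simp only [mem_union, mem_filter, mem_insert, exists_eq_or_imp]
      generalize (∃ x ∈ I, x ∈ e) = Q
      tauto
    · ext e
      simp only [mem_inter, mem_filter]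
      generalize (∃ x ∈ I, x ∈ e) = Q
      tauto
  omega

lemma link_le {ty : Pt → Bool} {T : Finset (Finset Pt)} (hT : ∀ e ∈ T, Valid ty e) (v : Pt)
    (D1 D2 : Finset Pt) (h1 : ∀ y ∈ D1, ty y = true) (hv1 : v ∉ D1) (hv2 : v ∉ D2) :
    ∑ y ∈ D1, ∑ z ∈ D2.erase y, ind T {v, y, z} ≤ (mult (!ty v) : ℝ) * deg T v := by
  have e1 : ∑ y ∈ D1, ∑ z ∈ D2.erase y, ind T {v, y, z}
      = (((D1.sigma (fun y => D2.erase y)).filter
          (fun p => ({v, p.1, p.2} : Finset Pt) ∈ T)).card : ℝ) := by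
    rw [sum_sigma', card_filter]
    unfold ind
    push_cast
    rfl
  have e2 : ((T.filter (fun e => v ∈ e)).sigma (fun e => (sec ty e true).erase v)).card
      ≤ mult (!ty v) * deg T v := by
    rw [card_sigma, mul_comm, ← smul_eq_mul]
    apply sum_le_card_nsmul
    intro e he
    rw [mem_filter] at he
    have := hT e he.1 true
    cases hv : ty v
    · simp only [Bool.not_false, mult_true] at this ⊢
      exact this ▸ card_erase_le
    · rw [card_erase_of_mem (by simp [he.2, hv]), this]; simp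
  rw [e1]
  have e3 : ((D1.sigma (fun y => D2.erase y)).filter
          (fun p => ({v, p.1, p.2} : Finset Pt) ∈ T)).card
      ≤ ((T.filter (fun e => v ∈ e)).sigma (fun e => (sec ty e true).erase v)).card := by
    refine card_le_card_of_injOn (fun p => ⟨{v, p.1, p.2}, p.1⟩) ?_ ?_
    · rintro ⟨y, z⟩ hp
      simp only [coe_filter, mem_sigma, mem_erase, Set.mem_ofPred_eq] at hp
      simp only [mem_coe, mem_sigma, mem_filter, mem_erase, mem_sec]
      refine ⟨⟨hp.2, by simp⟩, fun h => hv1 (h ▸ hp.1.1), by simp, h1 y hp.1.1⟩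
    · rintro ⟨y, z⟩ hp ⟨y', z'⟩ hp' hpp
      simp only [coe_filter, mem_sigma, mem_erase, Set.mem_ofPred_eq] at hp hp'
      simp only [Sigma.mk.injEq, heq_eq_eq] at hpp ⊢
      obtain ⟨h3, rfl⟩ := hpp
      refine ⟨rfl, ?_⟩
      have : z ∈ ({v, y, z'} : Finset Pt) := by rw [← h3]; simp
      simp only [mem_insert, mem_singleton] at this
      rcases this with h | h | h
      · exact absurd (h ▸ hp.1.2.2) hv2
      · exact absurd h hp.1.2.1
      · exact h
  exact_mod_cast e3.trans e2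

/-- The box game bound. -/
noncomputable def gb (θ1 : ℝ) (n b1 i0 i : ℕ) : ℝ :=
  θ1 + n * ((i0 : ℝ) - i) + b1 * ∑ j ∈ Ico i i0, (1 : ℝ) / j

/-- The box game invariant. -/
def Box (θ1 : ℝ) (n b1 i0 : ℕ) (T : Finset (Finset Pt)) (W : Finset Pt) : Prop :=
  ∀ I ⊆ W, I.card ≤ i0 → (touch T I : ℝ) ≤ I.card * gb θ1 n b1 i0 I.card

lemma le_gb (θ1 : ℝ) (n b1 : ℕ) {i0 i : ℕ} (h : i ≤ i0) : θ1 ≤ gb θ1 n b1 i0 i := by
  unfold gb
  have h1 : (0 : ℝ) ≤ (i0 : ℝ) - i := by
    have : (i : ℝ) ≤ i0 := by exact_mod_cast h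
    linarith only [this]
  have h2 : (0 : ℝ) ≤ ∑ j ∈ Ico i i0, (1 : ℝ) / j := sum_nonneg fun j _ => by positivity
  have h3 : (0 : ℝ) ≤ n * ((i0 : ℝ) - i) := by positivity
  have h4 : (0 : ℝ) ≤ b1 * ∑ j ∈ Ico i i0, (1 : ℝ) / j := by positivity
  linarith only [h3, h4]

lemma gb_succ (θ1 : ℝ) (n b1 : ℕ) {i0 i : ℕ} (h : i < i0) :
    gb θ1 n b1 i0 i = gb θ1 n b1 i0 (i + 1) + n + b1 / i := by
  unfold gb
  rw [sum_eq_sum_Ico_succ_bot h]
  push_cast; ring

lemma Box.mono {θ1 : ℝ} {n b1 i0 : ℕ} {T : Finset (Finset Pt)} {W W' : Finset Pt}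
    (h : Box θ1 n b1 i0 T W) (hW : W' ⊆ W) : Box θ1 n b1 i0 T W' :=
  fun I hI => h I (hI.trans hW)

lemma box_of_low {θ1 : ℝ} {n b1 i0 : ℕ} {T : Finset (Finset Pt)} {W : Finset Pt}
    (h : ∀ v ∈ W, (deg T v : ℝ) ≤ θ1) : Box θ1 n b1 i0 T W := by
  intro I hI hi
  have h1 : (touch T I : ℝ) ≤ ∑ v ∈ I, (deg T v : ℝ) := by exact_mod_cast touch_le_sum T I
  have h2 : ∑ v ∈ I, (deg T v : ℝ) ≤ I.card • θ1 :=
    sum_le_card_nsmul _ _ _ fun v hv => h v (hI hv)
  rw [nsmul_eq_mul] at h2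
  have h3 := mul_le_mul_of_nonneg_left (le_gb θ1 n b1 hi) (Nat.cast_nonneg (α := ℝ) I.card)
  linarith only [h1, h2, h3]

lemma Box.deg_le {θ1 : ℝ} {n b1 i0 : ℕ} {T : Finset (Finset Pt)} {W : Finset Pt}
    (h : Box θ1 n b1 i0 T W) (hi : 1 ≤ i0) {v : Pt} (hv : v ∈ W) :
    (deg T v : ℝ) ≤ gb θ1 n b1 i0 1 := by
  have := h {v} (by simpa using hv) (by simpa using hi)
  simpa [touch_singleton] using this

lemma Box.step [Fintype Pt] {θ1 : ℝ} {b1 i0 : ℕ} {T T' : Finset (Finset Pt)} {W W' : Finset Pt}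
    (h : Box θ1 (Fintype.card Pt) b1 i0 T W) (h3 : ∀ e ∈ T, e.card = 3) {v : Pt} (hv : v ∈ W)
    (hW : W' ⊆ W) (hvW : v ∉ W') (hd : ∀ x ∈ W', deg T x ≤ deg T v ∨ (deg T x : ℝ) ≤ θ1)
    (hT : (T' \ T).card ≤ b1) (hT' : (T'.card : ℝ) ≤ i0 * θ1) :
    Box θ1 (Fintype.card Pt) b1 i0 T' W' := by
  intro I hI hi
  rcases Nat.eq_zero_or_pos I.card with h0 | h0
  · rw [card_eq_zero] at h0
    subst h0; simp [touch]
  rcases hi.eq_or_lt with hi | hi
  · rw [hi]
    have h1 : (touch T' I : ℝ) ≤ T'.card := by exact_mod_cast touch_le_card T' I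
    have h2 := mul_le_mul_of_nonneg_left (le_gb θ1 (Fintype.card Pt) b1 (le_refl i0))
      (Nat.cast_nonneg (α := ℝ) i0)
    linarith only [hT', h1, h2]
  have hpos : (0 : ℝ) < I.card := by exact_mod_cast h0
  have a1 : (touch T' I : ℝ) ≤ touch T I + b1 := by
    have := (touch_le_add (T := T) (T' := T') I).trans (Nat.add_le_add_left hT _)
    exact_mod_cast this
  have a2 : (touch T I : ℝ) ≤ ∑ x ∈ I, (deg T x : ℝ) := by exact_mod_cast touch_le_sum T I
  rw [gb_succ θ1 _ b1 hi]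
  have a3 : (I.card : ℝ) * (b1 / I.card) = b1 := by clear * - Pt I b1 h0; field_simp
  have a4 := le_gb θ1 (Fintype.card Pt) b1 (Nat.succ_le_of_lt hi)
  have a5 : (0 : ℝ) ≤ Fintype.card Pt := Nat.cast_nonneg _
  rw [mul_add, mul_add, a3]
  by_cases hc : (deg T v : ℝ) ≤ θ1
  · have h2 : ∑ x ∈ I, (deg T x : ℝ) ≤ I.card • θ1 := by
      refine sum_le_card_nsmul _ _ _ fun x hx => ?_
      rcases hd x (hI hx) with h' | h'
      · have : (deg T x : ℝ) ≤ deg T v := by exact_mod_cast h'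
        linarith only [hc, this]
      · exact h'
    rw [nsmul_eq_mul] at h2
    clear * - Pt T' I θ1 b1 i0 T a1 a2 h2 a4 hpos
    linarith only [a1, a2, h2, a4, hpos, mul_le_mul_of_nonneg_left a4 hpos.le, mul_nonneg_of_nonpos_of_nonpos (Mathlib.Tactic.Linarith.sub_nonpos_of_le (Mathlib.Tactic.Linarith.natCast_nonneg ℝ #I)) (Mathlib.Tactic.Linarith.sub_nonpos_of_le (Mathlib.Tactic.Linarith.natCast_nonneg ℝ (Fintype.card Pt)))]
  · push Not at hc
    have h2 : ∑ x ∈ I, (deg T x : ℝ) ≤ I.card • (deg T v : ℝ) := by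
      refine sum_le_card_nsmul _ _ _ fun x hx => ?_
      rcases hd x (hI hx) with h' | h'
      · exact_mod_cast h'
      · linarith only [hc, h']
    rw [nsmul_eq_mul] at h2
    have hvI : v ∉ I := fun hh => hvW (hI hh)
    have a6 := h (insert v I) (insert_subset hv (hI.trans hW))
      (by rw [card_insert_of_notMem hvI]; exact hi)
    rw [card_insert_of_notMem hvI] at a6
    have a7 : (touch T I : ℝ) + deg T v ≤ touch T (insert v I) + I.card * Fintype.card Pt := by
      exact_mod_cast touch_insert_ge h3 hvI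
    push_cast at a6
    have a8 : ((I.card : ℝ) + 1) * touch T I
        ≤ ((I.card : ℝ) + 1) * (I.card * gb θ1 (Fintype.card Pt) b1 i0 (I.card + 1)
          + I.card * Fintype.card Pt) := by
      clear * - Pt I T θ1 b1 i0 v a2 h2 a7 a6 hpos a5
      linarith only [a2, h2, a7, a6, hpos, a5, mul_le_mul_of_nonneg_left (a7.trans (add_le_add_left a6 _)) hpos.le,
        mul_nonneg hpos.le a5]
    have a9 := le_of_mul_le_mul_left a8 (by linarith only [hpos])
    linarith only [a1, a9]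

end Pool.Agent.Work.MP_6aef45_co
end

-- merged part: Pool.Agent.Work.MP_6aef45_co.Engine
section
namespace Pool.Agent.Work.MP_6aef45_co
open Finset

/-- The abstract game together with the structural constants. -/
structure Game (Pt : Type) [DecidableEq Pt] [Fintype Pt] where
  ty : Pt → Bool
  m : ℕ
  b1 : ℕ
  K : ℕ
  i0 : ℕ
  Y : ℕ
  θ0 : ℝ
  θ1 : ℝ
  Bad : Finset (Finset Pt) → Finset (Finset Pt) → Prop
  hty : ∀ τ, (sec ty univ τ).card = mult τ * m
  noPM : ∀ M T, Bad M T → ¬ Cov M ∅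
  move : ∀ M T e, Bad M T → Valid ty e → e ∉ T → ∃ T', T ⊆ T' ∧ (T' \ T).card ≤ b1 ∧
    (∀ f ∈ T', f ∉ T → Valid ty f) ∧ Bad (insert e M) T'
  hK : 1 ≤ K
  hi0 : 1 ≤ i0
  hθ0 : 0 < θ0
  hθ1 : θ0 + K * b1 ≤ θ1
  hY : (3 * (b1 * K * m) : ℝ) ≤ Y * θ0
  hi : (b1 * K * m : ℝ) ≤ i0 * θ1

/-- A position together with the hidden data of Maker. -/
structure State (Pt : Type) where
  L : Finset Pt
  fam : Finset (Finset Pt)
  P : Finset Pt
  M : Finset (Finset Pt)
  T : Finset (Finset Pt)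
  h : Bool → ℕ
  u : ℕ

variable {Pt : Type} [DecidableEq Pt] [Fintype Pt]

/-- Decrease the count of type `τ`. -/
def dec (h : Bool → ℕ) (τ : Bool) : Bool → ℕ := fun σ => if σ = τ then h σ - 1 else h σ

/-- Reveal that `y` is uncovered. -/
def State.rev (G : Game Pt) (s : State Pt) (y : Pt) : State Pt :=
  { s with
    L := s.L.erase y
    fam := s.fam.filter (fun H => y ∈ H)
    P := insert y s.P
    h := dec s.h (G.ty y) }

/-- Reveal that `v` is covered. -/
def State.out (s : State Pt) (v : Pt) : State Pt :=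
  { s with
    L := s.L.erase v
    fam := s.fam.filter (fun H => v ∉ H) }

/-- Claim the public triple `e`. -/
def State.cov (s : State Pt) (e : Finset Pt) (T' : Finset (Finset Pt)) : State Pt :=
  { s with
    P := s.P \ e
    M := insert e s.M
    T := T'
    u := s.u - 1 }

/-- Points of large degree. -/
noncomputable def Game.Hi (G : Game Pt) (T : Finset (Finset Pt)) : Finset Pt :=
  univ.filter (fun v => G.θ0 ≤ (deg T v : ℝ))

/-- Number of points of large degree that are not live. -/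
noncomputable def State.nq (G : Game Pt) (s : State Pt) : ℕ := (G.Hi s.T \ s.L).card

/-- The structural invariant. -/
structure Struct (G : Game Pt) (μ : Bool → ℕ) (s : State Pt) : Prop where
  wf1 : ∀ H ∈ s.fam, ∀ τ, (sec G.ty s.L τ ∩ H).card = s.h τ
  wf2 : ∀ H ∈ s.fam, ∀ H' ∈ s.fam, H \ s.L = H' \ s.L
  ne : s.fam.Nonempty
  dis : Disjoint s.P s.L
  cnt : ∀ τ, s.h τ + (sec G.ty s.P τ).card = mult τ * s.u
  cov : ∀ H ∈ s.fam, Cov s.M (H ∩ s.L ∪ s.P)
  bad : G.Bad s.M s.T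
  val : ∀ e ∈ s.T, Valid G.ty e
  time : s.T.card + G.b1 * G.K * s.u ≤ G.b1 * G.K * G.m
  um : s.u ≤ G.m
  low : ∀ v ∈ s.L, (deg s.T v : ℝ) ≤ G.θ1
  box : Box G.θ1 (Fintype.card Pt) G.b1 G.i0 s.T (s.P ∪ s.L)
  room : ∀ τ, μ τ + s.h τ ≤ (sec G.ty s.L τ).card + s.nq G

/-- No live point has large degree. -/
def State.Calm (G : Game Pt) (s : State Pt) : Prop := ∀ v ∈ s.L, (deg s.T v : ℝ) < G.θ0

lemma Game.card_pt (G : Game Pt) : Fintype.card Pt = 3 * G.m := by
  rw [← card_univ, ← card_sec_add G.ty univ, G.hty, G.hty]; simp; ring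

lemma Game.hi_mono (G : Game Pt) {T T' : Finset (Finset Pt)} (h : T ⊆ T') :
    G.Hi T ⊆ G.Hi T' := by
  intro v hv
  simp only [Game.Hi, mem_filter, mem_univ, true_and] at hv ⊢
  have : (deg T v : ℝ) ≤ deg T' v := by exact_mod_cast deg_mono h v
  linarith

lemma Game.card_hi_le (G : Game Pt) {T : Finset (Finset Pt)} (hv : ∀ e ∈ T, Valid G.ty e)
    (hT : T.card ≤ G.b1 * G.K * G.m) : (G.Hi T).card ≤ G.Y := by
  have h1 := sum_deg_le (fun e he => (hv e he).card_eq) (G.Hi T)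
  have h2 : (G.Hi T).card • G.θ0 ≤ ∑ v ∈ G.Hi T, (deg T v : ℝ) :=
    card_nsmul_le_sum _ _ _ fun v hv => by simpa [Game.Hi] using hv
  have h3 : (∑ v ∈ G.Hi T, (deg T v : ℝ)) ≤ 3 * T.card := by exact_mod_cast h1
  have h4 : (T.card : ℝ) ≤ G.b1 * G.K * G.m := by exact_mod_cast hT
  rw [nsmul_eq_mul] at h2
  have h5 : ((G.Hi T).card : ℝ) * G.θ0 ≤ G.Y * G.θ0 := by linarith only [h2, h3, h4, G.hY]
  exact_mod_cast le_of_mul_le_mul_right h5 G.hθ0

variable {G : Game Pt} {μ : Bool → ℕ} {s : State Pt}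

lemma Struct.hi_le (hs : Struct G μ s) : (G.Hi s.T).card ≤ G.Y :=
  G.card_hi_le hs.val (le_trans (Nat.le_add_right _ _) hs.time)

lemma Struct.nq_le (hs : Struct G μ s) : s.nq G ≤ G.Y :=
  (card_le_card sdiff_subset).trans hs.hi_le

lemma nq_le_of (G : Game Pt) {s s' : State Pt} (hT : s.T ⊆ s'.T) (hL : s'.L ⊆ s.L) :
    s.nq G ≤ s'.nq G :=
  card_le_card (sdiff_subset_sdiff (G.hi_mono hT) hL)

lemma nq_erase (G : Game Pt) {s s' : State Pt} {v : Pt} (hT : s'.T = s.T)
    (hL : s'.L = s.L.erase v) (hv : v ∈ s.L) (hd : G.θ0 ≤ (deg s.T v : ℝ)) :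
    s'.nq G = s.nq G + 1 := by
  unfold State.nq
  rw [hT, hL, ← card_insert_of_notMem (a := v) (by simp [hv])]
  congr 1
  ext x
  simp only [mem_sdiff, mem_erase, mem_insert]
  constructor
  · rintro ⟨h1, h2⟩
    by_cases hx : x = v
    · exact Or.inl hx
    · exact Or.inr ⟨h1, fun h => h2 ⟨hx, h⟩⟩
  · rintro (h | h)
    · subst h; exact ⟨by simpa [Game.Hi] using hd, fun h => h.1 rfl⟩
    · exact ⟨h.1, fun h' => h.2 h'.2⟩

lemma card_sec_erase (G : Game Pt) {L : Finset Pt} {y : Pt} (hy : y ∈ L) (τ : Bool) :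
    (sec G.ty (L.erase y) τ).card + (if τ = G.ty y then 1 else 0) = (sec G.ty L τ).card := by
  rw [← card_sec_insert G.ty (notMem_erase y L), insert_erase hy]

lemma Struct.one_le_h (hs : Struct G μ s) {y : Pt} (hy : y ∈ s.L)
    (hne : (s.fam.filter (fun H => y ∈ H)).Nonempty) : 1 ≤ s.h (G.ty y) := by
  obtain ⟨H, hH⟩ := hne
  rw [mem_filter] at hH
  rw [← hs.wf1 H hH.1]
  exact card_pos.2 ⟨y, by simp [hy, hH.2]⟩

lemma wf1_rev (G : Game Pt) {L : Finset Pt} {fam : Finset (Finset Pt)} {h : Bool → ℕ}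
    (wf1 : ∀ H ∈ fam, ∀ τ, (sec G.ty L τ ∩ H).card = h τ) {y : Pt} (hy : y ∈ L) :
    ∀ H ∈ fam.filter (fun H => y ∈ H), ∀ τ,
      (sec G.ty (L.erase y) τ ∩ H).card = dec h (G.ty y) τ := by
  intro H hH τ
  rw [mem_filter] at hH
  rw [sec_erase, erase_inter]
  unfold dec
  split_ifs with hτ
  · rw [card_erase_of_mem (by simp [hy, hH.2, hτ]), wf1 H hH.1]
  · rw [erase_eq_of_notMem (by simp; intro _ h; exact absurd h.symm hτ), wf1 H hH.1]

lemma wf1_out (G : Game Pt) {L : Finset Pt} {fam : Finset (Finset Pt)} {h : Bool → ℕ}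
    (wf1 : ∀ H ∈ fam, ∀ τ, (sec G.ty L τ ∩ H).card = h τ) (v : Pt) :
    ∀ H ∈ fam.filter (fun H => v ∉ H), ∀ τ, (sec G.ty (L.erase v) τ ∩ H).card = h τ := by
  intro H hH τ
  rw [mem_filter] at hH
  rw [sec_erase, erase_inter, erase_eq_of_notMem (by simp [hH.2]), wf1 H hH.1]

lemma Struct.rev (hs : Struct G μ s) {y : Pt} (hy : y ∈ s.L) (hne : (s.rev G y).fam.Nonempty) :
    Struct G μ (s.rev G y) := by
  have hyP : y ∉ s.P := fun h => disjoint_left.1 hs.dis h hy
  have h1 := hs.one_le_h hy hne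
  refine ⟨wf1_rev G hs.wf1 hy, ?_, hne, ?_, ?_, ?_, hs.bad, hs.val, hs.time, hs.um, ?_, ?_, ?_⟩
  · intro H hH H' hH'
    simp only [State.rev, mem_filter] at hH hH' ⊢
    rw [sdiff_erase hH.2, sdiff_erase hH'.2, hs.wf2 H hH.1 H' hH'.1]
  · simp only [State.rev, disjoint_insert_left, notMem_erase, not_false_eq_true, true_and]
    exact hs.dis.mono_right (erase_subset _ _)
  · intro τ
    simp only [State.rev]
    rw [card_sec_insert G.ty hyP, ← hs.cnt τ]
    unfold dec
    split_ifs with hτ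
    · subst hτ; omega
    · rfl
  · intro H hH
    simp only [State.rev, mem_filter] at hH ⊢
    have : H ∩ s.L.erase y ∪ insert y s.P = H ∩ s.L ∪ s.P := by
      ext x
      simp only [mem_union, mem_inter, mem_erase, mem_insert]
      by_cases hx : x = y
      · subst hx; simp [hH.2, hy]
      · simp [hx]
    rw [this]; exact hs.cov H hH.1
  · intro v hv; exact hs.low v (mem_of_mem_erase hv)
  · refine hs.box.mono ?_
    intro x hx
    simp only [State.rev, mem_union, mem_erase, mem_insert] at hx ⊢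
    rcases hx with (h | h) | h
    · exact Or.inr (h ▸ hy)
    · exact Or.inl h
    · exact Or.inr h.2
  · intro τ
    have a1 := hs.room τ
    have a2 := card_sec_erase G hy τ
    have a3 : s.nq G ≤ (s.rev G y).nq G := nq_le_of G (subset_refl _) (erase_subset _ _)
    show μ τ + dec s.h (G.ty y) τ ≤ (sec G.ty (s.L.erase y) τ).card + (s.rev G y).nq G
    unfold dec
    split_ifs at a2 ⊢ with hτ
    · subst hτ; omega
    · omega

lemma Struct.out (hs : Struct G μ s) {v : Pt} (hv : v ∈ s.L) (hd : G.θ0 ≤ (deg s.T v : ℝ))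
    (hne : (s.out v).fam.Nonempty) : Struct G μ (s.out v) := by
  refine ⟨wf1_out G hs.wf1 v, ?_, hne, ?_, hs.cnt, ?_, hs.bad, hs.val, hs.time, hs.um, ?_, ?_, ?_⟩
  · intro H hH H' hH'
    simp only [State.out, mem_filter] at hH hH' ⊢
    have e : ∀ K : Finset Pt, v ∉ K → K \ s.L.erase v = K \ s.L := by
      intro K hK; ext x
      simp only [mem_sdiff, mem_erase]
      constructor
      · rintro ⟨h1, h2⟩; exact ⟨h1, fun h => h2 ⟨fun h' => hK (h' ▸ h1), h⟩⟩
      · rintro ⟨h1, h2⟩; exact ⟨h1, fun h => h2 h.2⟩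
    rw [e H hH.2, e H' hH'.2, hs.wf2 H hH.1 H' hH'.1]
  · exact hs.dis.mono_right (erase_subset _ _)
  · intro H hH
    simp only [State.out, mem_filter] at hH ⊢
    rw [inter_erase, erase_eq_of_notMem (by simp [hH.2])]
    exact hs.cov H hH.1
  · intro x hx; exact hs.low x (mem_of_mem_erase hx)
  · exact hs.box.mono (union_subset_union (subset_refl _) (erase_subset _ _))
  · intro τ
    have a1 := hs.room τ
    have a2 := card_sec_erase G hv τ
    have a3 : (s.out v).nq G = s.nq G + 1 := nq_erase G rfl rfl hv hd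
    simp only [State.out] at a3 ⊢
    split_ifs at a2 <;> omega

lemma Struct.cov' (hs : Struct G μ s) (hc : s.Calm G) {e : Finset Pt} (he : Valid G.ty e)
    (heP : e ⊆ s.P) {v : Pt} (hv : v ∈ e)
    (hmax : ∀ x ∈ s.P, x ∉ e → deg s.T x ≤ deg s.T v) {T' : Finset (Finset Pt)}
    (hT : s.T ⊆ T') (hc' : (T' \ s.T).card ≤ G.b1) (hval : ∀ f ∈ T', f ∉ s.T → Valid G.ty f)
    (hbad : G.Bad (insert e s.M) T') : Struct G μ (s.cov e T') := by
  have hu : 1 ≤ s.u := by
    have a1 := hs.cnt false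
    have a2 : (sec G.ty e false).card ≤ (sec G.ty s.P false).card :=
      card_le_card (filter_subset_filter _ heP)
    rw [he false] at a2
    simp only [mult_false] at a1 a2
    omega
  have hcard : T'.card ≤ s.T.card + G.b1 := by
    have := card_sdiff_add_card_eq_card hT
    omega
  have htime : T'.card + G.b1 * G.K * (s.u - 1) ≤ G.b1 * G.K * G.m := by
    have a1 := hs.time
    obtain ⟨w, hw⟩ : ∃ w, s.u = w + 1 := ⟨s.u - 1, by omega⟩
    rw [hw] at a1 ⊢
    have a2 : G.b1 ≤ G.b1 * G.K := Nat.le_mul_of_pos_right _ G.hK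
    simp only [Nat.add_sub_cancel]
    rw [mul_add] at a1
    omega
  have hθ : G.θ0 + G.b1 ≤ G.θ1 := by
    clear * - Pt G
    have a1 := G.hθ1
    have a2 : (1 : ℝ) ≤ G.K := by exact_mod_cast G.hK
    have a3 : (0 : ℝ) ≤ G.b1 := Nat.cast_nonneg _
    linarith only [a1, a2, mul_nonneg_of_nonpos_of_nonpos (Mathlib.Tactic.Linarith.sub_nonpos_of_le (Mathlib.Tactic.Linarith.natCast_nonneg ℝ G.b1)) (Mathlib.Tactic.Linarith.sub_nonpos_of_le a2)]
  have hb : (0 : ℝ) ≤ G.b1 := Nat.cast_nonneg _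
  refine ⟨hs.wf1, hs.wf2, hs.ne, hs.dis.mono_left sdiff_subset, ?_, ?_, hbad, ?_, htime,
    (Nat.sub_le _ _).trans hs.um, ?_, ?_, ?_⟩
  · intro τ
    have a1 := hs.cnt τ
    have a2 : sec G.ty (s.P \ e) τ = sec G.ty s.P τ \ sec G.ty e τ := by
      clear * - Pt G s e τ
      ext x; simp; tauto
    have a3 := card_sdiff_add_card_eq_card
      (show sec G.ty e τ ⊆ sec G.ty s.P τ from filter_subset_filter _ heP)
    rw [he τ] at a3
    simp only [State.cov]
    rw [a2]
    obtain ⟨w, hw⟩ : ∃ w, s.u = w + 1 := ⟨s.u - 1, by omega⟩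
    rw [hw] at a1 ⊢
    simp only [Nat.add_sub_cancel]
    rw [mul_add] at a1
    omega
  · intro H hH
    have a1 := (hs.cov H hH).add (subset_insert e s.M) (mem_insert_self _ _)
      (heP.trans subset_union_right)
    simp only [State.cov]
    convert a1 using 1
    ext x
    simp only [mem_union, mem_inter, mem_sdiff]
    have : x ∈ s.L → x ∉ e := fun h h' => disjoint_left.1 hs.dis (heP h') h
    tauto
  · intro f hf
    by_cases h : f ∈ s.T
    · exact hs.val f h
    · exact hval f hf h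
  · intro x hx
    have a1 := hc x hx
    have a2 : (deg T' x : ℝ) ≤ deg s.T x + G.b1 := by
      exact_mod_cast (deg_le_add hT x).trans (Nat.add_le_add_left hc' _)
    simp only [State.cov]
    clear * - Pt T' x G s hθ a1 a2
    linarith
  · refine hs.box.step (fun f hf => (hs.val f hf).card_eq) (v := v)
      (mem_union_left _ (heP hv)) (union_subset_union sdiff_subset (subset_refl _)) ?_ ?_ hc' ?_
    · simp only [State.cov, mem_union, mem_sdiff, not_or]
      exact ⟨fun h => h.2 hv, disjoint_left.1 hs.dis (heP hv)⟩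
    · intro x hx
      simp only [State.cov, mem_union, mem_sdiff] at hx
      rcases hx with h | h
      · exact Or.inl (hmax x h.1 h.2)
      · exact Or.inr (hs.low x h)
    · have a1 : T'.card ≤ G.b1 * G.K * G.m := le_trans (Nat.le_add_right _ _) htime
      have a2 : (T'.card : ℝ) ≤ G.b1 * G.K * G.m := by exact_mod_cast a1
      simp only [State.cov]
      clear * - Pt T' G a2
      linarith [G.hi]
  · intro τ
    have a1 := hs.room τ
    have a3 : s.nq G ≤ (s.cov e T').nq G := nq_le_of G hT (subset_refl _)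
    simp only [State.cov] at a3 ⊢
    omega

/-- An invariant can answer queries. -/
def QueryOK (G : Game Pt) (μ : Bool → ℕ) (Inv : State Pt → Prop) : Prop :=
  ∀ s, Struct G μ s → Inv s → ∀ v ∈ s.L, G.θ0 ≤ (deg s.T v : ℝ) →
    ((s.rev G v).fam.Nonempty ∧ Inv (s.rev G v)) ∨ ((s.out v).fam.Nonempty ∧ Inv (s.out v))

/-- An invariant can serve the buffer. -/
def ServeOK (G : Game Pt) (μ : Bool → ℕ) (Inv : State Pt → Prop) : Prop :=
  ∀ s, Struct G μ s → Inv s → s.Calm G → ∀ v ∈ s.P, (∀ x ∈ s.P, deg s.T x ≤ deg s.T v) →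
    ∃ y ∈ s.L, ∃ z ∈ s.L.erase y, G.ty y = true ∧ G.ty z = (!G.ty v) ∧
      ((s.rev G y).rev G z).fam.Nonempty ∧
      ({v, y, z} ∈ s.T → Inv ((s.rev G y).rev G z)) ∧
      ({v, y, z} ∉ s.T → ∀ T', s.T ⊆ T' → (T' \ s.T).card ≤ G.b1 →
        (∀ f ∈ T', f ∉ s.T → Valid G.ty f) → Inv (((s.rev G y).rev G z).cov {v, y, z} T'))

theorem engine {Inv : State Pt → Prop} (hQ : QueryOK G μ Inv) (hS : ServeOK G μ Inv)
    (s : State Pt) (hs : Struct G μ s) (hI : Inv s) :
    ∃ s', Struct G μ s' ∧ Inv s' ∧ s'.P = ∅ ∧ s'.Calm G ∧ s'.L.card ≤ s.L.card ∧ s'.u ≤ s.u := by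
  induction' hn : s.L.card using Nat.strong_induction_on with n ih generalizing s
  by_cases hc : s.Calm G
  · rcases s.P.eq_empty_or_nonempty with hP | hP
    · exact ⟨s, hs, hI, hP, hc, hn.le, le_rfl⟩
    obtain ⟨v, hv, hmax⟩ := exists_max_image s.P (fun x => deg s.T x) hP
    obtain ⟨y, hy, z, hz, hty, htz, hne, hf, hsu⟩ := hS s hs hI hc v hv hmax
    have hne1 : (s.rev G y).fam.Nonempty := hne.mono (filter_subset _ _)
    have hs1 := hs.rev hy hne1
    have hs2 := hs1.rev (y := z) hz hne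
    have hlt : ((s.rev G y).rev G z).L.card < n := by
      rw [← hn]
      exact lt_of_le_of_lt card_erase_le (card_erase_lt_of_mem hy)
    by_cases hT : {v, y, z} ∈ s.T
    · obtain ⟨s', h1, h2, h3, h4, h5, h6⟩ := ih _ hlt _ hs2 (hf hT) rfl
      exact ⟨s', h1, h2, h3, h4, h5.trans hlt.le, h6⟩
    · have hvL : v ∉ s.L := disjoint_left.1 hs.dis hv
      have hval : Valid G.ty {v, y, z} :=
        valid_triple (fun h => hvL (h ▸ hy)) (fun h => hvL (h ▸ mem_of_mem_erase hz))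
          (ne_of_mem_erase hz).symm hty htz
      obtain ⟨T', hT1, hT2, hT3, hT4⟩ := G.move s.M s.T _ hs.bad hval hT
      have hs3 : Struct G μ (((s.rev G y).rev G z).cov {v, y, z} T') := by
        refine hs2.cov' (fun x hx => hc x (mem_of_mem_erase (mem_of_mem_erase hx))) hval ?_
          (v := v) (mem_insert_self _ _) ?_ hT1 hT2 hT3 hT4
        · intro x hx
          simp only [State.rev, mem_insert, mem_singleton] at hx ⊢
          rcases hx with h | h | h
          · exact Or.inr (Or.inr (h ▸ hv))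
          · exact Or.inr (Or.inl h)
          · exact Or.inl h
        · intro x hx hx'
          simp only [State.rev, mem_insert, mem_singleton, not_or] at hx hx' ⊢
          rcases hx with h | h | h
          · exact absurd h hx'.2.2
          · exact absurd h hx'.2.1
          · exact hmax x h
      obtain ⟨s', h1, h2, h3, h4, h5, h6⟩ := ih _ hlt _ hs3 (hsu hT T' hT1 hT2 hT3) rfl
      exact ⟨s', h1, h2, h3, h4, h5.trans hlt.le, h6.trans (Nat.sub_le _ _)⟩
  · unfold State.Calm at hc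
    push Not at hc
    obtain ⟨v, hv, hd⟩ := hc
    have hlt : (s.L.erase v).card < n := hn ▸ card_erase_lt_of_mem hv
    rcases hQ s hs hI v hv hd with ⟨hne, hI'⟩ | ⟨hne, hI'⟩
    · obtain ⟨s', h1, h2, h3, h4, h5, h6⟩ := ih _ hlt _ (hs.rev hv hne) hI' rfl
      exact ⟨s', h1, h2, h3, h4, h5.trans hlt.le, h6⟩
    · obtain ⟨s', h1, h2, h3, h4, h5, h6⟩ := ih _ hlt _ (hs.out hv hd hne) hI' rfl
      exact ⟨s', h1, h2, h3, h4, h5.trans hlt.le, h6⟩

end Pool.Agent.Work.MP_6aef45_co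
end

-- merged part: Pool.Agent.Work.MP_6aef45_co.BlockCount
section
namespace Pool.Agent.Work.MP_6aef45_co
open Finset

variable {Pt : Type*} [DecidableEq Pt]

lemma up_mul (D : Finset Pt) (t : ℝ) (φ : Finset Pt → ℝ) (R : Finset Pt) :
    up D (fun H => t * φ H) R = t * up D φ R := by
  unfold up; rw [mul_sum]

lemma up_add (D : Finset Pt) (φ ψ : Finset Pt → ℝ) (R : Finset Pt) :
    up D (fun H => φ H + ψ H) R = up D φ R + up D ψ R := by
  unfold up; rw [sum_add_distrib]

lemma up_congr (D : Finset Pt) {φ ψ : Finset Pt → ℝ} (R : Finset Pt)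
    (h : ∀ x ∈ D \ R, φ (insert x R) = ψ (insert x R)) : up D φ R = up D ψ R :=
  sum_congr rfl h

lemma up_const (D : Finset Pt) (t : ℝ) (R : Finset Pt) :
    up D (fun _ => t) R = ((D.card : ℝ) - (D ∩ R).card) * t := by
  unfold up; rw [sum_const, nsmul_eq_mul, card_sdiff_cast]

/-- `φ` is supported on sets with `a` points in `V` and `c` points in `C`. -/
def Supp (V C : Finset Pt) (φ : Finset Pt → ℝ) (a c : ℕ) : Prop :=
  ∀ R, φ R ≠ 0 → (V ∩ R).card = a ∧ (C ∩ R).card = c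

lemma Supp.symm {V C : Finset Pt} {φ : Finset Pt → ℝ} {a c : ℕ} (h : Supp V C φ a c) :
    Supp C V φ c a := fun R hR => (h R hR).symm

lemma Supp.up_left {V C : Finset Pt} (hd : Disjoint V C) {φ : Finset Pt → ℝ} {a c : ℕ}
    (h : Supp V C φ (a + 1) c) : Supp V C (up V φ) a c := by
  intro R hR
  obtain ⟨x, hx, hx'⟩ := exists_ne_zero_of_sum_ne_zero hR
  rw [mem_sdiff] at hx
  obtain ⟨h1, h2⟩ := h _ hx'
  rw [card_inter_insert_of_mem hx.1 hx.2] at h1
  rw [card_inter_insert_of_notMem (disjoint_left.1 hd hx.1)] at h2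
  exact ⟨by omega, h2⟩

lemma Supp.up_right {V C : Finset Pt} (hd : Disjoint V C) {φ : Finset Pt → ℝ} {a c : ℕ}
    (h : Supp V C φ a (c + 1)) : Supp V C (up C φ) a c :=
  (Supp.up_left hd.symm h.symm).symm

lemma Supp.mul_right {V C : Finset Pt} {φ : Finset Pt → ℝ} {a c : ℕ} (h : Supp V C φ a c)
    (ψ : Finset Pt → ℝ) : Supp V C (fun R => φ R * ψ R) a c :=
  fun R hR => h R (left_ne_zero_of_mul hR)

lemma Supp.sum_up_left [Fintype Pt] {V C : Finset Pt} {φ : Finset Pt → ℝ} {a c : ℕ}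
    (h : Supp V C φ a c) : ∑ R, up V φ R = a * ∑ R, φ R := by
  rw [sum_up, mul_sum]
  refine sum_congr rfl fun R _ => ?_
  by_cases hR : φ R = 0
  · simp [hR]
  · rw [(h R hR).1]

lemma Supp.sum_up_right [Fintype Pt] {V C : Finset Pt} {φ : Finset Pt → ℝ} {a c : ℕ}
    (h : Supp V C φ a c) : ∑ R, up C φ R = c * ∑ R, φ R := h.symm.sum_up_left

lemma gain_aux (D1 D2 D3 : Finset Pt) (F : Finset (Finset Pt)) (r To : ℝ) (S : Finset Pt)
    (hTo : 0 ≤ To)
    (h1 : ∀ R, kk D3 F R ≠ 0 → ((D3 \ R).card : ℝ) = r)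
    (h2 : up D1 (up D2 (kk D3 F)) S ≠ 0 → (∀ x ∈ D1 \ S, ∀ y ∈ D2 \ insert x S,
      ((D3 \ insert y (insert x S)).card : ℝ) = r) ∧ up D1 (up D2 (fun _ => r)) S = To) :
    up D1 (up D2 (kk D3 F)) S ≤ To ∧
    up D1 (up D2 (fun R => kk D3 F R * kb D3 F R)) S * To
      ≤ 2 * r * up D1 (up D2 (kk D3 F)) S * (To - up D1 (up D2 (kk D3 F)) S) := by
  have e1 : up D1 (up D2 (fun R => kk D3 F R * kb D3 F R)) S
      ≤ r * up D1 (up D2 (kk D3 F)) S := by
    rw [← up_mul]
    refine up_mono _ _ fun x _ => ?_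
    rw [← up_mul]
    refine up_mono _ _ fun y _ => ?_
    by_cases hk : kk D3 F (insert y (insert x S)) = 0
    · simp [hk]
    · have a1 := kk_add_kb D3 F (insert y (insert x S))
      rw [h1 _ hk] at a1
      have a2 := kk_nonneg D3 F (insert y (insert x S))
      linarith only [a1, a2, Mathlib.Tactic.Linarith.zero_mul_eq (sub_eq_zero_of_eq a1) (Mathlib.Tactic.Linarith.sub_nonpos_of_le a2), mul_nonneg_of_nonpos_of_nonpos (Mathlib.Tactic.Linarith.sub_nonpos_of_le a2) (Mathlib.Tactic.Linarith.sub_nonpos_of_le a2)]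
  by_cases hU : up D1 (up D2 (kk D3 F)) S = 0
  · rw [hU] at e1 ⊢
    exact ⟨hTo, by linarith only [hTo, e1, mul_nonneg_of_nonpos_of_nonpos (Mathlib.Tactic.Linarith.sub_nonpos_of_le hTo) (Mathlib.Tactic.Linarith.sub_nonpos_of_le e1)]⟩
  obtain ⟨h3, h4⟩ := h2 hU
  have e2 : up D1 (up D2 (kk D3 F)) S + up D1 (up D2 (kb D3 F)) S = To := by
    rw [← up_add, ← h4]
    refine up_congr _ _ fun x hx => ?_
    rw [← up_add]
    refine up_congr _ _ fun y hy => ?_
    rw [kk_add_kb, h3 x hx y hy]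
  have e3 : up D1 (up D2 (fun R => kk D3 F R * kb D3 F R)) S
      ≤ r * up D1 (up D2 (kb D3 F)) S := by
    rw [← up_mul]
    refine up_mono _ _ fun x hx => ?_
    rw [← up_mul]
    refine up_mono _ _ fun y hy => ?_
    have a1 := kk_add_kb D3 F (insert y (insert x S))
    rw [h3 x hx y hy] at a1
    have a2 := kb_nonneg D3 F (insert y (insert x S))
    linarith only [a1, a2, Mathlib.Tactic.Linarith.zero_mul_eq (sub_eq_zero_of_eq a1) (Mathlib.Tactic.Linarith.sub_nonpos_of_le a2), mul_nonneg_of_nonpos_of_nonpos (Mathlib.Tactic.Linarith.sub_nonpos_of_le a2) (Mathlib.Tactic.Linarith.sub_nonpos_of_le a2)]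
  have n1 : 0 ≤ up D1 (up D2 (kk D3 F)) S := up_nonneg _ (up_nonneg _ (kk_nonneg _ _)) _
  have n2 : 0 ≤ up D1 (up D2 (kb D3 F)) S := up_nonneg _ (up_nonneg _ (kb_nonneg _ _)) _
  refine ⟨by linarith, ?_⟩
  rw [← e2]
  linarith only [e1, n2, e3, n1, mul_le_mul_of_nonneg_right e1 n2, mul_le_mul_of_nonneg_right e3 n1]

/-- Number of ordered triples extending `S` to a member of `F`. -/
def UU (V C : Finset Pt) (F : Finset (Finset Pt)) (S : Finset Pt) : ℝ :=
  up C (up V (kk V F)) S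

lemma UU_eq (V C : Finset Pt) (F : Finset (Finset Pt)) (S : Finset Pt) :
    UU V C F S = up V (up V (kk C F)) S := by
  unfold UU kk
  rw [up_comm]
  congr 1
  funext R
  exact up_comm C V _ R

lemma UU_nonneg (V C : Finset Pt) (F : Finset (Finset Pt)) (S : Finset Pt) : 0 ≤ UU V C F S :=
  up_nonneg _ (up_nonneg _ (kk_nonneg _ _)) _

theorem block_count [Fintype Pt] {V C : Finset Pt} (hd : Disjoint V C) {F : Finset (Finset Pt)}
    {w : ℕ} (hF : ∀ H ∈ F, (V ∩ H).card = 2 * w + 2 ∧ (C ∩ H).card = w + 1) (To : ℝ)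
    (hTo : To = ((C.card : ℝ) - w) * (((V.card : ℝ) - 2 * w) * (V.card - 2 * w - 1)))
    (hTo0 : 0 ≤ To) :
    (∀ S, UU V C F S ≤ To) ∧
    ∑ S, UU V C F S = (w + 1) * (2 * w + 1) * (2 * w + 2) * F.card ∧
    (w + 1) * (2 * w + 1) * esc V F * To
      ≤ 2 * (V.card - 2 * w - 1) * ∑ S, UU V C F S * (To - UU V C F S) ∧
    (2 * w + 1) * (2 * w + 2) * esc C F * To
      ≤ 2 * (C.card - w) * ∑ S, UU V C F S * (To - UU V C F S) := by
  have s0 : Supp V C (ind F) (2 * w + 1 + 1) (w + 1) := by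
    intro H hH
    apply hF
    by_contra hc; exact hH (by simp [ind, hc])
  have sV : Supp V C (kk V F) (2 * w + 1) (w + 1) := s0.up_left hd
  have sVV : Supp V C (up V (kk V F)) (2 * w) (w + 1) := sV.up_left hd
  have sU : Supp V C (UU V C F) (2 * w) w := sVV.up_right hd
  have sC : Supp V C (kk C F) (2 * w + 1 + 1) w := s0.up_right hd
  have gV : ∀ S, UU V C F S ≤ To ∧ up C (up V (fun R => kk V F R * kb V F R)) S * To
      ≤ 2 * ((V.card : ℝ) - 2 * w - 1) * UU V C F S * (To - UU V C F S) := by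
    intro S
    refine gain_aux C V V F _ To S hTo0 ?_ ?_
    · intro R hR
      rw [card_sdiff_cast, (sV R hR).1]; push_cast; ring
    · intro hS
      obtain ⟨a1, a2⟩ := sU S hS
      refine ⟨fun x hx y hy => ?_, ?_⟩
      · rw [mem_sdiff] at hx hy
        rw [card_sdiff_cast, card_inter_insert_of_mem hy.1 hy.2,
          card_inter_insert_of_notMem (disjoint_right.1 hd hx.1), a1]
        push_cast; ring
      · rw [up_congr C (ψ := fun _ => ((V.card : ℝ) - 2 * w) * (V.card - 2 * w - 1)), up_const,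
          a2, hTo]
        intro x hx
        rw [mem_sdiff] at hx
        rw [up_const, card_inter_insert_of_notMem (disjoint_right.1 hd hx.1), a1]
        push_cast; ring
  have gC : ∀ S, up V (up V (fun R => kk C F R * kb C F R)) S * To
      ≤ 2 * ((C.card : ℝ) - w) * UU V C F S * (To - UU V C F S) := by
    intro S
    rw [UU_eq]
    refine (gain_aux V V C F _ To S hTo0 ?_ ?_).2
    · intro R hR
      rw [card_sdiff_cast, (sC R hR).2]
    · intro hS
      rw [← UU_eq] at hS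
      obtain ⟨a1, a2⟩ := sU S hS
      refine ⟨fun x hx y hy => ?_, ?_⟩
      · rw [mem_sdiff] at hx hy
        rw [card_sdiff_cast, card_inter_insert_of_notMem (disjoint_left.1 hd hy.1),
          card_inter_insert_of_notMem (disjoint_left.1 hd hx.1), a2]
      · rw [up_congr V (ψ := fun _ => ((V.card : ℝ) - 2 * w - 1) * (C.card - w)), up_const,
          a1, hTo]
        · push_cast; ring
        intro x hx
        rw [mem_sdiff] at hx
        rw [up_const, card_inter_insert_of_mem hx.1 hx.2, a1]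
        push_cast; ring
  refine ⟨fun S => (gV S).1, ?_, ?_, ?_⟩
  · unfold UU
    rw [sVV.sum_up_right, sV.sum_up_left, sum_kk (h := 2 * w + 2) (fun H hH => (hF H hH).1)]
    push_cast; ring
  · have a1 := sum_le_sum (s := univ) fun S _ => (gV S).2
    rw [← sum_mul, ((sV.mul_right _).up_left hd).sum_up_right, (sV.mul_right _).sum_up_left] at a1
    unfold esc
    rw [mul_sum (f := fun S => UU V C F S * (To - UU V C F S))]
    simp_rw [← mul_assoc]
    push_cast at a1
    linarith only [a1]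
  · have a1 := sum_le_sum (s := univ) fun S _ => gC S
    rw [← sum_mul, ((sC.mul_right _).up_left hd).sum_up_left, (sC.mul_right _).sum_up_left] at a1
    unfold esc
    rw [mul_sum (f := fun S => UU V C F S * (To - UU V C F S))]
    simp_rw [← mul_assoc]
    push_cast at a1
    linarith

lemma pow_convex_aux {p d : ℝ} (hp0 : 0 ≤ p) (hp1 : p ≤ 1) (hd0 : 0 ≤ d) (hd1 : d ≤ 1) (k : ℕ) :
    (1 - p * d) ^ k ≤ d * (1 - p) ^ k + (1 - d) := by
  induction k with
  | zero => simp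
  | succ k ih =>
    have a1 : (1 - p) ^ k ≤ 1 := pow_le_one₀ (by linarith) (by linarith)
    have a2 : 0 ≤ 1 - p * d := by linarith only [hp1, hp0, hd1, mul_nonneg_of_nonpos_of_nonpos (Mathlib.Tactic.Linarith.sub_nonpos_of_le hp0) (Mathlib.Tactic.Linarith.sub_nonpos_of_le hd1)]
    rw [pow_succ, pow_succ]
    have a3 := mul_le_mul_of_nonneg_right ih a2
    have a4 : 0 ≤ p * d * ((1 - (1 - p) ^ k) * (1 - d)) :=
      mul_nonneg (mul_nonneg hp0 hd0) (mul_nonneg (by linarith) (by linarith))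
    clear * - p d k a3 a4
    nlinarith

lemma cover_ineq {p d q γ : ℝ} (hp0 : 0 ≤ p) (hp1 : p ≤ 1) (hd0 : 0 ≤ d) (hd1 : d ≤ 1) {k : ℕ}
    (hγ : (1 - p) ^ k ≤ γ) (hγ1 : γ ≤ 1) (hq : p * d ≤ q) (hq1 : q ≤ 1) :
    (1 - γ) * (d + d * (1 - d)) ≤ 1 - (1 - q) ^ (2 * k) := by
  have a1 : (1 - q) ^ k ≤ (1 - p * d) ^ k := pow_le_pow_left₀ (by linarith) (by linarith) k
  have a2 := pow_convex_aux hp0 hp1 hd0 hd1 k
  have a3 : (1 - q) ^ k ≤ 1 - d * (1 - γ) := by clear * - q k d γ p a1 a2 hd0 hγ; linarith only [a1, a2, hd0, hγ, mul_nonneg_of_nonpos_of_nonpos (Mathlib.Tactic.Linarith.sub_nonpos_of_le hd0) (Mathlib.Tactic.Linarith.sub_nonpos_of_le hγ)]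
  have a4 : 0 ≤ (1 - q) ^ k := pow_nonneg (by linarith) k
  have a5 : 0 ≤ γ := le_trans (pow_nonneg (by linarith) k) hγ
  rw [mul_comm 2 k, pow_mul]
  have a6 : ((1 - q) ^ k) ^ 2 ≤ (1 - d * (1 - γ)) ^ 2 := pow_le_pow_left₀ a4 a3 2
  have a7 : 0 ≤ d * (1 - γ) * (d * γ) :=
    mul_nonneg (mul_nonneg hd0 (by linarith)) (mul_nonneg hd0 a5)
  clear * - γ d q k a6 a7
  linarith only [a6, a7]

end Pool.Agent.Work.MP_6aef45_co
end

-- merged part: Pool.Agent.Work.MP_6aef45_co.Serve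
section
namespace Pool.Agent.Work.MP_6aef45_co
open Finset

variable {Pt : Type} [DecidableEq Pt] [Fintype Pt]

/-- Constants used when serving a buffer point. -/
structure Srv (G : Game Pt) where
  σ : ℝ
  p0 : ℝ
  p1 : ℝ
  lam : ℝ
  ρ0 : ℕ
  hσ : 0 < σ
  hc : 24 * (G.b1 : ℝ) ≤ σ * G.θ0
  hlow : p0 * Real.exp (9 * σ / 4) + (1 - p0) * Real.exp (-σ / 2) ≤ 1
  hhigh : p1 * Real.exp (9 * σ / 4) + (1 - p1) * Real.exp (-1) ≤ 1
  hlam : 0 < lam
  hρ0 : 1 ≤ ρ0
  hd0 : G.θ0 + G.θ1 ≤ (p0 - 6 * lam) * (2 * (ρ0 : ℝ) ^ 2)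
  hd1 : gb G.θ1 (Fintype.card Pt) G.b1 G.i0 1 ≤ (p1 - 6 * lam) * (2 * (ρ0 : ℝ) ^ 2)

variable {G : Game Pt} {μ : Bool → ℕ} {s : State Pt}

/-- Weight of a buffer point. -/
noncomputable def Srv.wv (c : Srv G) (T : Finset (Finset Pt)) (v : Pt) : ℝ :=
  1 + max ((deg T v : ℝ) - G.θ1) 0 / (c.σ * G.θ0)

/-- Weight of the buffer. -/
noncomputable def Srv.wt (c : Srv G) (s : State Pt) : ℝ := ∑ v ∈ s.P, c.wv s.T v

lemma Srv.one_le_wv (c : Srv G) (T : Finset (Finset Pt)) (v : Pt) : 1 ≤ c.wv T v := by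
  unfold Srv.wv
  have : 0 ≤ max ((deg T v : ℝ) - G.θ1) 0 / (c.σ * G.θ0) :=
    div_nonneg (le_max_right _ _) (mul_pos c.hσ G.hθ0).le
  linarith only [this]

lemma Srv.wv_of_low (c : Srv G) {T : Finset (Finset Pt)} {v : Pt} (h : (deg T v : ℝ) ≤ G.θ1) :
    c.wv T v = 1 := by
  unfold Srv.wv
  rw [max_eq_right (by linarith)]; simp

lemma Srv.card_le_wt (c : Srv G) (s : State Pt) : (s.P.card : ℝ) ≤ c.wt s := by
  unfold Srv.wt
  have := card_nsmul_le_sum s.P (fun v => c.wv s.T v) 1 fun v _ => c.one_le_wv s.T v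
  simpa using this

lemma Srv.wt_nonneg (c : Srv G) (s : State Pt) : 0 ≤ c.wt s :=
  (Nat.cast_nonneg _).trans (c.card_le_wt s)

lemma Srv.wt_rev (c : Srv G) (hdis : Disjoint s.P s.L)
    (hlow : ∀ v ∈ s.L, (deg s.T v : ℝ) ≤ G.θ1) {y : Pt} (hy : y ∈ s.L) :
    c.wt (s.rev G y) = c.wt s + 1 := by
  unfold Srv.wt
  simp only [State.rev]
  rw [sum_insert (fun h => disjoint_left.1 hdis h hy), c.wv_of_low (hlow y hy), add_comm]

lemma Srv.wt_rev_rev (c : Srv G) (hs : Struct G μ s) {y z : Pt} (hy : y ∈ s.L)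
    (hz : z ∈ s.L.erase y) : c.wt ((s.rev G y).rev G z) = c.wt s + 2 := by
  rw [c.wt_rev (s := s.rev G y) ?_ (fun v hv => hs.low v (mem_of_mem_erase hv)) hz,
    c.wt_rev hs.dis hs.low hy]
  · ring
  · simp only [State.rev, disjoint_insert_left, notMem_erase, not_false_eq_true, true_and]
    exact hs.dis.mono_right (erase_subset _ _)

lemma cov_P (hs : Struct G μ s) {v y z : Pt} (hy : y ∈ s.L) (hz : z ∈ s.L.erase y)
    (T' : Finset (Finset Pt)) :
    (((s.rev G y).rev G z).cov {v, y, z} T').P = s.P.erase v := by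
  ext x
  simp only [State.cov, State.rev, mem_sdiff, mem_insert, mem_singleton, mem_erase, not_or]
  constructor
  · rintro ⟨h | h | h, h1, h2, h3⟩
    · exact absurd h h3
    · exact absurd h h2
    · exact ⟨h1, h⟩
  · rintro ⟨h1, h2⟩
    have := disjoint_left.1 hs.dis h2
    exact ⟨Or.inr (Or.inr h2), h1, fun h => this (h ▸ hy),
      fun h => this (h ▸ mem_of_mem_erase hz)⟩

lemma Srv.wt_cov (c : Srv G) (hs : Struct G μ s) {v y z : Pt} (hv : v ∈ s.P) (hy : y ∈ s.L)
    (hz : z ∈ s.L.erase y) {T' : Finset (Finset Pt)} (hT : s.T ⊆ T')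
    (hc' : (T' \ s.T).card ≤ G.b1) (hval : ∀ f ∈ T', f ∉ s.T → Valid G.ty f) :
    c.wt (((s.rev G y).rev G z).cov {v, y, z} T') ≤ c.wt s - c.wv s.T v + 1 / 8 := by
  unfold Srv.wt
  rw [cov_P hs hy hz, ← add_sum_erase _ _ hv]
  have hpos := mul_pos c.hσ G.hθ0
  have a1 : ∀ x, c.wv T' x ≤ c.wv s.T x + (deg (T' \ s.T) x : ℝ) / (c.σ * G.θ0) := by
    clear * - Pt G c T' s hT hpos
    intro x
    unfold Srv.wv
    rw [deg_eq_add hT x, add_assoc, ← add_div]
    gcongr
    push_cast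
    have : (0 : ℝ) ≤ deg (T' \ s.T) x := Nat.cast_nonneg _
    rcases le_total ((deg s.T x : ℝ) - G.θ1) 0 with h | h
    · rw [max_eq_right h]; exact max_le (by linarith) (by linarith)
    · rw [max_eq_left h]; exact max_le (by linarith) (by linarith)
  have a2 : ∑ x ∈ s.P.erase v, (deg (T' \ s.T) x : ℝ) ≤ 3 * G.b1 := by
    have := sum_deg_le (T := T' \ s.T)
      (fun e he => (hval e (mem_sdiff.1 he).1 (mem_sdiff.1 he).2).card_eq) (s.P.erase v)
    have h2 : ∑ x ∈ s.P.erase v, deg (T' \ s.T) x ≤ 3 * G.b1 := by omega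
    exact_mod_cast h2
  have a3 : ∑ x ∈ s.P.erase v, (deg (T' \ s.T) x : ℝ) / (c.σ * G.θ0) ≤ 1 / 8 := by
    rw [← sum_div, div_le_iff₀ hpos]
    linarith only [a2, c.hc]
  have a4 := sum_le_sum (s := s.P.erase v) fun x _ => a1 x
  rw [sum_add_distrib] at a4
  simp only [State.cov]
  linarith only [a3, a4]

lemma Srv.test_ineq (c : Srv G) (hs : Struct G μ s) {v : Pt} (hv : v ∈ s.P) :
    ∃ p : ℝ, (deg s.T v : ℝ) ≤ (p - 6 * c.lam) * (2 * (c.ρ0 : ℝ) ^ 2) ∧
      ((deg s.T v : ℝ) ≤ G.θ1 → p = c.p0) ∧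
      ∀ f g : ℝ, 0 ≤ g → f ≤ p * (f + g) → 0 ≤ f + g →
        f * Real.exp (9 * c.σ / 4) + g * Real.exp (c.σ / 2 - c.σ * c.wv s.T v) ≤ f + g := by
  have hσ := c.hσ
  have key : ∀ p B : ℝ, p * Real.exp (9 * c.σ / 4) + (1 - p) * Real.exp B ≤ 1 →
      c.σ / 2 - c.σ * c.wv s.T v ≤ B → B ≤ 0 →
      ∀ f g : ℝ, 0 ≤ g → f ≤ p * (f + g) → 0 ≤ f + g →
        f * Real.exp (9 * c.σ / 4) + g * Real.exp (c.σ / 2 - c.σ * c.wv s.T v) ≤ f + g := by
    clear * - Pt G c s v hσ
    intro p B h1 h2 h3 f g hg hf hfg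
    have e1 := Real.exp_le_exp.2 h2
    have e2 : Real.exp B ≤ Real.exp (9 * c.σ / 4) := Real.exp_le_exp.2 (by linarith only [hσ, h3])
    linarith only [e1, hg, h1, hfg, hf, e2, mul_le_mul_of_nonneg_left e1 hg, mul_le_mul_of_nonneg_left h1 hfg,
      mul_le_mul_of_nonneg_right hf (sub_nonneg.2 e2)]
  by_cases hd : (deg s.T v : ℝ) ≤ G.θ0 + G.θ1
  · refine ⟨c.p0, hd.trans c.hd0, fun _ => rfl, key _ _ c.hlow ?_ (by linarith only [hσ])⟩
    linarith only [hσ, c.one_le_wv s.T v, mul_nonneg_of_nonpos_of_nonpos (le_of_lt (Mathlib.Tactic.Linarith.sub_neg_of_lt hσ)) (Mathlib.Tactic.Linarith.sub_nonpos_of_le (one_le_wv c s.T v))]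
  · push Not at hd
    refine ⟨c.p1, (hs.box.deg_le G.hi0 (mem_union_left _ hv)).trans c.hd1,
      fun h => absurd h (by linarith [G.hθ0]), key _ _ c.hhigh ?_ (by linarith)⟩
    unfold Srv.wv
    rw [max_eq_left (by linarith [G.hθ0])]
    have hθ := G.hθ0
    have : 1 ≤ c.σ * (((deg s.T v : ℝ) - G.θ1) / (c.σ * G.θ0)) := by
      rw [← mul_div_assoc, le_div_iff₀ (mul_pos hσ hθ)]
      linarith only [hσ, hd, mul_pos_of_neg_of_neg (Mathlib.Tactic.Linarith.sub_neg_of_lt hσ) (Mathlib.Tactic.Linarith.sub_neg_of_lt hd)]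
    linarith only [hσ, this]

lemma Struct.supply (hs : Struct G μ s) {v : Pt} (hv : v ∈ s.P)
    (h : s.P.card + 1 ≤ s.u ∨ s.P.card ≤ 1) :
    1 ≤ s.h true ∧ 1 ≤ dec s.h true (!G.ty v) := by
  have a1 := hs.cnt true
  have a2 := hs.cnt false
  have a3 := card_sec_add G.ty s.P
  have a4 : 1 ≤ (sec G.ty s.P (G.ty v)).card := card_pos.2 ⟨v, by simp [hv]⟩
  simp only [mult_true, mult_false] at a1 a2
  unfold dec
  cases hty : G.ty v <;> rw [hty] at a4 <;> simp <;> omega

lemma sum_pairs_card (hs : Struct G μ s) (τ : Bool) :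
    ∑ y ∈ sec G.ty s.L true, ∑ z ∈ sec G.ty (s.L.erase y) τ,
      ((((s.rev G y).rev G z).fam.card : ℕ) : ℝ)
      = (s.h true : ℝ) * dec s.h true τ * s.fam.card := by
  have a1 : ∀ y ∈ sec G.ty s.L true, ∑ z ∈ sec G.ty (s.L.erase y) τ,
      ((((s.rev G y).rev G z).fam.card : ℕ) : ℝ)
      = (dec s.h true τ : ℝ) * (s.fam.filter (fun H => y ∈ H)).card := by
    intro y hy
    rw [mem_sec] at hy
    have := sum_card_filter_mem (fun H hH => wf1_rev G hs.wf1 hy.1 H hH τ)
    rw [hy.2] at this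
    exact this
  rw [sum_congr rfl a1, ← mul_sum, sum_card_filter_mem (fun H hH => hs.wf1 H hH true)]
  ring

lemma Struct.sec_ge (G : Game Pt) (L : Finset Pt) {r : ℕ} (h : 3 * G.m ≤ L.card + r) (τ : Bool) :
    mult τ * G.m ≤ (sec G.ty L τ).card + r := by
  have a1 := card_sec_add G.ty L
  have a2 : ∀ σ, (sec G.ty L σ).card ≤ mult σ * G.m := fun σ => by
    rw [← G.hty σ]; exact card_le_card (filter_subset_filter _ (subset_univ _))
  have a3 := a2 true
  have a4 := a2 false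
  cases τ <;> simp only [mult_true, mult_false] at * <;> omega

lemma Game.sec_le (G : Game Pt) (L : Finset Pt) (τ : Bool) :
    (sec G.ty L τ).card ≤ mult τ * G.m := by
  rw [← G.hty τ]; exact card_le_card (filter_subset_filter _ (subset_univ _))

end Pool.Agent.Work.MP_6aef45_co
end

-- merged part: Pool.Agent.Work.MP_6aef45_co.PhaseA
section
namespace Pool.Agent.Work.MP_6aef45_co
open Finset

variable {Pt : Type} [DecidableEq Pt] [Fintype Pt]

/-- Number of candidates for the hidden set. -/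
def NN (G : Game Pt) (L : Finset Pt) (h : Bool → ℕ) : ℝ :=
  ((sec G.ty L true).card.choose (h true) : ℝ) * ((sec G.ty L false).card.choose (h false) : ℝ)

variable {G : Game Pt} {μ : Bool → ℕ} {s : State Pt}

lemma NN_nonneg (G : Game Pt) (L : Finset Pt) (h : Bool → ℕ) : 0 ≤ NN G L h := by
  unfold NN; positivity

lemma choose_aux1 {l l' h : ℕ} (hl : l' + 1 = l) (hh : 1 ≤ h) :
    (l : ℝ) * (l'.choose (h - 1) : ℝ) = h * (l.choose h : ℝ) := by
  obtain ⟨k, rfl⟩ : ∃ k, h = k + 1 := ⟨h - 1, by omega⟩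
  subst hl
  have := Nat.add_one_mul_choose_eq l' k
  simp only [Nat.add_sub_cancel]
  have h2 : (((l' + 1) * l'.choose k : ℕ) : ℝ) = (((l' + 1).choose (k + 1) * (k + 1) : ℕ) : ℝ) := by
    rw [this]
  push_cast at h2 ⊢
  linarith only [h2]

lemma choose_aux2 {l l' h : ℕ} (hl : l' + 1 = l) (hh : 1 ≤ h) :
    (l'.choose (h - 1) : ℝ) + (l'.choose h : ℝ) = (l.choose h : ℝ) := by
  obtain ⟨k, rfl⟩ : ∃ k, h = k + 1 := ⟨h - 1, by omega⟩
  subst hl
  simp only [Nat.add_sub_cancel]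
  rw [Nat.choose_succ_succ']; push_cast; ring

lemma NN_rev (G : Game Pt) {L : Finset Pt} {h : Bool → ℕ} {y : Pt} (hy : y ∈ L)
    (hh : 1 ≤ h (G.ty y)) :
    ((sec G.ty L (G.ty y)).card : ℝ) * NN G (L.erase y) (dec h (G.ty y))
      = h (G.ty y) * NN G L h := by
  have a1 := card_sec_erase G hy true
  have a2 := card_sec_erase G hy false
  unfold NN dec
  cases hty : G.ty y <;> rw [hty] at a1 a2 hh <;> simp at a1 a2 ⊢
  · rw [a1]
    have := choose_aux1 a2 hh
    linear_combination ((sec G.ty L true).card.choose (h true) : ℝ) * this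
  · rw [a2]
    have := choose_aux1 a1 hh
    linear_combination ((sec G.ty L false).card.choose (h false) : ℝ) * this

lemma NN_query (G : Game Pt) {L : Finset Pt} {h : Bool → ℕ} {y : Pt} (hy : y ∈ L)
    (hh : 1 ≤ h (G.ty y)) :
    NN G (L.erase y) (dec h (G.ty y)) + NN G (L.erase y) h = NN G L h := by
  have a1 := card_sec_erase G hy true
  have a2 := card_sec_erase G hy false
  unfold NN dec
  cases hty : G.ty y <;> rw [hty] at a1 a2 hh <;> simp at a1 a2 ⊢
  · rw [a1]
    have := choose_aux2 a2 hh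
    linear_combination ((sec G.ty L true).card.choose (h true) : ℝ) * this
  · rw [a2]
    have := choose_aux2 a1 hh
    linear_combination ((sec G.ty L false).card.choose (h false) : ℝ) * this

lemma NN_out_le (G : Game Pt) (L : Finset Pt) (h : Bool → ℕ) (y : Pt) :
    NN G (L.erase y) h ≤ NN G L h := by
  unfold NN
  have a : ∀ τ, (((sec G.ty (L.erase y) τ).card.choose (h τ) : ℕ) : ℝ)
      ≤ ((sec G.ty L τ).card.choose (h τ) : ℕ) := fun τ => by
    exact_mod_cast Nat.choose_le_choose _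
      (card_le_card (filter_subset_filter _ (erase_subset _ _)))
  exact mul_le_mul (a true) (a false) (by positivity) (by positivity)

lemma Struct.card_le_NN (hs : Struct G μ s) : (s.fam.card : ℝ) ≤ NN G s.L s.h := by
  unfold NN
  rw [← card_powersetCard, ← card_powersetCard, ← Nat.cast_mul, ← card_product, Nat.cast_le]
  refine card_le_card_of_injOn (fun H => (sec G.ty s.L true ∩ H, sec G.ty s.L false ∩ H)) ?_ ?_
  · intro H hH
    simp only [mem_coe, mem_product, mem_powersetCard]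
    exact ⟨⟨inter_subset_left, hs.wf1 H hH true⟩, inter_subset_left, hs.wf1 H hH false⟩
  · intro H hH H' hH' he
    simp only [Prod.mk.injEq] at he
    have a := hs.wf2 H hH H' hH'
    ext x
    by_cases hx : x ∈ s.L
    · cases hty : G.ty x
      · have := congrArg (x ∈ ·) he.2
        simpa [hx, hty] using this
      · have := congrArg (x ∈ ·) he.1
        simpa [hx, hty] using this
    · have := congrArg (x ∈ ·) a
      simpa [hx] using this

/-- The data of the density potential. -/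
structure PA (G : Game Pt) (c : Srv G) where
  J : ℕ → ℝ
  Gf : ℕ → ℝ
  Bud : ℝ
  rem : ℕ
  hJ : ∀ k, J k ≤ J (k + 1) + c.σ / 16
  hG : ∀ u, Gf u ≤ Gf (u + 1) + c.σ / 4
  hsup : ∀ l u (x : ℝ), l ≤ 3 * G.m → u ≤ G.m → 0 ≤ x → c.σ * x + J l + Gf u < Bud →
    x + 1 ≤ u ∧ 3 * G.m ≤ l + rem
  hrem : c.ρ0 + rem + 1 ≤ G.m

variable {c : Srv G}

/-- The exponent of the density potential. -/
noncomputable def PA.pot (a : PA G c) (s : State Pt) : ℝ :=
  c.σ * c.wt s + a.J s.L.card + a.Gf s.u + 17 * c.σ / 16 * ((G.Y : ℝ) - s.nq G)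

/-- The invariant of the first two phases. -/
def PA.Inv (a : PA G c) (s : State Pt) : Prop :=
  NN G s.L s.h * Real.exp (a.pot s) < s.fam.card * Real.exp a.Bud

lemma PA.Inv.nonempty {a : PA G c} (h : a.Inv s) : s.fam.Nonempty := by
  rw [← card_pos]
  by_contra hc
  have : s.fam.card = 0 := by omega
  unfold PA.Inv at h
  rw [this] at h
  have := mul_nonneg (NN_nonneg G s.L s.h) (Real.exp_pos (a.pot s)).le
  simp at h; linarith only [this, h]

lemma PA.Inv.base {a : PA G c} (h : a.Inv s) (hs : Struct G μ s) :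
    c.σ * c.wt s + a.J s.L.card + a.Gf s.u < a.Bud := by
  have a1 : a.pot s < a.Bud := by
    by_contra hc
    push Not at hc
    have a2 := Real.exp_le_exp.2 hc
    have a3 := hs.card_le_NN
    unfold PA.Inv at h
    linarith only [h, a3, a2, mul_le_mul a3 a2 (Real.exp_pos _).le (NN_nonneg G s.L s.h)]
  have a4 : (s.nq G : ℝ) ≤ G.Y := by exact_mod_cast hs.nq_le
  unfold PA.pot at a1
  linarith only [a1, a4, c.hσ, mul_nonneg_of_nonpos_of_nonpos (Mathlib.Tactic.Linarith.sub_nonpos_of_le a4) (le_of_lt (Mathlib.Tactic.Linarith.sub_neg_of_lt c.hσ))]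

lemma PA.Inv.sup {a : PA G c} (h : a.Inv s) (hs : Struct G μ s) :
    c.wt s + 1 ≤ s.u ∧ 3 * G.m ≤ s.L.card + a.rem :=
  a.hsup _ _ _ (G.card_pt ▸ card_le_univ _) hs.um (c.wt_nonneg s) (h.base hs)

lemma PA.J_erase (a : PA G c) {L : Finset Pt} {y : Pt} (hy : y ∈ L) :
    a.J (L.erase y).card ≤ a.J L.card + c.σ / 16 := by
  rw [← card_erase_add_one hy]; exact a.hJ _

theorem PA.queryOK (a : PA G c) : QueryOK G μ a.Inv := by
  intro s hs hI v hv hd
  have hσ := c.hσ
  have p1 : a.pot (s.rev G v) ≤ a.pot s := by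
    unfold PA.pot
    rw [c.wt_rev hs.dis hs.low hv, nq_erase G (s := s) (s' := s.rev G v) rfl rfl hv hd]
    have := a.J_erase hv
    simp only [State.rev]
    push_cast
    linarith only [this]
  have p2 : a.pot (s.out v) ≤ a.pot s := by
    unfold PA.pot
    rw [nq_erase G (s := s) (s' := s.out v) rfl rfl hv hd]
    have := a.J_erase hv
    have e : c.wt (s.out v) = c.wt s := rfl
    rw [e]
    simp only [State.out]
    push_cast
    linarith only [hσ, this]
  have e1 := Real.exp_le_exp.2 p1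
  have e2 := Real.exp_le_exp.2 p2
  have hZ : ((s.rev G v).fam.card : ℝ) + (s.out v).fam.card = s.fam.card := by
    have := card_filter_add_card_filter_not (s := s.fam) (fun H => v ∈ H)
    exact_mod_cast this
  suffices h : a.Inv (s.rev G v) ∨ a.Inv (s.out v) from
    h.imp (fun h => ⟨h.nonempty, h⟩) (fun h => ⟨h.nonempty, h⟩)
  have n1 := NN_nonneg G (s.L.erase v) (dec s.h (G.ty v))
  have n2 := NN_nonneg G (s.L.erase v) s.h
  have m1 := mul_le_mul_of_nonneg_left e1 n1
  have m2 := mul_le_mul_of_nonneg_left e2 n2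
  unfold PA.Inv at hI ⊢
  by_cases hh : 1 ≤ s.h (G.ty v)
  · by_contra hcon
    push Not at hcon
    have q := NN_query G hv hh
    obtain ⟨h1, h2⟩ := hcon
    change _ ≤ NN G (s.L.erase v) (dec s.h (G.ty v)) * _ at h1
    change _ ≤ NN G (s.L.erase v) s.h * _ at h2
    rw [← q, ← hZ] at hI
    linarith only [hI, m1, m2, h1, h2]
  · right
    have : (s.rev G v).fam = ∅ := by
      by_contra hne
      exact hh (hs.one_le_h hv (nonempty_iff_ne_empty.2 hne))
    rw [this] at hZ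
    simp only [card_empty, Nat.cast_zero, zero_add] at hZ
    rw [hZ]
    have q := mul_le_mul_of_nonneg_right (NN_out_le G s.L s.h v) (Real.exp_pos (a.pot s)).le
    change NN G (s.L.erase v) s.h * _ < _
    linarith only [hI, m2, q]

lemma sizes_aux (G : Game Pt) (L : Finset Pt) {r ρ : ℕ} (h : 3 * G.m ≤ L.card + r)
    (hr : ρ + r + 1 ≤ G.m) (τ : Bool) :
    ∃ l2 : ℕ, l2 + (if τ = true then 1 else 0) = (sec G.ty L τ).card ∧ mult τ * ρ ≤ l2 := by
  have s2 := Struct.sec_ge G L h τ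
  refine ⟨(sec G.ty L τ).card - (if τ = true then 1 else 0), ?_, ?_⟩ <;>
  cases τ <;> simp at s2 ⊢ <;> omega

theorem PA.serveOK (a : PA G c) : ServeOK G μ a.Inv := by
  intro s hs hI _ v hv _
  have hσ := c.hσ
  obtain ⟨hsup, hrem⟩ := hI.sup hs
  have hPu : s.P.card + 1 ≤ s.u := by
    have := c.card_le_wt s
    have h2 : (s.P.card : ℝ) + 1 ≤ s.u := by linarith only [hsup, this]
    exact_mod_cast h2
  obtain ⟨hh1, hh2⟩ := hs.supply hv (Or.inl hPu)
  obtain ⟨p, hp1, -, hp2⟩ := c.test_ineq hs hv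
  set τ := !G.ty v with hτ
  set D1 := sec G.ty s.L true with hD1
  have hvL : v ∉ s.L := disjoint_left.1 hs.dis hv
  -- sizes
  have s1 := Struct.sec_ge G s.L hrem true
  have hr := a.hrem
  have hρ := c.hρ0
  obtain ⟨l2, hl2, hl2'⟩ := sizes_aux G s.L hrem hr τ
  have hl2y : ∀ y ∈ D1, (sec G.ty (s.L.erase y) τ).card = l2 := by
    intro y hy
    rw [mem_sec] at hy
    have := card_sec_erase G hy.1 τ
    rw [hy.2] at this
    omega
  have hl1 : 2 * c.ρ0 ≤ D1.card := by rw [mult_true, ← hD1] at s1; omega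
  have hl1p : (0 : ℝ) < D1.card := by
    have : 0 < D1.card := by omega
    exact_mod_cast this
  have hl2p : (0 : ℝ) < l2 := by
    clear * - l2 τ Pt G c hρ hl2'
    have : 0 < l2 := by have := one_le_mult τ; nlinarith only [hρ, hl2', this]
    exact_mod_cast this
  -- the number of candidates after two reveals
  set N2 : ℝ := s.h true * dec s.h true τ * NN G s.L s.h / (D1.card * l2) with hN2
  have hN : ∀ y ∈ D1, ∀ z ∈ sec G.ty (s.L.erase y) τ,
      NN G ((s.rev G y).rev G z).L ((s.rev G y).rev G z).h = N2 := by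
    clear * - Pt D1 G s τ hh1 hh2 N2 l2 hN2 hl1p hl2p hl2y
    intro y hy z hz
    have hy' := mem_sec.1 hy
    have hz' := mem_sec.1 hz
    have q1 := NN_rev G (h := s.h) hy'.1 (by rw [hy'.2]; exact hh1)
    have q2 := NN_rev G (h := dec s.h (G.ty y)) hz'.1 (by rw [hy'.2, hz'.2]; exact hh2)
    rw [hz'.2, hl2y y hy] at q2
    rw [hy'.2] at q1 q2
    simp only [State.rev]
    rw [hz'.2, hy'.2, hN2, eq_div_iff (by positivity)]
    linear_combination (D1.card : ℝ) * q2 + (dec s.h true τ : ℝ) * q1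
  have hN2n : 0 ≤ N2 := by
    clear * - Pt G s τ D1 l2 hh1 hh2 hl1p hl2p
    have := NN_nonneg G s.L s.h
    positivity
  -- the exponent
  set ψ : Pt → Pt → ℝ := fun y z =>
    if ({v, y, z} : Finset Pt) ∈ s.T then 9 * c.σ / 4 else c.σ / 2 - c.σ * c.wv s.T v with hψ
  have hsum : ∑ y ∈ D1, ∑ z ∈ sec G.ty (s.L.erase y) τ, Real.exp (ψ y z) ≤ D1.card * l2 := by
    clear * - Pt D1 G s τ v l2 hl2y μ hs hvL c hρ p hp1 hl1 hl2' hl1p hl2p hp2 ψ hψ
    set f : ℝ := ∑ y ∈ D1, ∑ z ∈ sec G.ty (s.L.erase y) τ, ind s.T {v, y, z} with hf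
    set g : ℝ := ∑ y ∈ D1, ∑ z ∈ sec G.ty (s.L.erase y) τ, (1 - ind s.T {v, y, z}) with hg
    have hfg : f + g = D1.card * l2 := by
      rw [hf, hg, ← sum_add_distrib]
      rw [sum_congr rfl (g := fun _ => (l2 : ℝ))]
      · simp
      · intro y hy
        rw [← sum_add_distrib, ← hl2y y hy]; simp
    have hg0 : 0 ≤ g := sum_nonneg fun y _ => sum_nonneg fun z _ => by
      linarith only [ind_le_one s.T {v, y, z}]
    have hf1 : f ≤ (mult τ : ℝ) * deg s.T v := by
      have := link_le hs.val v D1 (sec G.ty s.L τ) (fun y hy => (mem_sec.1 hy).2)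
        (fun h => hvL (mem_sec.1 h).1) (fun h => hvL (mem_sec.1 h).1)
      simpa only [← sec_erase] using this
    have hρp : (0 : ℝ) < c.ρ0 := by exact_mod_cast hρ
    have hp0 : 0 ≤ p - 6 * c.lam := by
      by_contra hc
      push Not at hc
      have : (p - 6 * c.lam) * (2 * (c.ρ0 : ℝ) ^ 2) < 0 := mul_neg_of_neg_of_pos hc (by positivity)
      have : (0 : ℝ) ≤ deg s.T v := Nat.cast_nonneg _
      linarith
    have hf2 : f ≤ p * (f + g) := by
      rw [hfg]
      have b1 : (2 * c.ρ0 : ℝ) ≤ D1.card := by exact_mod_cast hl1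
      have b2 : (mult τ * c.ρ0 : ℝ) ≤ l2 := by exact_mod_cast hl2'
      have b3 : (0 : ℝ) ≤ mult τ := Nat.cast_nonneg _
      have b4 : (2 * c.ρ0 : ℝ) * (mult τ * c.ρ0) ≤ D1.card * l2 :=
        mul_le_mul b1 b2 (by positivity) hl1p.le
      have b5 := c.hlam
      linarith only [hf1, hp1, b3, b4, hp0, b5, hl1p, hl2p, mul_le_mul_of_nonneg_left hp1 b3, mul_le_mul_of_nonneg_left b4 hp0,
        mul_pos hl1p hl2p, mul_pos_of_neg_of_neg (Mathlib.Tactic.Linarith.sub_neg_of_lt b5) (Mathlib.Tactic.Linarith.sub_neg_of_lt (mul_pos hl1p hl2p))]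
    have := hp2 f g hg0 hf2 (by rw [hfg]; positivity)
    rw [hfg, hf, hg, sum_mul, sum_mul, ← sum_add_distrib] at this
    refine le_trans (le_of_eq (sum_congr rfl fun y _ => ?_)) this
    rw [sum_mul, sum_mul, ← sum_add_distrib]
    refine sum_congr rfl fun z _ => ?_
    simp only [hψ, ind]
    split_ifs <;> simp
  -- selection
  obtain ⟨y, hy, z, hz, hsel⟩ : ∃ y ∈ D1, ∃ z ∈ sec G.ty (s.L.erase y) τ,
      N2 * Real.exp (a.pot s + ψ y z) < ((s.rev G y).rev G z).fam.card * Real.exp a.Bud := by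
    clear * - Pt D1 G s τ N2 c a ψ l2 hsum hN2n hN2 hl1p hl2p hh2 hh1 hI μ hs
    by_contra hcon
    push Not at hcon
    have b1 := sum_le_sum (s := D1) fun y hy => sum_le_sum fun z hz => hcon y hy z hz
    simp_rw [← sum_mul, Real.exp_add, ← mul_assoc, ← mul_sum] at b1
    rw [sum_pairs_card hs τ] at b1
    have b2 := mul_le_mul_of_nonneg_left hsum
      (mul_nonneg hN2n (Real.exp_pos (a.pot s)).le)
    have b3 : N2 * Real.exp (a.pot s) * (D1.card * l2)
        = s.h true * dec s.h true τ * (NN G s.L s.h * Real.exp (a.pot s)) := by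
      rw [hN2]; field_simp
    have b4 : (0 : ℝ) < s.h true * dec s.h true τ := by
      have : 0 < s.h true * dec s.h true τ := Nat.mul_pos hh1 hh2
      exact_mod_cast this
    have b5 := mul_lt_mul_of_pos_left hI b4
    linarith only [b1, b2, b3, b5]
  have hy' := mem_sec.1 hy
  have hz' := mem_sec.1 hz
  have hJ : a.J ((s.L.erase y).erase z).card ≤ a.J s.L.card + c.σ / 8 := by
    clear * - Pt G c a s y hy' z τ hz'
    have := a.J_erase hy'.1
    have := a.J_erase hz'.1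
    linarith
  have hsub : (s.L.erase y).erase z ⊆ s.L := (erase_subset _ _).trans (erase_subset _ _)
  have hfin : ∀ s' : State Pt, s'.L = ((s.rev G y).rev G z).L → s'.h = ((s.rev G y).rev G z).h →
      s'.fam = ((s.rev G y).rev G z).fam → a.pot s' ≤ a.pot s + ψ y z → a.Inv s' := by
    intro s' e1 e2 e3 e4
    unfold PA.Inv
    rw [e1, e2, e3, hN y hy z hz]
    exact lt_of_le_of_lt (mul_le_mul_of_nonneg_left (Real.exp_le_exp.2 e4) hN2n) hsel
  refine ⟨y, hy'.1, z, hz'.1, hy'.2, hz'.2, ?_, ?_, ?_⟩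
  · rw [← card_pos]
    by_contra hc
    have : ((s.rev G y).rev G z).fam.card = 0 := by omega
    rw [this] at hsel
    have := mul_nonneg hN2n (Real.exp_pos (a.pot s + ψ y z)).le
    simp at hsel; linarith only [this, hsel]
  · intro hT
    refine hfin _ rfl rfl rfl ?_
    have b1 : (s.nq G : ℝ) ≤ ((s.rev G y).rev G z).nq G := by
      exact_mod_cast nq_le_of G (s := s) (s' := (s.rev G y).rev G z) (subset_refl _) hsub
    unfold PA.pot
    rw [c.wt_rev_rev hs hy'.1 hz'.1]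
    simp only [hψ, if_pos hT]
    change _ + a.J ((s.L.erase y).erase z).card + a.Gf s.u + _ ≤ _
    clear * - Pt G c s a y z hσ hJ b1
    linarith only [hσ, hJ, b1, mul_nonneg_of_nonpos_of_nonpos (le_of_lt (Mathlib.Tactic.Linarith.sub_neg_of_lt hσ)) (Mathlib.Tactic.Linarith.sub_nonpos_of_le b1)]
  · intro hT T' hT1 hT2 hT3
    refine hfin _ rfl rfl rfl ?_
    have b1 : (s.nq G : ℝ) ≤ (((s.rev G y).rev G z).cov {v, y, z} T').nq G := by
      exact_mod_cast nq_le_of G (s := s) (s' := ((s.rev G y).rev G z).cov {v, y, z} T') hT1 hsub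
    have b2 := c.wt_cov hs hv hy'.1 hz'.1 hT1 hT2 hT3
    have b3 := a.hG (s.u - 1)
    rw [Nat.sub_add_cancel (by omega)] at b3
    unfold PA.pot
    simp only [hψ, if_neg hT]
    change _ + a.J ((s.L.erase y).erase z).card + a.Gf (s.u - 1) + _ ≤ _
    clear * - Pt G c s y z v T' a hJ b3 hσ b1 b2
    linarith only [hJ, b3, hσ, b1, b2, mul_nonneg_of_nonpos_of_nonpos (le_of_lt (Mathlib.Tactic.Linarith.sub_neg_of_lt hσ)) (Mathlib.Tactic.Linarith.sub_nonpos_of_le b1), mul_nonneg_of_nonpos_of_nonpos (le_of_lt (Mathlib.Tactic.Linarith.sub_neg_of_lt hσ)) (Mathlib.Tactic.Linarith.sub_nonpos_of_le b2)]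

theorem PA.revealOne (a : PA G c) (hs : Struct G μ s) (hI : a.Inv s) (hP : s.P = ∅)
    (hJ : ∀ k, k + 1 = s.L.card → a.J k ≤ a.J s.L.card - c.σ) :
    ∃ y ∈ s.L, (s.rev G y).fam.Nonempty ∧ a.Inv (s.rev G y) := by
  have hσ := c.hσ
  obtain ⟨hsup, hrem⟩ := hI.sup hs
  have hu : 1 ≤ s.u := by
    have := c.wt_nonneg s
    have h2 : (1 : ℝ) ≤ s.u := by linarith only [hsup, this]
    exact_mod_cast h2
  have hh : 1 ≤ s.h false := by
    have := hs.cnt false
    rw [hP] at this; simp [sec] at this; omega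
  set D := sec G.ty s.L false with hD
  have hpot : ∀ y ∈ D, a.pot (s.rev G y) ≤ a.pot s := by
    clear * - Pt D s G c a hJ μ hs hσ
    intro y hy
    have hy' := mem_sec.1 hy
    have b1 : (s.nq G : ℝ) ≤ (s.rev G y).nq G := by
      exact_mod_cast nq_le_of G (s := s) (s' := s.rev G y) (subset_refl _) (erase_subset _ _)
    have b2 := hJ _ (card_erase_add_one hy'.1)
    unfold PA.pot
    rw [c.wt_rev hs.dis hs.low hy'.1]
    change _ + a.J (s.L.erase y).card + a.Gf s.u + _ ≤ _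
    linarith only [b2, hσ, b1, mul_nonneg_of_nonpos_of_nonpos (le_of_lt (Mathlib.Tactic.Linarith.sub_neg_of_lt hσ)) (Mathlib.Tactic.Linarith.sub_nonpos_of_le b1)]
  suffices h : ∃ y ∈ D, a.Inv (s.rev G y) by
    obtain ⟨y, hy, h⟩ := h
    exact ⟨y, (mem_sec.1 hy).1, h.nonempty, h⟩
  by_contra hcon
  push Not at hcon
  have hDp : (0 : ℝ) < D.card := by
    have s1 := Struct.sec_ge G s.L hrem false
    have := a.hrem
    have : 0 < D.card := by rw [mult_false, ← hD] at s1; omega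
    exact_mod_cast this
  have b1 : ∀ y ∈ D, ((s.fam.filter (fun H => y ∈ H)).card : ℝ) * Real.exp a.Bud
      ≤ s.h false * NN G s.L s.h / D.card * Real.exp (a.pot s) := by
    intro y hy
    have hy' := mem_sec.1 hy
    have q := NN_rev G (h := s.h) hy'.1 (by rw [hy'.2]; exact hh)
    have q2 := hcon y hy
    unfold PA.Inv at q2
    push Not at q2
    rw [hy'.2] at q
    have q3 : NN G (s.rev G y).L (s.rev G y).h = s.h false * NN G s.L s.h / D.card := by
      simp only [State.rev]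
      rw [hy'.2, eq_div_iff hDp.ne']
      linarith only [q]
    rw [q3] at q2
    refine q2.trans (mul_le_mul_of_nonneg_left (Real.exp_le_exp.2 (hpot y hy)) ?_)
    rw [← q3]; exact NN_nonneg _ _ _
  have b2 := sum_le_sum b1
  rw [← sum_mul, sum_card_filter_mem (fun H hH => hs.wf1 H hH false), sum_const,
    nsmul_eq_mul] at b2
  have b3 : (D.card : ℝ) * (s.h false * NN G s.L s.h / D.card * Real.exp (a.pot s))
      = s.h false * (NN G s.L s.h * Real.exp (a.pot s)) := by clear * - Pt D s G c a hDp hh; field_simp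
  have b4 : (0 : ℝ) < s.h false := by exact_mod_cast hh
  have b5 := mul_lt_mul_of_pos_left hI b4
  clear * - Pt s G c a D b2 b3 b5
  linarith only [b2, b3, b5]

end Pool.Agent.Work.MP_6aef45_co
end

-- merged part: Pool.Agent.Work.MP_6aef45_co.Lambda
section
namespace Pool.Agent.Work.MP_6aef45_co
open Finset

variable {Pt : Type} [DecidableEq Pt] [Fintype Pt] {G : Game Pt}

/-- Mass weighted escape potential of type `τ`. -/
noncomputable def zL (G : Game Pt) (ρ0 : ℕ) (L : Finset Pt) (F : Finset (Finset Pt))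
    (h : Bool → ℕ) (q : Bool → ℝ) (τ : Bool) : ℝ :=
  (q τ * F.card + esc (sec G.ty L τ) F / (mult τ * ρ0)) / (h τ + q τ)

/-- Update of the virtual excess at a random reveal. -/
noncomputable def qrev (h : Bool → ℕ) (q : Bool → ℝ) (σ : Bool) : Bool → ℝ :=
  fun τ => if τ = σ then q τ * (h τ - 1) / h τ else q τ

/-- Update of the virtual excess at a positive query. -/
def qin (q : Bool → ℝ) (σ : Bool) : Bool → ℝ := fun τ => if τ = σ then q τ + 1 else q τ

lemma zL_nonneg (G : Game Pt) (ρ0 : ℕ) (L : Finset Pt) (F : Finset (Finset Pt))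
    (h : Bool → ℕ) {q : Bool → ℝ} (hq : ∀ τ, 0 ≤ q τ) (τ : Bool) : 0 ≤ zL G ρ0 L F h q τ := by
  unfold zL
  have := hq τ
  have := esc_nonneg (sec G.ty L τ) F
  positivity

lemma line_card {L : Finset Pt} {F : Finset (Finset Pt)} {h : Bool → ℕ}
    (wf1 : ∀ H ∈ F, ∀ τ, (sec G.ty L τ ∩ H).card = h τ) (τ σ : Bool) (R : Finset Pt)
    (hR : kk (sec G.ty L τ) F R ≠ 0) : (sec G.ty L σ ∩ R).card = dec h τ σ := by
  obtain ⟨x, hx, hxR, hxF⟩ := exists_of_kk_ne_zero hR
  have a := wf1 _ hxF σ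
  rw [mem_sec] at hx
  unfold dec
  split_ifs with hσ
  · rw [card_inter_insert_of_mem (mem_sec.2 ⟨hx.1, hσ ▸ hx.2⟩) hxR] at a
    omega
  · rw [card_inter_insert_of_notMem (fun hh => hσ ((mem_sec.1 hh).2.symm.trans hx.2))] at a
    exact a

lemma sum_esc_rev' {L : Finset Pt} {F : Finset (Finset Pt)} {h : Bool → ℕ}
    (wf1 : ∀ H ∈ F, ∀ τ, (sec G.ty L τ ∩ H).card = h τ) (τ σ : Bool) :
    ∑ y ∈ sec G.ty L σ, esc (sec G.ty (L.erase y) τ) (F.filter (fun H => y ∈ H))
      = dec h τ σ * esc (sec G.ty L τ) F := by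
  simp_rw [sec_erase]
  exact sum_esc_rev _ _ _ _ (line_card wf1 τ σ)

lemma sum_zL_rev (ρ0 : ℕ) {L : Finset Pt} {F : Finset (Finset Pt)} {h : Bool → ℕ}
    (wf1 : ∀ H ∈ F, ∀ τ, (sec G.ty L τ ∩ H).card = h τ) {q : Bool → ℝ} (hq : ∀ τ, 0 ≤ q τ)
    {σ : Bool} (hσ : 1 ≤ h σ) (τ : Bool) :
    ∑ y ∈ sec G.ty L σ, zL G ρ0 (L.erase y) (F.filter (fun H => y ∈ H)) (dec h σ) (qrev h q σ) τ
      ≤ h σ * zL G ρ0 L F h q τ := by
  have hz := zL_nonneg G ρ0 L F h hq τ
  unfold zL at hz ⊢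
  rw [← sum_div, sum_add_distrib, ← mul_sum, ← sum_div, sum_esc_rev' wf1,
    sum_card_filter_mem (fun H hH => wf1 H hH σ)]
  unfold qrev dec
  by_cases hτ : τ = σ
  · subst hτ
    simp only [if_true]
    rw [Nat.cast_sub hσ, Nat.cast_one]
    rcases hσ.eq_or_lt with h1 | h1
    · rw [← h1] at hz ⊢
      simpa using hz
    · have a1 : (1 : ℝ) < h τ := by exact_mod_cast h1
      have a2 := hq τ
      apply le_of_eq
      have a3 : (h τ : ℝ) - 1 + q τ * (h τ - 1) / h τ = (h τ - 1) * (h τ + q τ) / h τ := by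
        field_simp
      rw [a3]
      have a4 : (h τ : ℝ) - 1 ≠ 0 := by linarith only [a1]
      field_simp
  · rw [if_neg hτ, if_neg hτ, if_neg (fun hh => hτ hh.symm)]
    apply le_of_eq
    ring

lemma qrev_bound {h : Bool → ℕ} {q : Bool → ℝ} {t : ℝ} (hq : ∀ τ, 0 ≤ q τ)
    (hq' : ∀ τ, q τ ≤ t * h τ) {σ : Bool} (hσ : 1 ≤ h σ) :
    (∀ τ, 0 ≤ qrev h q σ τ) ∧ (∀ τ, qrev h q σ τ ≤ t * dec h σ τ) ∧
      q true + q false - t ≤ qrev h q σ true + qrev h q σ false := by
  have a1 : (1 : ℝ) ≤ h σ := by exact_mod_cast hσ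
  have a2 := hq σ
  have a3 := hq' σ
  have a4 : q σ - t ≤ q σ * (h σ - 1) / h σ := by
    rw [le_div_iff₀ (by linarith only [a1])]; linarith only [a3]
  refine ⟨fun τ => ?_, fun τ => ?_, ?_⟩
  · unfold qrev
    split_ifs with hτ
    · subst hτ; exact div_nonneg (mul_nonneg a2 (by linarith only [a1])) (by linarith only [a1])
    · exact hq τ
  · unfold qrev dec
    split_ifs with hτ
    · subst hτ
      rw [Nat.cast_sub hσ, Nat.cast_one, div_le_iff₀ (by linarith only [a1])]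
      linarith only [a1, a3, mul_nonneg_of_nonpos_of_nonpos (Mathlib.Tactic.Linarith.sub_nonpos_of_le a1) (Mathlib.Tactic.Linarith.sub_nonpos_of_le a3)]
    · exact hq' τ
  · unfold qrev
    cases σ <;> simp <;> linarith only [a4]

lemma zL_query {ρ0 : ℕ} (hρ : 1 ≤ ρ0) {L : Finset Pt} {F : Finset (Finset Pt)} {h : Bool → ℕ}
    (wf1 : ∀ H ∈ F, ∀ τ, (sec G.ty L τ ∩ H).card = h τ) {q : Bool → ℝ} (hq : ∀ τ, 0 ≤ q τ)
    {v : Pt} (hv : v ∈ L) (τ : Bool) (hr : mult τ * ρ0 + h τ ≤ (sec G.ty L τ).card) :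
    zL G ρ0 (L.erase v) (F.filter (fun H => v ∈ H)) (dec h (G.ty v)) (qin q (G.ty v)) τ
      + zL G ρ0 (L.erase v) (F.filter (fun H => v ∉ H)) h q τ
      ≤ zL G ρ0 L F h q τ + if τ = G.ty v then (F.card : ℝ) / ρ0 else 0 := by
  have hZ : ((F.filter (fun H => v ∈ H)).card : ℝ) + (F.filter (fun H => v ∉ H)).card
      = F.card := by
    exact_mod_cast card_filter_add_card_filter_not (s := F) (fun H => v ∈ H)
  unfold zL dec qin
  simp only [sec_erase]
  split_ifs with hτ
  · have hvD : v ∈ sec G.ty L τ := mem_sec.2 ⟨hv, hτ.symm⟩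
    have a1 := esc_query_same _ F hvD (fun H hH => wf1 H hH τ)
    have hr' : (mult τ : ℝ) * ρ0 + h τ ≤ (sec G.ty L τ).card := by exact_mod_cast hr
    have m1 : (1 : ℝ) ≤ mult τ := by exact_mod_cast one_le_mult τ
    have m2 : (1 : ℝ) ≤ ρ0 := by exact_mod_cast hρ
    have m3 : (0 : ℝ) < mult τ * ρ0 := by positivity
    set Zi : ℝ := ((F.filter (fun H => v ∈ H)).card : ℝ) with hZi
    set Zo : ℝ := ((F.filter (fun H => v ∉ H)).card : ℝ) with hZo
    have Zi0 : 0 ≤ Zi := Nat.cast_nonneg _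
    have Zo0 : 0 ≤ Zo := Nat.cast_nonneg _
    have h0 : (0 : ℝ) ≤ h τ := Nat.cast_nonneg _
    set Ei := esc ((sec G.ty L τ).erase v) (F.filter (fun H => v ∈ H)) with hEi
    set Eo := esc ((sec G.ty L τ).erase v) (F.filter (fun H => v ∉ H)) with hEo
    have a2 : ((q τ + 1) * Zi + Ei / (mult τ * ρ0)) / (((h τ - 1 : ℕ) : ℝ) + (q τ + 1))
        = ((q τ + 1) * Zi + Ei / (mult τ * ρ0)) / (h τ + q τ) := by
      clear * - h τ q Zi Ei ρ0 Pt v F G L wf1 hvD hZi hEi
      rcases Nat.eq_zero_or_pos (h τ) with h1 | h1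
      · have : F.filter (fun H => v ∈ H) = ∅ := by
          rw [filter_eq_empty_iff]
          intro H hH hvH
          have := wf1 H hH τ
          rw [h1, card_eq_zero] at this
          exact notMem_empty v (this ▸ mem_inter.2 ⟨hvD, hvH⟩)
        have b1 : Zi = 0 := by rw [hZi, this]; simp
        have b2 : Ei = 0 := by rw [hEi, this]; simp [esc, kk, up, ind]
        rw [b1, b2]; simp
      · rw [Nat.cast_sub h1]; congr 1; push_cast; ring
    rw [a2, ← add_div]
    have a3 : (q τ + 1) * Zi + Ei / (mult τ * ρ0) + (q τ * Zo + Eo / (mult τ * ρ0))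
        ≤ q τ * F.card + esc (sec G.ty L τ) F / (mult τ * ρ0) + h τ * (F.card / ρ0) := by
      have b1 : Zi + Ei / (mult τ * ρ0) + Eo / (mult τ * ρ0)
          ≤ esc (sec G.ty L τ) F / (mult τ * ρ0) + h τ * Zo / (mult τ * ρ0) := by
        rw [add_assoc, ← add_div, ← add_div, ← sub_nonneg, ← sub_sub, sub_right_comm, ← sub_div,
          sub_nonneg, le_div_iff₀ m3]
        linarith only [a1, hr', mul_nonneg_of_nonpos_of_nonpos (Mathlib.Tactic.Linarith.sub_nonpos_of_le (Mathlib.Tactic.Linarith.natCast_nonneg ℝ #({H ∈ F | v ∈ H}))) (Mathlib.Tactic.Linarith.sub_nonpos_of_le hr')]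
      have b2 : h τ * Zo / (mult τ * ρ0) ≤ h τ * (F.card / ρ0) := by
        rw [mul_div_assoc]
        refine mul_le_mul_of_nonneg_left ?_ h0
        exact div_le_div₀ (by linarith) (by linarith) (by linarith) (by nlinarith only [m1])
      rw [← hZ] at b2 ⊢
      linarith only [b1, b2]
    have a4 := hq τ
    have a5 : h τ * (F.card / ρ0) / (h τ + q τ) ≤ (F.card : ℝ) / ρ0 := by
      clear * - Pt F ρ0 hρ h τ q h0 a4
      have b1 : (0 : ℝ) ≤ F.card / ρ0 := by positivity
      rcases (add_nonneg h0 a4).eq_or_lt with b2 | b2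
      · rw [← b2]; simpa using b1
      · rw [div_le_iff₀ b2]; linarith only [a4, b1, mul_nonneg_of_nonpos_of_nonpos (Mathlib.Tactic.Linarith.sub_nonpos_of_le a4) (Mathlib.Tactic.Linarith.sub_nonpos_of_le b1)]
    refine (div_le_div_of_nonneg_right a3 (add_nonneg h0 a4)).trans ?_
    rw [add_div]
    clear * - q τ Pt F G L ρ0 h a5
    linarith only [a5]
  · have hvD : v ∉ sec G.ty L τ := fun hh => hτ (mem_sec.1 hh).2.symm
    rw [← esc_query_other _ F hvD, ← hZ]
    apply le_of_eq; ring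

lemma bound_of_lt {ρ0 : ℕ} (hρ : 1 ≤ ρ0) {L : Finset Pt} {F : Finset (Finset Pt)} {h : Bool → ℕ}
    {q : Bool → ℝ} (hq : ∀ τ, 0 ≤ q τ) {lam A : ℝ} (hl : 0 < lam) (hl2 : lam ≤ 1 / 2)
    (hA : 0 ≤ A)
    (hW : (zL G ρ0 L F h q true + zL G ρ0 L F h q false) / lam + F.card * A < F.card) :
    F.Nonempty ∧ A < 1 ∧ ∀ τ, q τ ≤ 2 * lam * h τ ∧
      (1 ≤ h τ → esc (sec G.ty L τ) F ≤ 2 * lam * h τ * (mult τ * ρ0) * F.card) := by
  have z1 := zL_nonneg G ρ0 L F h hq true
  have z2 := zL_nonneg G ρ0 L F h hq false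
  have z3 : 0 ≤ (zL G ρ0 L F h q true + zL G ρ0 L F h q false) / lam := by positivity
  have Z0 : (0 : ℝ) ≤ F.card := Nat.cast_nonneg _
  have z4 := mul_nonneg Z0 hA
  have Zp : (0 : ℝ) < F.card := by linarith only [hW, z3, z4]
  refine ⟨card_pos.1 (by exact_mod_cast Zp), by clear * - A Pt G ρ0 L F h q lam hW z3 Zp; (refine lt_of_not_ge fun h_nl => ?_; linarith only [h_nl, hW, z3, mul_nonneg_of_nonpos_of_nonpos (Mathlib.Tactic.Linarith.sub_nonpos_of_le (Mathlib.Tactic.Linarith.natCast_nonneg ℝ #F)) (Mathlib.Tactic.Linarith.sub_nonpos_of_le h_nl)]), fun τ => ?_⟩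
  have z5 : zL G ρ0 L F h q τ < lam * F.card := by
    clear * - Pt G ρ0 L F h q lam A hW z4 τ z1 hl z2
    have : (zL G ρ0 L F h q true + zL G ρ0 L F h q false) / lam < F.card := by linarith only [hW, z4]
    rw [div_lt_iff₀ hl] at this
    cases τ <;> linarith only [z1, this, z2]
  have a1 := hq τ
  have h0 : (0 : ℝ) ≤ h τ := Nat.cast_nonneg _
  have m1 : (1 : ℝ) ≤ mult τ := by exact_mod_cast one_le_mult τ
  have m2 : (1 : ℝ) ≤ ρ0 := by exact_mod_cast hρ
  have m3 : (0 : ℝ) < mult τ * ρ0 := by positivity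
  have e0 := esc_nonneg (sec G.ty L τ) F
  have e1 : 0 ≤ esc (sec G.ty L τ) F / (mult τ * ρ0) := by positivity
  rcases (add_nonneg h0 a1).eq_or_lt with b2 | b2
  · refine ⟨by clear * - q τ lam h b2 hl; nlinarith, fun h1 => ?_⟩
    have : (1 : ℝ) ≤ h τ := by exact_mod_cast h1
    linarith only [hl, hl2, a1, b2, this]
  · unfold zL at z5
    rw [div_lt_iff₀ b2] at z5
    have c1 : q τ < lam * (h τ + q τ) := by
      clear * - Pt F q τ lam h G L ρ0 z5 e1 Z0
      refine lt_of_mul_lt_mul_right ?_ Z0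
      linarith only [z5, e1]
    have c2 : q τ ≤ 2 * lam * h τ := by clear * - q τ lam h c1 hl2 a1; linarith only [c1, hl2, a1, mul_nonneg_of_nonpos_of_nonpos (Mathlib.Tactic.Linarith.sub_nonpos_of_le hl2) (Mathlib.Tactic.Linarith.sub_nonpos_of_le a1)]
    refine ⟨c2, fun _ => ?_⟩
    have c3 : q τ ≤ h τ := by clear * - q τ h lam c2 hl2; linarith only [c2, hl2, mul_nonneg_of_nonpos_of_nonpos (Mathlib.Tactic.Linarith.sub_nonpos_of_le (Mathlib.Tactic.Linarith.natCast_nonneg ℝ (h τ))) (Mathlib.Tactic.Linarith.sub_nonpos_of_le hl2)]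
    have c4 : esc (sec G.ty L τ) F / (mult τ * ρ0) ≤ 2 * lam * h τ * F.card := by
      clear * - Pt G L τ F ρ0 lam h q z5 a1 Z0 c3 hl
      linarith only [z5, a1, Z0, c3, hl, mul_nonneg a1 Z0, mul_le_mul_of_nonneg_left c3 (mul_nonneg hl.le Z0)]
    rw [div_le_iff₀ m3] at c4
    linarith only [c4]

lemma fail_mass {ρ0 : ℕ} (hρ : 1 ≤ ρ0) (hm : G.m ≤ 2 * ρ0) {L : Finset Pt}
    {F : Finset (Finset Pt)} {h : Bool → ℕ}
    (wf1 : ∀ H ∈ F, ∀ τ, (sec G.ty L τ ∩ H).card = h τ)
    (hr : ∀ τ, mult τ * ρ0 + h τ ≤ (sec G.ty L τ).card) {lam p : ℝ} (τ : Bool)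
    (hh : 1 ≤ h true)
    (he1 : esc (sec G.ty L true) F ≤ 2 * lam * h true * (mult true * ρ0) * F.card)
    (he2 : esc (sec G.ty L τ) F ≤ 2 * lam * h τ * (mult τ * ρ0) * F.card)
    (φ : Pt → Pt → ℝ) (hφ0 : ∀ y z, 0 ≤ φ y z) (hφ1 : ∀ y z, φ y z ≤ 1)
    (hφ : ∑ y ∈ sec G.ty L true, ∑ z ∈ sec G.ty (L.erase y) τ, φ y z
      ≤ mult τ * ((p - 6 * lam) * (2 * (ρ0 : ℝ) ^ 2))) :
    ∑ y ∈ sec G.ty L true, ∑ z ∈ sec G.ty (L.erase y) τ,
      (((F.filter (fun H => y ∈ H)).filter (fun H => z ∈ H)).card : ℝ) * φ y z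
      ≤ p * (h true * dec h true τ * F.card) := by
  have m1 : (1 : ℝ) ≤ mult τ := by exact_mod_cast one_le_mult τ
  have m2 : (1 : ℝ) ≤ ρ0 := by exact_mod_cast hρ
  have m3 : (0 : ℝ) < mult τ * ρ0 := by positivity
  set ψ : Pt → ℝ := fun y => ∑ z ∈ sec G.ty (L.erase y) τ, φ y z with hψ
  have a1 : ∀ y ∈ sec G.ty L true, (mult τ * ρ0) * ∑ z ∈ sec G.ty (L.erase y) τ,
      (((F.filter (fun H => y ∈ H)).filter (fun H => z ∈ H)).card : ℝ) * φ y z
      ≤ esc (sec G.ty (L.erase y) τ) (F.filter (fun H => y ∈ H))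
        + dec h true τ * ∑ H ∈ F.filter (fun H => y ∈ H), ψ y := by
    intro y hy
    rw [mem_sec] at hy
    have b1 := wf1_rev G wf1 hy.1
    rw [hy.2] at b1
    have b2 := swap_bound (sec G.ty (L.erase y) τ) (F.filter (fun H => y ∈ H))
      (fun H hH => b1 H hH τ) (φ y) 1 (mult τ * ρ0) (fun z _ => hφ0 y z) (fun z _ => hφ1 y z) (by
        clear * - Pt G L y τ hy ρ0 h hr F lam φ p hh he2 m1 m3 hφ hψ
        have c1 := card_sec_erase G hy.1 τ
        have c2 := hr τ
        rw [hy.2] at c1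
        have c3 : mult τ * ρ0 + dec h true τ ≤ (sec G.ty (L.erase y) τ).card := by
          unfold dec
          split_ifs at c1 ⊢ with hτ
          · subst hτ; omega
          · omega
        have c4 : (mult τ : ℝ) * ρ0 + dec h true τ ≤ (sec G.ty (L.erase y) τ).card := by
          exact_mod_cast c3
        linarith only [c4])
    rw [← sum_filter_mem_comm] at b2
    simp only [sum_const, nsmul_eq_mul] at b2 ⊢
    simp only [hψ]
    linarith only [b2]
  have a2 := sum_le_sum a1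
  rw [← mul_sum, sum_add_distrib, ← mul_sum, sum_esc_rev' wf1,
    sum_filter_mem_comm _ _ (fun _ y => ψ y)] at a2
  have a3 := swap_bound (sec G.ty L true) F (fun H hH => wf1 H hH true) ψ (2 * (mult τ * ρ0))
    (2 * ρ0) (fun y _ => sum_nonneg fun z _ => hφ0 y z) (fun y _ => by
      clear * - Pt G L y τ φ hφ1 ρ0 hm ψ hψ h hr
      have c1 := sum_le_card_nsmul (sec G.ty (L.erase y) τ) (φ y) 1 (fun z _ => hφ1 y z)
      have c2 : (sec G.ty (L.erase y) τ).card ≤ 2 * (mult τ * ρ0) :=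
        (G.sec_le _ τ).trans (by nlinarith only [hm])
      have c3 : ((sec G.ty (L.erase y) τ).card : ℝ) ≤ 2 * (mult τ * ρ0) := by exact_mod_cast c2
      simp only [nsmul_eq_mul, mul_one] at c1
      simp only [hψ]
      linarith only [c3, c1]) (by
      have c2 := hr true
      have c3 : (mult true : ℝ) * ρ0 + h true ≤ (sec G.ty L true).card := by exact_mod_cast c2
      simp only [mult_true, Nat.cast_ofNat] at c3
      linarith only [c3])
  have Z0 : (0 : ℝ) ≤ F.card := Nat.cast_nonneg _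
  have h0 : (0 : ℝ) ≤ h true := Nat.cast_nonneg _
  have a4 : ∑ H ∈ F, ∑ y ∈ sec G.ty L true ∩ H, ψ y
      ≤ h true * F.card * (mult τ * ρ0) * (p - 2 * lam) := by
    clear * - ρ0 Pt F G L ψ h τ p lam a3 he1 m1 hρ hφ h0 Z0 φ hψ
    refine le_of_mul_le_mul_left (a3.trans ?_) (by positivity)
    have c1 := mul_le_mul_of_nonneg_right he1 (show (0 : ℝ) ≤ 2 * (mult τ * ρ0) by positivity)
    have c2 := mul_le_mul_of_nonneg_left hφ (mul_nonneg h0 Z0)
    simp only [mult_true, Nat.cast_ofNat] at c1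
    simp only [hψ]
    linarith only [c1, c2]
  have a5 : (dec h τ true : ℝ) * h τ = h true * dec h true τ := by
    clear * - h τ Pt G L F lam ρ0 φ p he2 m1 m3 hφ hψ a1 a2 a3 a4
    unfold dec
    cases τ <;> simp [mul_comm]
  have a6 := mul_le_mul_of_nonneg_left he2 (Nat.cast_nonneg (α := ℝ) (dec h τ true))
  have a7 := mul_le_mul_of_nonneg_left a4 (Nat.cast_nonneg (α := ℝ) (dec h true τ))
  refine le_of_mul_le_mul_left (a2.trans ?_) m3
  have a8 : (dec h τ true : ℝ) * (2 * lam * h τ * (mult τ * ρ0) * F.card)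
      = 2 * lam * (h true * dec h true τ) * (mult τ * ρ0) * F.card := by
    rw [← a5]; ring
  clear * - h τ Pt G L F ψ ρ0 p lam a6 a7 a8
  linarith only [a6, a7, a8]

end Pool.Agent.Work.MP_6aef45_co
end
end

-- merged part: Pool.Agent.Work.MP_6aef45_co.Block
section
-- merged part: Pool.Agent.Work.MP_6aef45_co.BlockPlay
section
namespace Pool.Agent.Work.MP_6aef45_co
open Finset

variable {Pt : Type} [DecidableEq Pt]

/-- Ordered triples (colour, vertex, vertex). -/
def XX (V C : Finset Pt) : Finset (Σ _ : Pt, Σ _ : Pt, Pt) :=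
  C.sigma (fun _ => V.sigma (fun y => V.erase y))

/-- The underlying set of an ordered triple. -/
def tri (e : Σ _ : Pt, Σ _ : Pt, Pt) : Finset Pt := {e.1, e.2.1, e.2.2}

/-- The triple `e` extends `S` to a member of `F`. -/
def Use (F : Finset (Finset Pt)) (S : Finset Pt) (e : Σ _ : Pt, Σ _ : Pt, Pt) : Prop :=
  e.1 ∉ S ∧ e.2.1 ∉ S ∧ e.2.2 ∉ S ∧ insert e.2.2 (insert e.2.1 (insert e.1 S)) ∈ F

instance (F : Finset (Finset Pt)) (S : Finset Pt) (e : Σ _ : Pt, Σ _ : Pt, Pt) :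
    Decidable (Use F S e) := by unfold Use; infer_instance

lemma sum_XX (V C : Finset Pt) (φ : (Σ _ : Pt, Σ _ : Pt, Pt) → ℝ) :
    ∑ e ∈ XX V C, φ e = ∑ c ∈ C, ∑ y ∈ V, ∑ x ∈ V.erase y, φ ⟨c, y, x⟩ := by
  unfold XX
  rw [sum_sigma]
  refine sum_congr rfl fun c _ => ?_
  rw [sum_sigma]

lemma card_XX (V C : Finset Pt) :
    ((XX V C).card : ℝ) = C.card * (V.card * (V.card - 1)) := by
  have := sum_XX V C (fun _ => 1)
  simp only [sum_const, nsmul_eq_mul, mul_one] at this
  rw [this, sum_congr rfl (g := fun _ => (V.card : ℝ) - 1)]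
  · rw [sum_const, nsmul_eq_mul]
  · intro y hy
    have := card_erase_add_one hy
    have h2 : ((V.erase y).card : ℝ) + 1 = V.card := by exact_mod_cast this
    linarith only [h2]

lemma sum_sdiff_ite (D R : Finset Pt) (φ : Pt → ℝ) :
    ∑ x ∈ D \ R, φ x = ∑ x ∈ D, if x ∈ R then 0 else φ x := by
  rw [sdiff_eq_filter, sum_filter]
  refine sum_congr rfl fun x _ => ?_
  split_ifs <;> rfl

lemma sum_use {V C : Finset Pt} (hd : Disjoint V C) (F : Finset (Finset Pt)) (S : Finset Pt) :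
    ∑ e ∈ XX V C, (if Use F S e then (1 : ℝ) else 0) = UU V C F S := by
  rw [sum_XX]
  unfold UU kk up
  rw [sum_sdiff_ite]
  refine sum_congr rfl fun c hc => ?_
  split_ifs with hcS
  · simp [Use, hcS]
  rw [sum_sdiff_ite]
  refine sum_congr rfl fun y hy => ?_
  have hyc : y ≠ c := fun h => disjoint_left.1 hd hy (h ▸ hc)
  split_ifs with hyS
  · have : y ∈ S := by simpa [hyc] using hyS
    simp [Use, this]
  have hyS' : y ∉ S := fun h => hyS (mem_insert_of_mem h)
  have : V \ insert y (insert c S) = V.erase y \ S := by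
    ext x
    simp only [mem_sdiff, mem_insert, mem_erase, not_or]
    constructor
    · tauto
    · rintro ⟨⟨h1, h2⟩, h3⟩
      exact ⟨h2, h1, fun h => disjoint_left.1 hd h2 (h ▸ hc), h3⟩
  beta_reduce
  rw [this, sum_sdiff_ite]
  refine sum_congr rfl fun x _ => ?_
  by_cases hx : x ∈ S
  · simp [Use, hx]
  · simp [Use, hx, hcS, hyS', ind]

lemma sum_use_le [Fintype Pt] (F : Finset (Finset Pt)) (e : Σ _ : Pt, Σ _ : Pt, Pt) :
    ∑ S, (if Use F S e then (1 : ℝ) else 0) ≤ (F.filter (fun H => e.1 ∈ H)).card := by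
  rw [sum_boole, Nat.cast_le]
  refine card_le_card_of_injOn (fun S => insert e.2.2 (insert e.2.1 (insert e.1 S))) ?_ ?_
  · intro S hS
    simp only [coe_filter, mem_univ, true_and, Set.mem_ofPred_eq] at hS ⊢
    exact ⟨hS.2.2.2, by simp⟩
  · intro S hS S' hS' h
    simp only [coe_filter, mem_univ, true_and, Set.mem_ofPred_eq] at hS hS' h
    ext x
    have := congrArg (x ∈ ·) h
    simp only [mem_insert, eq_iff_iff] at this
    obtain ⟨a1, a2, a3, -⟩ := hS
    obtain ⟨b1, b2, b3, -⟩ := hS'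
    constructor
    · intro hx
      rcases this.1 (by simp [hx]) with h | h | h | h
      · exact absurd (h ▸ hx) a3
      · exact absurd (h ▸ hx) a2
      · exact absurd (h ▸ hx) a1
      · exact h
    · intro hx
      rcases this.2 (by simp [hx]) with h | h | h | h
      · exact absurd (h ▸ hx) b3
      · exact absurd (h ▸ hx) b2
      · exact absurd (h ▸ hx) b1
      · exact h

variable [Fintype Pt] {G : Game Pt} {μ : Bool → ℕ} {s : State Pt}

lemma sec_disjoint (G : Game Pt) (L : Finset Pt) :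
    Disjoint (sec G.ty L true) (sec G.ty L false) := by
  rw [disjoint_left]
  intro x h1 h2
  rw [mem_sec] at h1 h2
  rw [h1.2] at h2; exact absurd h2.2 (by simp)

lemma mem_XX {G : Game Pt} {L : Finset Pt} {e : Σ _ : Pt, Σ _ : Pt, Pt}
    (he : e ∈ XX (sec G.ty L true) (sec G.ty L false)) :
    e.1 ∈ L ∧ e.2.1 ∈ L ∧ e.2.2 ∈ L ∧ G.ty e.1 = false ∧ G.ty e.2.1 = true ∧ G.ty e.2.2 = true ∧
      e.1 ≠ e.2.1 ∧ e.1 ≠ e.2.2 ∧ e.2.1 ≠ e.2.2 := by
  simp only [XX, mem_sigma, mem_sec, mem_erase] at he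
  obtain ⟨⟨a1, a2⟩, ⟨a3, a4⟩, a5, a6, a7⟩ := he
  refine ⟨a1, a3, a6, a2, a4, a7, ?_, ?_, fun h => a5 h.symm⟩
  · intro h; rw [h, a4] at a2; exact absurd a2 (by simp)
  · intro h; rw [h, a7] at a2; exact absurd a2 (by simp)

lemma valid_tri {G : Game Pt} {L : Finset Pt} {e : Σ _ : Pt, Σ _ : Pt, Pt}
    (he : e ∈ XX (sec G.ty L true) (sec G.ty L false)) : Valid G.ty (tri e) := by
  obtain ⟨-, -, -, a1, a2, a3, a4, a5, a6⟩ := mem_XX he
  exact valid_triple a4 a5 a6 a2 (by rw [a1, a3]; rfl)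

lemma taken_le {G : Game Pt} {L : Finset Pt} {T : Finset (Finset Pt)}
    (hT : ∀ f ∈ T, Valid G.ty f) (hlow : ∀ v ∈ L, (deg T v : ℝ) ≤ G.θ1) (ω : Pt → ℝ)
    (hω : ∀ c, 0 ≤ ω c) :
    ∑ e ∈ XX (sec G.ty L true) (sec G.ty L false), ind T (tri e) * ω e.1
      ≤ 2 * G.θ1 * ∑ c ∈ sec G.ty L false, ω c := by
  rw [sum_XX, mul_sum]
  refine sum_le_sum fun c hc => ?_
  simp only [← sum_mul]
  refine mul_le_mul_of_nonneg_right ?_ (hω c)
  have hc' := mem_sec.1 hc
  have hcV : c ∉ sec G.ty L true := disjoint_right.1 (sec_disjoint G L) hc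
  have := link_le hT c _ _ (fun y hy => (mem_sec.1 hy).2) hcV hcV
  rw [hc'.2] at this
  simp only [Bool.not_false, mult_true, Nat.cast_ofNat] at this
  have := hlow c hc'.1
  unfold tri
  linarith

theorem block_play (hs : Struct G μ s) (hc : s.Calm G) (hC : (sec G.ty s.L false).Nonempty)
    (hfree : 2 * G.θ1 < (sec G.ty s.L true).card * (((sec G.ty s.L true).card : ℝ) - 1))
    (q : Finset Pt → ℝ)
    (hq : ∀ S, q S = UU (sec G.ty s.L true) (sec G.ty s.L false) s.fam S
      / (XX (sec G.ty s.L true) (sec G.ty s.L false)).card) (j : ℕ) (hj : j ≤ G.K) :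
    ∃ M' T' C' : Finset (Finset Pt), s.M ⊆ M' ∧ s.T ⊆ T' ∧ (T' \ s.T).card ≤ j * G.b1 ∧
      (∀ f ∈ T', Valid G.ty f) ∧ G.Bad M' T' ∧
      (∀ S ∈ C', ∃ e ∈ XX (sec G.ty s.L true) (sec G.ty s.L false), Use s.fam S e ∧ tri e ∈ M') ∧
      ∑ S, (1 - (1 - q S) ^ G.K) - j * (2 * G.θ1 * (s.h false * s.fam.card)
          / (XX (sec G.ty s.L true) (sec G.ty s.L false)).card)
        ≤ ∑ S, if S ∈ C' then 1 else 1 - (1 - q S) ^ (G.K - j) := by
  set V := sec G.ty s.L true with hV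
  set C := sec G.ty s.L false with hCdef
  set X := XX V C with hX
  induction j with
  | zero => exact ⟨s.M, s.T, ∅, subset_refl _, subset_refl _, by simp, hs.val, hs.bad, by clear * - Pt X s hs; simp,
      by simp⟩
  | succ j ih =>
  obtain ⟨M', T', C', h1, h2, h3, h4, h5, h6, h7⟩ := ih (by omega)
  have hθ0 := G.hθ0
  have hlow : ∀ v ∈ s.L, (deg T' v : ℝ) ≤ G.θ1 := by
    clear * - Pt s G hc T' h2 j h3 hj
    intro v hv
    have a1 := hc v hv
    have a2 : deg T' v ≤ deg s.T v + G.K * G.b1 :=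
      (deg_le_add h2 v).trans (Nat.add_le_add_left
        (h3.trans (Nat.mul_le_mul_right _ (by omega))) _)
    have a3 : (deg T' v : ℝ) ≤ deg s.T v + G.K * G.b1 := by exact_mod_cast a2
    linarith only [a1, a3, G.hθ1]
  have hCp : (0 : ℝ) < C.card := by exact_mod_cast hC.card_pos
  have hθ1 : 0 ≤ G.θ1 := by
    clear * - Pt G hθ0
    have : (0 : ℝ) ≤ G.K * G.b1 := by positivity
    linarith [G.hθ1]
  have hXc : (X.card : ℝ) = C.card * (V.card * (V.card - 1)) := card_XX V C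
  have hXp : (0 : ℝ) < X.card := by
    rw [hXc]; exact mul_pos hCp (by linarith only [hfree, hθ1])
  have hq0 : ∀ S, 0 ≤ q S := fun S => by
    rw [hq]; exact div_nonneg (UU_nonneg _ _ _ _) hXp.le
  have hq1 : ∀ S, q S ≤ 1 := fun S => by
    rw [hq, div_le_one hXp, ← sum_use (sec_disjoint G s.L)]
    have := sum_le_card_nsmul X (fun e => if Use s.fam S e then (1 : ℝ) else 0) 1
      (fun e _ => by split_ifs <;> norm_num)
    simpa using this
  obtain ⟨i, hi⟩ : ∃ i, G.K - j = i + 1 := ⟨G.K - j - 1, by omega⟩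
  have hi' : G.K - (j + 1) = i := by omega
  rw [hi] at h7
  rw [hi']
  set gain : (Σ _ : Pt, Σ _ : Pt, Pt) → ℝ := fun e =>
    ∑ S, if S ∈ C' then 0 else (if Use s.fam S e then 1 else 0) * (1 - q S) ^ i with hgain
  have g0 : ∀ e, 0 ≤ gain e := fun e => sum_nonneg fun S _ => by
    have := pow_nonneg (sub_nonneg.2 (hq1 S)) i
    split_ifs <;> simp [this]
  have g1 : ∀ e, gain e ≤ (s.fam.filter (fun H => e.1 ∈ H)).card := fun e => by
    clear * - gain e Pt s C' q i hq1 hq0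
    refine le_trans (sum_le_sum fun S _ => ?_) (sum_use_le s.fam e)
    have := pow_le_one₀ (n := i) (sub_nonneg.2 (hq1 S)) (by linarith [hq0 S])
    split_ifs <;> simp [this]
  have g2 : ∑ e ∈ X, gain e = X.card * ∑ S, if S ∈ C' then 0 else q S * (1 - q S) ^ i := by
    clear * - Pt X gain C' q i s G V C hq hXp
    rw [sum_comm, mul_sum]
    refine sum_congr rfl fun S _ => ?_
    split_ifs with hS
    · simp
    · rw [← sum_mul, sum_use (sec_disjoint G s.L), hq S]
      field_simp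
      rfl
  have g3 : ∑ e ∈ X, ind T' (tri e) * gain e ≤ 2 * G.θ1 * (s.h false * s.fam.card) := by
    rw [← sum_card_filter_mem (fun H hH => hs.wf1 H hH false)]
    refine le_trans (sum_le_sum fun e _ => mul_le_mul_of_nonneg_left (g1 e) (ind_nonneg _ _))
      (taken_le h4 hlow (fun c => ((s.fam.filter (fun H => c ∈ H)).card : ℝ))
        (fun c => Nat.cast_nonneg _))
  have hne : (X.filter (fun e => tri e ∉ T')).Nonempty := by
    clear * - Pt T' X G s h4 hlow C V hXc hX hCdef hV hfree hCp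
    by_contra hcon
    rw [not_nonempty_iff_eq_empty, filter_eq_empty_iff] at hcon
    have a1 := taken_le h4 hlow (fun _ => 1) (fun _ => zero_le_one)
    rw [sum_congr rfl (g := fun _ => (1 : ℝ)) (fun e he => by
      have := hcon he
      push Not at this
      simp [ind, this])] at a1
    simp only [sum_const, nsmul_eq_mul, mul_one] at a1
    rw [← hV, ← hCdef, ← hX, hXc] at a1
    linarith only [a1, hfree, hCp, mul_pos_of_neg_of_neg (Mathlib.Tactic.Linarith.sub_neg_of_lt hfree) (Mathlib.Tactic.Linarith.sub_neg_of_lt hCp)]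
  obtain ⟨e, he, hmax⟩ := exists_max_image _ gain hne
  rw [mem_filter] at he
  have g4 : ∑ e' ∈ X, gain e' ≤ X.card * gain e + ∑ e ∈ X, ind T' (tri e) * gain e := by
    rw [← nsmul_eq_mul, ← sum_const, ← sum_add_distrib]
    refine sum_le_sum fun e' he' => ?_
    by_cases h : tri e' ∈ T'
    · simp [ind, h, g0 e]
    · simp [ind, h, hmax e' (mem_filter.2 ⟨he', h⟩)]
  obtain ⟨T'', t1, t2, t3, t4⟩ := G.move M' T' _ h5 (valid_tri he.1) he.2
  refine ⟨insert (tri e) M', T'', C' ∪ univ.filter (fun S => Use s.fam S e),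
    h1.trans (subset_insert _ _), h2.trans t1, ?_, ?_, t4, ?_, ?_⟩
  · have : T'' \ s.T ⊆ T' \ s.T ∪ T'' \ T' := by
      clear * - Pt T'' s T' j G X q ih e he
      intro f hf
      simp only [mem_union, mem_sdiff] at hf ⊢
      tauto
    have := (card_le_card this).trans (card_union_le _ _)
    rw [add_mul]; omega
  · intro f hf
    by_cases h : f ∈ T'
    · exact h4 f h
    · exact t3 f hf h
  · intro S hS
    rw [mem_union] at hS
    rcases hS with h | h
    · obtain ⟨e', a1, a2, a3⟩ := h6 S h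
      exact ⟨e', a1, a2, mem_insert_of_mem a3⟩
    · exact ⟨e, he.1, (mem_filter.1 h).2, mem_insert_self _ _⟩
  · have a1 : (∑ S, if S ∈ C' ∪ univ.filter (fun S => Use s.fam S e) then (1 : ℝ)
        else 1 - (1 - q S) ^ i)
        = (∑ S, if S ∈ C' then (1 : ℝ) else 1 - (1 - q S) ^ i) + gain e := by
      rw [hgain, ← sum_add_distrib]
      refine sum_congr rfl fun S _ => ?_
      by_cases b1 : S ∈ C' <;> by_cases b2 : Use s.fam S e <;> simp [b1, b2]
    have a2 : (∑ S, if S ∈ C' then (1 : ℝ) else 1 - (1 - q S) ^ (i + 1))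
        = (∑ S, if S ∈ C' then (1 : ℝ) else 1 - (1 - q S) ^ i)
          + ∑ S, if S ∈ C' then 0 else q S * (1 - q S) ^ i := by
      rw [← sum_add_distrib]
      refine sum_congr rfl fun S _ => ?_
      split_ifs
      · simp
      · ring
    have a3 : (∑ S, if S ∈ C' then 0 else q S * (1 - q S) ^ i)
        ≤ gain e + 2 * G.θ1 * (s.h false * s.fam.card) / X.card := by
      clear * - Pt X C' q i gain e G s g2 hXp T' g3 g4
      refine le_of_mul_le_mul_left ?_ hXp
      rw [← g2, mul_add, mul_div_cancel₀ _ hXp.ne']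
      linarith only [g3, g4]
    rw [a1]
    push_cast
    clear * - Pt q G j s X C' i gain e h7 a2 a3
    linarith only [h7, a2, a3]

end Pool.Agent.Work.MP_6aef45_co
end

-- merged part: Pool.Agent.Work.MP_6aef45_co.Block
section
namespace Pool.Agent.Work.MP_6aef45_co
open Finset

variable {Pt : Type} [DecidableEq Pt] [Fintype Pt] {G : Game Pt} {μ : Bool → ℕ} {s : State Pt}

lemma choose_aux3 {n k : ℕ} (h : k ≤ n) :
    (n.choose (k + 1) : ℝ) * (k + 1) = n.choose k * ((n : ℝ) - k) := by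
  have := Nat.choose_succ_right_eq n k
  have h2 : ((n.choose (k + 1) * (k + 1) : ℕ) : ℝ) = ((n.choose k * (n - k) : ℕ) : ℝ) := by
    rw [this]
  push_cast [Nat.cast_sub h] at h2
  exact h2

lemma Struct.h_of_empty (hs : Struct G μ s) (hP : s.P = ∅) (τ : Bool) : s.h τ = mult τ * s.u := by
  have := hs.cnt τ
  rw [hP] at this
  simpa [sec] using this

lemma block_struct (hs : Struct G μ s) (hP : s.P = ∅) (hc : s.Calm G) {w : ℕ} (hw : s.u = w + 1)
    {M' T' C' : Finset (Finset Pt)} (h1 : s.M ⊆ M') (h2 : s.T ⊆ T')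
    (h3 : (T' \ s.T).card ≤ G.K * G.b1) (h4 : ∀ f ∈ T', Valid G.ty f) (h5 : G.Bad M' T')
    (h6 : ∀ S ∈ C', ∃ e ∈ XX (sec G.ty s.L true) (sec G.ty s.L false),
      Use s.fam S e ∧ tri e ∈ M') (hne : C'.Nonempty) :
    Struct G μ ⟨s.L, C', ∅, M', T', fun τ => mult τ * w, w⟩ := by
  have hlow : ∀ v ∈ s.L, (deg T' v : ℝ) ≤ G.θ1 := by
    intro v hv
    have a1 := hc v hv
    have a2 : deg T' v ≤ deg s.T v + G.K * G.b1 :=
      (deg_le_add h2 v).trans (Nat.add_le_add_left h3 _)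
    have a3 : (deg T' v : ℝ) ≤ deg s.T v + G.K * G.b1 := by exact_mod_cast a2
    linarith only [a1, a3, G.hθ1]
  have key : ∀ S ∈ C', ∃ H ∈ s.fam, ∃ e, Valid G.ty e ∧ e ∈ M' ∧ e ⊆ s.L ∧ e ⊆ H ∧ S = H \ e := by
    clear * - Pt C' G s M' h6
    intro S hS
    obtain ⟨e, he, hu, hM⟩ := h6 S hS
    obtain ⟨a1, a2, a3, -⟩ := mem_XX he
    obtain ⟨b1, b2, b3, b4⟩ := hu
    refine ⟨_, b4, tri e, valid_tri he, hM, ?_, ?_, ?_⟩
    · intro x hx
      simp only [tri, mem_insert, mem_singleton] at hx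
      rcases hx with h | h | h <;> rw [h] <;> assumption
    · intro x hx
      simp only [tri, mem_insert, mem_singleton] at hx ⊢
      tauto
    · ext x
      simp only [tri, mem_insert, mem_singleton, mem_sdiff, not_or]
      constructor
      · intro hx
        exact ⟨by simp [hx], fun h => b1 (h ▸ hx), fun h => b2 (h ▸ hx), fun h => b3 (h ▸ hx)⟩
      · tauto
  refine ⟨?_, ?_, hne, disjoint_empty_left _, ?_, ?_, h5, h4, ?_, ?_, hlow, ?_, ?_⟩
  · intro S hS τ
    obtain ⟨H, hH, e, e1, -, e3, e4, rfl⟩ := key S hS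
    have a1 := hs.wf1 H hH τ
    rw [hs.h_of_empty hP, hw] at a1
    have a2 : sec G.ty s.L τ ∩ (H \ e) = (sec G.ty s.L τ ∩ H) \ sec G.ty e τ := by
      clear * - Pt G s τ H e
      ext x; simp only [mem_inter, mem_sec, mem_sdiff]; tauto
    have a3 : sec G.ty e τ ⊆ sec G.ty s.L τ ∩ H := by
      intro x hx
      simp only [mem_inter, mem_sec] at hx ⊢
      exact ⟨⟨e3 hx.1, hx.2⟩, e4 hx.1⟩
    have a4 := card_sdiff_add_card_eq_card a3
    rw [e1 τ, a1, mul_add] at a4
    simp only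
    rw [a2]; omega
  · intro S hS S' hS'
    obtain ⟨H, hH, e, -, -, e3, -, rfl⟩ := key S hS
    obtain ⟨H', hH', e', -, -, e3', -, rfl⟩ := key S' hS'
    have a : ∀ A B : Finset Pt, B ⊆ s.L → (A \ B) \ s.L = A \ s.L := by
      clear * - Pt s
      intro A B hB; ext x
      simp only [mem_sdiff]
      have := @hB x
      tauto
    simp only
    rw [a H e e3, a H' e' e3', hs.wf2 H hH H' hH']
  · intro τ; simp [sec]
  · intro S hS
    obtain ⟨H, hH, e, -, e2, e3, e4, rfl⟩ := key S hS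
    have a1 := (hs.cov H hH).add h1 e2 (by
      intro x hx; simp [e3 hx, e4 hx])
    rw [hP] at a1
    simp only
    convert a1 using 1
    ext x; simp only [mem_union, mem_inter, mem_sdiff]; tauto
  · have a1 := hs.time
    have a2 := card_sdiff_add_card_eq_card h2
    rw [hw, mul_add] at a1
    rw [mul_comm] at h3
    simp only
    omega
  · have := hs.um; simp only; omega
  · exact box_of_low (by clear * - Pt s C' M' T' w G hlow; simpa using hlow)
  · intro τ
    have a1 := hs.room τ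
    rw [hs.h_of_empty hP, hw, mul_add] at a1
    have a3 : s.nq G ≤ State.nq G ⟨s.L, C', ∅, M', T', fun τ => mult τ * w, w⟩ :=
      nq_le_of G h2 (subset_refl _)
    simp only
    omega

theorem block (hs : Struct G μ s) (hP : s.P = ∅) (hc : s.Calm G) {k : ℕ} (hk : G.K = 2 * k)
    {w : ℕ} (hw : s.u = w + 1) {p γ : ℝ} (hp0 : 0 ≤ p) (hp1 : p ≤ 1) (hγ : (1 - p) ^ k ≤ γ)
    (hγ1 : γ ≤ 1) {r0 : ℕ} (hr : ∀ τ, r0 + s.h τ ≤ (sec G.ty s.L τ).card)
    (hpr : p * (4 * (G.m : ℝ) ^ 3) ≤ (r0 : ℝ) ^ 3)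
    (hloss : G.K * G.θ1 ≤ γ * ((w + 1) * (2 * w + 1)))
    (hfree : 2 * G.θ1 < (sec G.ty s.L true).card * (((sec G.ty s.L true).card : ℝ) - 1)) :
    ∃ s' : State Pt, (s'.fam.Nonempty → Struct G μ s') ∧ s'.L = s.L ∧ s'.P = ∅ ∧ s'.u = w ∧
      s.T ⊆ s'.T ∧ 0 < NN G s'.L s'.h ∧ ∀ g : ℝ, (g = 0 ∨ ∃ τ, 2 * g * s.fam.card * s.h τ
        * ((sec G.ty s.L τ).card - s.h τ + 1) ≤ esc (sec G.ty s.L τ) s.fam) →
        ((1 - γ) * (1 + g) - γ) * s.fam.card * NN G s'.L s'.h ≤ s'.fam.card * NN G s.L s.h := by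
  have hV2 : s.h true = 2 * w + 2 := by rw [hs.h_of_empty hP, hw]; simp; ring
  have hC1 : s.h false = w + 1 := by rw [hs.h_of_empty hP, hw]; simp
  have r1 := hr true
  have r2 := hr false
  have u1 := G.sec_le s.L true
  have u2 := G.sec_le s.L false
  rw [hV2] at r1
  rw [hC1] at r2
  obtain ⟨M', T', C', h1, h2, h3, h4, h5, h6, h7⟩ := block_play hs hc
    (card_pos.1 (by omega)) hfree _ (fun _ => rfl) G.K le_rfl
  refine ⟨⟨s.L, C', ∅, M', T', fun τ => mult τ * w, w⟩,
    block_struct hs hP hc hw h1 h2 h3 h4 h5 h6, rfl, rfl, rfl, h2, ?_, ?_⟩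
  · unfold NN
    refine mul_pos (Nat.cast_pos.2 (Nat.choose_pos ?_)) (Nat.cast_pos.2 (Nat.choose_pos ?_))
    · simp only [mult_true]; omega
    · simp only [mult_false]; omega
  intro g hg
  set V := sec G.ty s.L true with hV
  set C := sec G.ty s.L false with hC
  have r1' : (r0 : ℝ) + (2 * w + 2) ≤ V.card := by exact_mod_cast r1
  have r2' : (r0 : ℝ) + (w + 1) ≤ C.card := by exact_mod_cast r2
  have u1' : (V.card : ℝ) ≤ 2 * G.m := by exact_mod_cast u1
  have u2' : (C.card : ℝ) ≤ G.m := by simpa using u2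
  have r0n : (0 : ℝ) ≤ r0 := Nat.cast_nonneg _
  have wn : (0 : ℝ) ≤ w := Nat.cast_nonneg _
  set To : ℝ := ((C.card : ℝ) - w) * (((V.card : ℝ) - 2 * w) * (V.card - 2 * w - 1)) with hTo
  have hTop : 0 < To := mul_pos (by clear * - Pt C w r0 r2' To; linarith) (mul_pos (by clear * - Pt V w r0 r1' To; linarith) (by clear * - Pt V w r0 r1' To; linarith))
  have hXc := card_XX V C
  set Ta : ℝ := ((XX V C).card : ℝ) with hTa
  have hToTa : To ≤ Ta := by
    clear * - To Ta Pt C V hXc w r0 r1' r2'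
    rw [hXc]
    exact mul_le_mul (by linarith) (mul_le_mul (by linarith) (by linarith) (by linarith)
      (by linarith)) (mul_nonneg (by linarith) (by linarith)) (by linarith)
  have hTap : 0 < Ta := by clear * - Ta To Pt C w V hTop hToTa; linarith
  have hpT : p * Ta ≤ To := by
    clear * - Ta Pt G C V hXc u2' u1' w r0 r1' To r2' r0n p hp0 hpr
    have a1 : Ta ≤ 4 * (G.m : ℝ) ^ 3 := by
      rw [hXc]
      calc _ ≤ (G.m : ℝ) * (2 * G.m * (2 * G.m)) :=
            mul_le_mul u2' (mul_le_mul u1' (by linarith) (by linarith only [r1']) (by linarith only [r1', u1']))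
              (mul_nonneg (by linarith only [r1']) (by linarith only [r1'])) (by linarith only [r1', u1'])
        _ = _ := by ring
    have a2 : (r0 : ℝ) ^ 3 ≤ To := by
      calc (r0 : ℝ) ^ 3 = r0 * (r0 * r0) := by ring
        _ ≤ _ := mul_le_mul (by linarith) (mul_le_mul (by linarith) (by linarith) r0n
              (by linarith only [r1'])) (by positivity) (by linarith)
    exact (mul_le_mul_of_nonneg_left a1 hp0).trans (hpr.trans a2)
  obtain ⟨c1, c2, c3, c4⟩ := block_count (sec_disjoint G s.L) (F := s.fam) (w := w)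
    (fun H hH => ⟨hV2 ▸ hs.wf1 H hH true, hC1 ▸ hs.wf1 H hH false⟩) To hTo hTop.le
  rw [← hV, ← hC] at c1 c2 c3 c4
  set U := UU V C s.fam with hU
  set Z : ℝ := (s.fam.card : ℝ) with hZ
  have Zn : 0 ≤ Z := Nat.cast_nonneg _
  set Ti : ℝ := (w + 1) * (2 * w + 1) * (2 * w + 2) with hTi
  have hTin : 0 ≤ Ti := by clear * - Ti w; positivity
  -- the gain
  have hE : g * (Ti * Z) * To ≤ ∑ S, U S * (To - U S) := by
    clear * - g Z Pt s G Ti To U hg V C c1 w hC hC1 hTop hTi c4 r0 r2' hV hV2 c3 r1'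
    rcases hg with rfl | ⟨τ, hτ⟩
    · simp only [zero_mul]
      exact sum_nonneg fun S _ => mul_nonneg (UU_nonneg _ _ _ _) (sub_nonneg.2 (c1 S))
    · cases τ
      · rw [hC1, ← hC] at hτ
        push_cast at hτ
        refine le_of_mul_le_mul_left ?_ (show (0 : ℝ) < 2 * (C.card - w) by linarith only [r2'])
        refine le_trans ?_ c4
        have := mul_le_mul_of_nonneg_left hτ
          (show (0 : ℝ) ≤ (2 * w + 1) * (2 * w + 2) * To by positivity)
        rw [hTi]; linarith only [this]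
      · rw [hV2, ← hV] at hτ
        push_cast at hτ
        refine le_of_mul_le_mul_left ?_ (show (0 : ℝ) < 2 * (V.card - 2 * w - 1) by linarith only [r1'])
        refine le_trans ?_ c3
        have := mul_le_mul_of_nonneg_left hτ
          (show (0 : ℝ) ≤ (w + 1) * (2 * w + 1) * To by positivity)
        rw [hTi]; linarith only [this]
  have hcov : ∀ S, (1 - γ) * (U S / To + U S * (To - U S) / To ^ 2)
      ≤ 1 - (1 - U S / Ta) ^ G.K := by
    clear * - Pt U V C s To hTop c1 p Ta hTap hpT hToTa γ k hp0 hp1 hγ hγ1 G hk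
    intro S
    have a0 : 0 ≤ U S := UU_nonneg _ _ _ _
    have a1 : U S / To ≤ 1 := (div_le_one hTop).2 (c1 S)
    have a2 : p * (U S / To) ≤ U S / Ta := by
      rw [← mul_div_assoc, div_le_div_iff₀ hTop hTap]
      calc p * U S * Ta = U S * (p * Ta) := by ring
        _ ≤ _ := mul_le_mul_of_nonneg_left hpT a0
    have a3 : U S / Ta ≤ 1 := (div_le_one hTap).2 ((c1 S).trans hToTa)
    have := cover_ineq hp0 hp1 (div_nonneg a0 hTop.le) a1 hγ hγ1 a2 a3
    rw [hk]
    convert this using 3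
    field_simp
  have hsum := sum_le_sum (s := univ) fun S _ => hcov S
  rw [← mul_sum, sum_add_distrib, ← sum_div, ← sum_div, c2] at hsum
  simp only [Nat.sub_self, pow_zero, sub_self, sum_boole, filter_mem_eq_inter, univ_inter] at h7
  have hE' : g * (Ti * Z / To) ≤ (∑ S, U S * (To - U S)) / To ^ 2 := by
    clear * - g Ti Z To Pt U hTop hE
    rw [le_div_iff₀ (by positivity)]
    have : g * (Ti * Z / To) * To ^ 2 = g * (Ti * Z) * To := by field_simp
    rw [this]; exact hE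
  have hL : G.K * (2 * G.θ1 * (s.h false * Z) / Ta) ≤ γ * (Ti * Z / To) := by
    clear * - γ p k hp1 hγ Ti Z Ta To w Pt s hTop hToTa G hC1 hloss hTi hTap
    have γn : 0 ≤ γ := le_trans (pow_nonneg (by linarith only [hp1]) k) hγ
    have a1 : Ti * Z / Ta ≤ Ti * Z / To :=
      div_le_div_of_nonneg_left (by positivity) hTop hToTa
    refine le_trans ?_ (mul_le_mul_of_nonneg_left a1 γn)
    rw [hC1, ← mul_div_assoc, ← mul_div_assoc]
    refine div_le_div_of_nonneg_right ?_ hTap.le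
    have := mul_le_mul_of_nonneg_left hloss (show (0 : ℝ) ≤ 2 * (w + 1) * Z by positivity)
    rw [hTi]; push_cast; linarith only [this]
  have hfin : ((1 - γ) * (1 + g) - γ) * (Ti * Z / To) ≤ C'.card := by
    clear * - γ g Ti Z To Pt U hE' hγ1 w C V C' Ta G s hsum h7 hL
    have := mul_le_mul_of_nonneg_left hE' (sub_nonneg.2 hγ1)
    have e : ((1 - γ) * (1 + g) - γ) * (Ti * Z / To)
        = (1 - γ) * (Ti * Z / To) + (1 - γ) * (g * (Ti * Z / To)) - γ * (Ti * Z / To) := by ring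
    rw [mul_add] at hsum
    rw [e]
    linarith only [hsum, h7, hL, this]
  have hN : NN G s.L (fun τ => mult τ * w) = NN G s.L s.h * Ti / To := by
    clear * - Pt G s w Ti To hTop hV2 hC1 V hV C hC k r0 T' r1 r2 hTo hTi
    rw [eq_div_iff hTop.ne']
    unfold NN
    rw [hV2, hC1, ← hV, ← hC]
    have a1 := choose_aux3 (n := V.card) (k := 2 * w) (by omega)
    have a2 := choose_aux3 (n := V.card) (k := 2 * w + 1) (by omega)
    have a3 := choose_aux3 (n := C.card) (k := w) (by omega)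
    simp only [mult_true, mult_false, one_mul]
    push_cast at a1 a2 a3
    rw [hTo, hTi]
    have e : 2 * w + 1 + 1 = 2 * w + 2 := rfl
    rw [e] at a2
    set x0 : ℝ := (V.card.choose (2 * w) : ℝ)
    set x1 : ℝ := (V.card.choose (2 * w + 1) : ℝ)
    set x2 : ℝ := (V.card.choose (2 * w + 2) : ℝ)
    set y0 : ℝ := (C.card.choose w : ℝ)
    set y1 : ℝ := (C.card.choose (w + 1) : ℝ)
    calc _ = (x0 * (V.card - 2 * w)) * (V.card - 2 * w - 1) * (y0 * (C.card - w)) := by ring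
      _ = (x1 * (V.card - (2 * w + 1))) * (2 * w + 1) * (y1 * (w + 1)) := by rw [← a1, ← a3]; ring
      _ = _ := by rw [← a2]; ring
  simp only
  rw [hN]
  have := mul_le_mul_of_nonneg_right hfin (NN_nonneg G s.L s.h)
  refine le_trans (le_of_eq ?_) this
  ring

end Pool.Agent.Work.MP_6aef45_co
end
end
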