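import Mathlib

namespace Pool.Agent.Work.MP_6aef45_co

/-- The board of the rainbow perfect matching game on `n = 2 * m` vertices: `m` copies
(colours) of the edge set of the complete graph on `Fin (2 * m)`. -/
abbrev Board (m : ℕ) : Type := Fin m × {s : Finset (Fin (2 * m)) // s.card = 2}

/-- `F` is a rainbow perfect matching: no two of its edges have the same colour and every
vertex lies in exactly one of its edges. -/
def IsRainbowPM {m : ℕ} (F : Finset (Board m)) : Prop :=
  (∀ e ∈ F, ∀ e' ∈ F, e.1 = e'.1 → e = e') ∧ ∀ v : Fin (2 * m), ∃! e, e ∈ F ∧ v ∈ e.2.1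

/-- `BreakerWins b M B`: in the `(1:b)` game, from the position where Maker owns `M`,
Breaker owns `B` and Maker is to move, Breaker has a winning strategy.  Either the board is
full and `M` contains no rainbow perfect matching, or the board is not full and for every
unclaimed element `e` Maker may claim, Breaker has a reply `F e` of exactly `b` unclaimed
elements (all the remaining ones if fewer than `b` are left) leading to such a position. -/
inductive BreakerWins {m : ℕ} (b : ℕ) : Finset (Board m) → Finset (Board m) → Prop
  | full (M B : Finset (Board m)) (h : M ∪ B = Finset.univ)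
      (hno : ¬ ∃ W, W ⊆ M ∧ IsRainbowPM W) : BreakerWins b M B
  | step (M B : Finset (Board m)) (F : Board m → Finset (Board m))
      (h : M ∪ B ≠ Finset.univ)
      (hfree : ∀ e, e ∉ M ∪ B → Disjoint (F e) (insert e (M ∪ B)))
      (hcard : ∀ e, e ∉ M ∪ B → (F e).card = min b (Finset.univ \ insert e (M ∪ B)).card)
      (hnext : ∀ e, e ∉ M ∪ B → BreakerWins b (insert e M) (B ∪ F e)) : BreakerWins b M B

/-- The threshold bias of the rainbow perfect matching game on `2 * m` vertices: the least
bias `b` for which Breaker wins the `(1:b)` game from the empty position. -/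
noncomputable def thresholdBias (m : ℕ) : ℕ :=
  sInf {b : ℕ | BreakerWins b (∅ : Finset (Board m)) ∅}

end Pool.Agent.Work.MP_6aef45_co
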