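import Pool.Agent.Work.MP_6aef45_co.Block

namespace Pool.Agent.Work.MP_6aef45_co
open Finset

variable {Pt : Type} [DecidableEq Pt] [Fintype Pt] {G : Game Pt}

/-- Conditions for the last phase. -/
structure PB (c : Srv G) : Prop where
  hlam : c.lam ≤ 1 / 32
  hm : G.m + 1 ≤ 2 * c.ρ0
  hp0 : Real.exp (-(c.σ / (32 * c.lam))) ≤ c.p0

/-- The room parameter of the last phase. -/
def Srv.μB (c : Srv G) : Bool → ℕ := fun τ => mult τ * c.ρ0 + G.Y

/-- The reserve. -/
noncomputable def Srv.Rf (c : Srv G) (u : ℝ) : ℝ :=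
  8 * c.p0 * Real.exp (4 * c.σ) / c.σ * (1 - Real.exp (-(c.σ * u / 8)))

/-- The buffer term. -/
noncomputable def Srv.Th (c : Srv G) (s : State Pt) (q : Bool → ℝ) : ℝ :=
  Real.exp (c.σ * (c.wt s - (q true + q false)) - c.σ * s.u / 4)

/-- The value of the buffer. -/
noncomputable def Srv.Val (c : Srv G) (s : State Pt) (q : Bool → ℝ) : ℝ :=
  if c.wt s ≤ 1 then c.Rf s.u else c.Th s q + c.Rf (s.u - 1)

/-- The remaining query quota. -/
noncomputable def Srv.quota (c : Srv G) (s : State Pt) : ℝ :=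
  ((G.Y : ℝ) - s.nq G) / (c.lam * c.ρ0)

/-- The escape part of the potential. -/
noncomputable def Srv.zz (c : Srv G) (s : State Pt) (q : Bool → ℝ) : ℝ :=
  (zL G c.ρ0 s.L s.fam s.h q true + zL G c.ρ0 s.L s.fam s.h q false) / c.lam

/-- The invariant of the last phase. -/
def Srv.InvB (c : Srv G) (s : State Pt) : Prop :=
  ∃ q : Bool → ℝ, (∀ τ, 0 ≤ q τ) ∧ c.zz s q + s.fam.card * (c.quota s + c.Val s q) < s.fam.card

variable {c : Srv G} {s : State Pt} {μ : Bool → ℕ}

lemma PB.p0_pos (hb : PB c) : 0 < c.p0 := (Real.exp_pos _).trans_le hb.hp0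

lemma PB.Rf_mono (hb : PB c) {u v : ℝ} (h : u ≤ v) : c.Rf u ≤ c.Rf v := by
  unfold Srv.Rf
  have := hb.p0_pos
  have := c.hσ
  refine mul_le_mul_of_nonneg_left ?_ (by positivity)
  have : Real.exp (-(c.σ * v / 8)) ≤ Real.exp (-(c.σ * u / 8)) :=
    Real.exp_le_exp.2 (by nlinarith)
  linarith

lemma PB.Rf_nonneg (hb : PB c) {u : ℝ} (h : 0 ≤ u) : 0 ≤ c.Rf u := by
  have := hb.Rf_mono h
  simpa [Srv.Rf] using this

lemma PB.Rf_le (hb : PB c) (u : ℝ) : c.Rf u ≤ 8 * c.p0 * Real.exp (4 * c.σ) / c.σ := by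
  unfold Srv.Rf
  have := hb.p0_pos
  have := c.hσ
  have h1 : 0 ≤ 8 * c.p0 * Real.exp (4 * c.σ) / c.σ := by positivity
  clear * - Pt G c u h1
  nlinarith [Real.exp_pos (-(c.σ * u / 8))]

lemma PB.Rf_step (hb : PB c) (u : ℝ) :
    c.Rf (u - 1) + c.p0 * Real.exp (4 * c.σ - c.σ * u / 8) ≤ c.Rf u := by
  unfold Srv.Rf
  have h0 := hb.p0_pos
  have hσ := c.hσ
  have e1 : Real.exp (-(c.σ * (u - 1) / 8)) = Real.exp (-(c.σ * u / 8)) * Real.exp (c.σ / 8) := by
    rw [← Real.exp_add]; congr 1; ring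
  have e2 : Real.exp (4 * c.σ - c.σ * u / 8) = Real.exp (4 * c.σ) * Real.exp (-(c.σ * u / 8)) := by
    rw [← Real.exp_add]; congr 1
  have e3 : c.σ / 8 + 1 ≤ Real.exp (c.σ / 8) := Real.add_one_le_exp _
  rw [e1, e2]
  have e4 : 0 ≤ 8 * c.p0 * Real.exp (4 * c.σ) / c.σ * Real.exp (-(c.σ * u / 8)) := by positivity
  have e5 := mul_le_mul_of_nonneg_left e3 e4
  have e6 : 8 * c.p0 * Real.exp (4 * c.σ) / c.σ * Real.exp (-(c.σ * u / 8)) * (c.σ / 8)
      = c.p0 * (Real.exp (4 * c.σ) * Real.exp (-(c.σ * u / 8))) := by field_simp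
  clear * - Pt G c u e5 e6
  linarith

lemma Struct.one_le_u (hs : Struct G μ s) (hP : s.P.Nonempty) : 1 ≤ s.u := by
  have a1 := hs.cnt true
  have a2 := hs.cnt false
  have a3 := card_sec_add G.ty s.P
  have a4 := hP.card_pos
  simp only [mult_true, mult_false] at a1 a2
  omega

lemma Srv.nonempty_of_wt (c : Srv G) (h : ¬ c.wt s ≤ 1) : s.P.Nonempty := by
  rw [nonempty_iff_ne_empty]
  intro hP
  apply h
  unfold Srv.wt; rw [hP]; simp

lemma PB.Val_nonneg (hb : PB c) (hs : Struct G μ s) (q : Bool → ℝ) : 0 ≤ c.Val s q := by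
  unfold Srv.Val
  split_ifs with h
  · exact hb.Rf_nonneg (Nat.cast_nonneg _)
  · have a1 : (1 : ℝ) ≤ s.u := by exact_mod_cast hs.one_le_u (c.nonempty_of_wt h)
    exact add_nonneg (Real.exp_pos _).le (hb.Rf_nonneg (by linarith))

lemma Srv.quota_nonneg (c : Srv G) (h : s.nq G ≤ G.Y) : 0 ≤ c.quota s := by
  unfold Srv.quota
  have a1 : (s.nq G : ℝ) ≤ G.Y := by exact_mod_cast h
  have := c.hlam
  exact div_nonneg (by linarith) (by positivity)

lemma Srv.quota_anti (c : Srv G) {s s' : State Pt} (h : s.nq G ≤ s'.nq G) :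
    c.quota s' ≤ c.quota s := by
  unfold Srv.quota
  have a1 : (s.nq G : ℝ) ≤ s'.nq G := by exact_mod_cast h
  have := c.hlam
  exact div_le_div_of_nonneg_right (by linarith) (by positivity)

lemma Struct.roomB (hs : Struct G c.μB s) (τ : Bool) :
    mult τ * c.ρ0 + s.h τ ≤ (sec G.ty s.L τ).card := by
  have a1 := hs.room τ
  have a2 := hs.nq_le
  unfold Srv.μB at a1
  omega

lemma Struct.h_le (hs : Struct G μ s) (τ : Bool) : s.h τ ≤ mult τ * s.u :=
  hs.cnt τ ▸ Nat.le_add_right _ _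

theorem PB.queryOK (hb : PB c) : QueryOK G c.μB c.InvB := by
  rintro s hs ⟨q, hq, hW⟩ v hv hd
  have hσ := c.hσ
  have hl := c.hlam
  have hl2 := hb.hlam
  have hρ : (1 : ℝ) ≤ c.ρ0 := by exact_mod_cast c.hρ0
  have hV := hb.Val_nonneg hs q
  have n1 : (s.rev G v).nq G = s.nq G + 1 := nq_erase G rfl rfl hv hd
  have n2 : (s.out v).nq G = s.nq G + 1 := nq_erase G rfl rfl hv hd
  have n3 : (s.rev G v).nq G ≤ G.Y := (card_le_card sdiff_subset).trans hs.hi_le
  have q1 : c.quota (s.rev G v) = c.quota s - 1 / (c.lam * c.ρ0) := by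
    unfold Srv.quota; rw [n1]; push_cast; ring
  have q2 : c.quota (s.out v) = c.quota s - 1 / (c.lam * c.ρ0) := by
    unfold Srv.quota; rw [n2]; push_cast; ring
  have hZ : ((s.rev G v).fam.card : ℝ) + (s.out v).fam.card = s.fam.card := by
    exact_mod_cast card_filter_add_card_filter_not (s := s.fam) (fun H => v ∈ H)
  have hz : c.zz (s.rev G v) (qin q (G.ty v)) + c.zz (s.out v) q
      ≤ c.zz s q + s.fam.card * (1 / (c.lam * c.ρ0)) := by
    clear * - Pt G c s v q hs hq hv hρ hl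
    have a1 := zL_query c.hρ0 hs.wf1 hq hv true (hs.roomB true)
    have a2 := zL_query c.hρ0 hs.wf1 hq hv false (hs.roomB false)
    have a3 : ((if true = G.ty v then (s.fam.card : ℝ) / c.ρ0 else 0)
        + if false = G.ty v then (s.fam.card : ℝ) / c.ρ0 else 0) = s.fam.card / c.ρ0 := by
      cases G.ty v <;> simp
    have a4 : (s.fam.card : ℝ) * (1 / (c.lam * c.ρ0)) = s.fam.card / c.ρ0 / c.lam := by
      field_simp
    unfold Srv.zz
    rw [a4, ← add_div, ← add_div]
    refine div_le_div_of_nonneg_right ?_ hl.le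
    simp only [State.rev, State.out]
    linarith
  have hqin : ∀ τ, 0 ≤ qin q (G.ty v) τ := fun τ => by
    clear * - q Pt G v τ hq c hl hl2
    unfold qin; have := hq τ; split_ifs <;> linarith
  by_cases hin : c.zz (s.rev G v) (qin q (G.ty v))
      + (s.rev G v).fam.card * (c.quota (s.rev G v) + c.Val s q) < (s.rev G v).fam.card
  · left
    obtain ⟨b1, -, b3⟩ := bound_of_lt c.hρ0 hqin hl (by clear * - Pt G c hl hl2 hV hin hqin n3; linarith)
      (add_nonneg (c.quota_nonneg n3) hV) hin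
    refine ⟨b1, qin q (G.ty v), hqin, lt_of_le_of_lt ?_ hin⟩
    suffices h : c.Val (s.rev G v) (qin q (G.ty v)) ≤ c.Val s q by
      have := mul_le_mul_of_nonneg_left h (Nat.cast_nonneg (α := ℝ) (s.rev G v).fam.card)
      linarith
    have w1 := c.wt_rev hs.dis hs.low hv
    have w2 : qin q (G.ty v) true + qin q (G.ty v) false = q true + q false + 1 := by
      unfold qin; cases G.ty v <;> simp <;> ring
    have w3 : c.Th (s.rev G v) (qin q (G.ty v)) = c.Th s q := by
      unfold Srv.Th; rw [w1, w2]; congr 1; simp only [State.rev]; ring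
    have w4 : (s.rev G v).u = s.u := rfl
    unfold Srv.Val
    rw [w3, w4, w1]
    by_cases h1 : c.wt s ≤ 1
    · rw [if_pos h1]
      split_ifs with h2
      · exact le_rfl
      · refine le_trans ?_ (hb.Rf_step s.u)
        rw [add_comm]
        refine add_le_add_right ?_ _
        have c1 := (b3 (G.ty v)).1
        have c2 : (((s.rev G v).h (G.ty v) : ℕ) : ℝ) ≤ 2 * s.u := by
          have d1 := hs.h_le (G.ty v)
          have d2 := Nat.mul_le_mul_right s.u (mult_le_two (G.ty v))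
          have d3 : (s.rev G v).h (G.ty v) ≤ 2 * s.u := by
            simp only [State.rev, dec, if_true]; omega
          exact_mod_cast d3
        have c3 : 1 ≤ qin q (G.ty v) (G.ty v) := by
          unfold qin; simp [hq]
        have c4 : 1 ≤ 4 * c.lam * s.u := by
          linarith only [c1, c3, mul_le_mul_of_nonneg_left c2 hl.le]
        have c5 : Real.exp (-(c.σ * s.u / 8)) ≤ c.p0 := by
          refine le_trans (Real.exp_le_exp.2 ?_) hb.hp0
          rw [neg_le_neg_iff, div_le_div_iff₀ (by positivity) (by norm_num)]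
          linarith only [mul_le_mul_of_nonneg_left c4 hσ.le]
        have c6 : c.Th s q ≤ Real.exp (-(c.σ * s.u / 8)) * Real.exp (4 * c.σ - c.σ * s.u / 8) := by
          rw [← Real.exp_add]
          unfold Srv.Th
          refine Real.exp_le_exp.2 ?_
          linarith only [hσ, mul_le_mul_of_nonneg_left h1 hσ.le, mul_nonneg hσ.le (hq true),
            mul_nonneg hσ.le (hq false)]
        exact c6.trans (mul_le_mul_of_nonneg_right c5 (Real.exp_pos _).le)
    · rw [if_neg h1, if_neg (by clear * - Pt G c s hl hl2 h1; linarith)]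
  · right
    have hout : c.zz (s.out v) q + (s.out v).fam.card * (c.quota (s.out v) + c.Val s q)
        < (s.out v).fam.card := by
      push Not at hin
      rw [q1] at hin
      rw [q2]
      rw [← hZ] at hW hz
      linarith only [hW, hz, hin]
    have n4 : (s.out v).nq G ≤ G.Y := (card_le_card sdiff_subset).trans hs.hi_le
    exact ⟨(bound_of_lt c.hρ0 hq hl (by clear * - Pt G c hl hl2 hV hout hq n4 q; linarith) (add_nonneg (c.quota_nonneg n4) hV) hout).1,
      q, hq, hout⟩

lemma sum_zz_pairs (c : Srv G) (hs : Struct G μ s) {q : Bool → ℝ} (hq : ∀ τ, 0 ≤ q τ)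
    (hq1 : ∀ τ, 0 ≤ qrev s.h q true τ) (τ : Bool) (hh1 : 1 ≤ s.h true)
    (hh2 : 1 ≤ dec s.h true τ) :
    ∑ y ∈ sec G.ty s.L true, ∑ z ∈ sec G.ty (s.L.erase y) τ,
      c.zz ((s.rev G y).rev G z) (qrev (dec s.h true) (qrev s.h q true) τ)
      ≤ s.h true * dec s.h true τ * c.zz s q := by
  have key : ∀ σ, ∑ y ∈ sec G.ty s.L true, ∑ z ∈ sec G.ty (s.L.erase y) τ,
      zL G c.ρ0 ((s.rev G y).rev G z).L ((s.rev G y).rev G z).fam ((s.rev G y).rev G z).h
        (qrev (dec s.h true) (qrev s.h q true) τ) σ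
      ≤ s.h true * dec s.h true τ * zL G c.ρ0 s.L s.fam s.h q σ := by
    intro σ
    have a1 := sum_zL_rev c.ρ0 hs.wf1 hq hh1 σ
    have a2 := mul_le_mul_of_nonneg_left a1 (Nat.cast_nonneg (α := ℝ) (dec s.h true τ))
    rw [mul_sum] at a2
    refine le_trans (sum_le_sum fun y hy => ?_) (a2.trans (le_of_eq (by ring)))
    rw [mem_sec] at hy
    have b1 := wf1_rev G hs.wf1 hy.1
    rw [hy.2] at b1
    refine le_trans (le_of_eq (sum_congr rfl fun z hz => ?_)) (sum_zL_rev c.ρ0 b1 hq1 hh2 σ)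
    simp only [State.rev]
    rw [hy.2, (mem_sec.1 hz).2]
  unfold Srv.zz
  simp_rw [← sum_div, sum_add_distrib]
  rw [← mul_div_assoc]
  refine div_le_div_of_nonneg_right ?_ c.hlam.le
  linarith [key true, key false]

theorem PB.serveOK (hb : PB c) : ServeOK G c.μB c.InvB := by
  rintro s hs ⟨q, hq, hW⟩ _ v hv _
  have hσ := c.hσ
  have hl := c.hlam
  have hl2 := hb.hlam
  have hV := hb.Val_nonneg hs q
  have hQ := c.quota_nonneg hs.nq_le
  have hu := hs.one_le_u ⟨v, hv⟩
  have hu' : (1 : ℝ) ≤ s.u := by exact_mod_cast hu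
  have hR := hb.Rf_nonneg (u := s.u - 1) (by linarith)
  obtain ⟨-, b2, b3⟩ := bound_of_lt c.hρ0 hq hl (by linarith) (add_nonneg hQ hV) hW
  have hcw := c.card_le_wt s
  obtain ⟨hh1, hh2⟩ := hs.supply hv (by
    clear * - Pt s G c hcw q hQ hR b2 hs b3 hσ hu' hl hl2
    by_cases h1 : c.wt s ≤ 1
    · right
      have : (s.P.card : ℝ) ≤ 1 := by linarith
      exact_mod_cast this
    · left
      have a1 : c.Th s q < 1 := by
        unfold Srv.Val at b2
        rw [if_neg h1] at b2
        linarith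
      unfold Srv.Th at a1
      rw [Real.exp_lt_one_iff] at a1
      have a2 : (s.h true : ℝ) ≤ 2 * s.u := by exact_mod_cast hs.h_le true
      have a3 : (s.h false : ℝ) ≤ s.u := by simpa using hs.h_le false
      have a4 := (b3 true).1
      have a5 := (b3 false).1
      have a6 : c.wt s - (q true + q false) < s.u / 4 := by
        refine lt_of_mul_lt_mul_left ?_ hσ.le
        linarith
      have a7 : (2 * s.P.card : ℝ) < s.u := by
        linarith only [hcw, a4, a5, a6, hu', mul_le_mul_of_nonneg_left a2 hl.le,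
          mul_le_mul_of_nonneg_left a3 hl.le, mul_le_mul_of_nonneg_right hl2 (zero_le_one.trans hu')]
      have a8 : 2 * s.P.card < s.u := by exact_mod_cast a7
      omega)
  set τ := !G.ty v with hτ
  have hh3 : 1 ≤ s.h τ := by
    refine hh2.trans ?_
    unfold dec; split_ifs <;> omega
  have hvL : v ∉ s.L := disjoint_left.1 hs.dis hv
  obtain ⟨p, hp1, hp0, hp2⟩ := c.test_ineq hs hv
  obtain ⟨r1, r2, r3⟩ := qrev_bound hq (fun τ => (b3 τ).1) hh1
  obtain ⟨r4, -, r6⟩ := qrev_bound r1 r2 hh2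
  set q2 := qrev (dec s.h true) (qrev s.h q true) τ with hq2
  have hz := sum_zz_pairs c hs hq r1 τ hh1 hh2
  have hf := fail_mass c.hρ0 (by have := hb.hm; omega) hs.wf1 hs.roomB (p := p) τ hh1
    ((b3 true).2 hh1) ((b3 τ).2 hh3) (fun y z => ind s.T {v, y, z}) (fun _ _ => ind_nonneg _ _)
    (fun _ _ => ind_le_one _ _) (by
      have := link_le hs.val v (sec G.ty s.L true) (sec G.ty s.L τ)
        (fun y hy => (mem_sec.1 hy).2) (fun h => hvL (mem_sec.1 h).1)
        (fun h => hvL (mem_sec.1 h).1)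
      simp only [← sec_erase] at this
      exact this.trans (mul_le_mul_of_nonneg_left hp1 (Nat.cast_nonneg _)))
  have hZ := sum_pairs_card hs τ
  set D1 := sec G.ty s.L true with hD1
  set tot : ℝ := s.h true * dec s.h true τ * s.fam.card with htot
  set Vf : ℝ := (if c.wt s ≤ 1 then Real.exp (3 * c.σ - c.σ * s.u / 4)
    else c.Th s q * Real.exp (9 * c.σ / 4)) + c.Rf (s.u - 1) with hVf
  set Vs : ℝ := (if c.wt s ≤ 1 then 0
    else c.Th s q * Real.exp (c.σ / 2 - c.σ * c.wv s.T v)) + c.Rf (s.u - 1) with hVs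
  set f : ℝ := ∑ y ∈ D1, ∑ z ∈ sec G.ty (s.L.erase y) τ,
    (((s.rev G y).rev G z).fam.card : ℝ) * ind s.T {v, y, z} with hfdef
  set g : ℝ := ∑ y ∈ D1, ∑ z ∈ sec G.ty (s.L.erase y) τ,
    (((s.rev G y).rev G z).fam.card : ℝ) * (1 - ind s.T {v, y, z}) with hgdef
  have hfg : f + g = tot := by
    rw [← hZ, hfdef, hgdef, ← sum_add_distrib]
    refine sum_congr rfl fun y _ => ?_
    rw [← sum_add_distrib]
    exact sum_congr rfl fun z _ => by ring
  have hf' : f ≤ p * tot := hf
  have hg0 : 0 ≤ g := sum_nonneg fun y _ => sum_nonneg fun z _ =>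
    mul_nonneg (Nat.cast_nonneg _) (by linarith [ind_le_one s.T {v, y, z}])
  have htot0 : 0 ≤ tot := by clear * - Pt s τ hh1 hh2 tot; positivity
  have hval : f * Vf + g * Vs ≤ tot * c.Val s q := by
    clear * - f Vf g Vs tot Pt G c s q hVf v hVs hl hl2 hv hσ hb htot0 hu' p hp0 hf' hfg hp2 hg0
    rw [hVf, hVs]
    unfold Srv.Val
    split_ifs with h1
    · have a1 : (deg s.T v : ℝ) ≤ G.θ1 := by
        have a2 : c.wv s.T v ≤ c.wt s :=
          single_le_sum (f := fun x => c.wv s.T x) (fun x _ => by linarith [c.one_le_wv s.T x]) hv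
        by_contra hc
        push Not at hc
        unfold Srv.wv at a2
        rw [max_eq_left (by linarith)] at a2
        have : 0 < ((deg s.T v : ℝ) - G.θ1) / (c.σ * G.θ0) :=
          div_pos (by linarith) (mul_pos hσ G.hθ0)
        linarith
      rw [hp0 a1] at hf'
      have a2 := mul_le_mul_of_nonneg_left (hb.Rf_step s.u) htot0
      have a3 : Real.exp (3 * c.σ - c.σ * s.u / 4) ≤ Real.exp (4 * c.σ - c.σ * s.u / 8) :=
        Real.exp_le_exp.2 (by linarith only [hσ, mul_nonneg hσ.le (zero_le_one.trans hu')])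
      have a4 := mul_le_mul hf' a3 (Real.exp_pos _).le (mul_nonneg hb.p0_pos.le htot0)
      rw [← hfg] at a2 a4 ⊢
      linarith only [a2, a4]
    · have a1 := mul_le_mul_of_nonneg_left
        (hp2 f g hg0 (by rw [hfg]; exact hf') (by rw [hfg]; exact htot0))
        (show 0 ≤ c.Th s q from (Real.exp_pos _).le)
      rw [← hfg]
      linarith only [a1]
  obtain ⟨y, hy, z, hz', hsel⟩ : ∃ y ∈ D1, ∃ z ∈ sec G.ty (s.L.erase y) τ,
      c.zz ((s.rev G y).rev G z) q2 + ((s.rev G y).rev G z).fam.card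
        * (c.quota s + (ind s.T {v, y, z} * Vf + (1 - ind s.T {v, y, z}) * Vs))
        < ((s.rev G y).rev G z).fam.card := by
    clear * - Pt D1 G s τ c q2 v Vf Vs hh1 hh2 q hW f g tot htot hval hgdef hfdef hZ hz
    by_contra hcon
    push Not at hcon
    have a1 := sum_le_sum (s := D1) fun y hy => sum_le_sum fun z hz => hcon y hy z hz
    simp_rw [mul_add, ← mul_assoc, sum_add_distrib, ← sum_mul] at a1
    rw [hZ, ← hfdef, ← hgdef] at a1
    have a2 : (0 : ℝ) < s.h true * dec s.h true τ := by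
      have : 0 < s.h true * dec s.h true τ := Nat.mul_pos hh1 hh2
      exact_mod_cast this
    have a3 := mul_lt_mul_of_pos_left hW a2
    rw [htot] at hval a1
    linarith only [hval, a1, a3, hz]
  have hy' := mem_sec.1 hy
  have hz'' := mem_sec.1 hz'
  have hsub : (s.L.erase y).erase z ⊆ s.L := (erase_subset _ _).trans (erase_subset _ _)
  have hVf0 : 0 ≤ Vf := by
    rw [hVf]; unfold Srv.Th
    split_ifs <;> positivity
  have hVs0 : 0 ≤ Vs := by
    clear * - Vs Pt G c s q v hVs hR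
    rw [hVs]; unfold Srv.Th
    split_ifs <;> positivity
  refine ⟨y, hy'.1, z, hz''.1, hy'.2, hz''.2, ?_, ?_, ?_⟩
  · refine (bound_of_lt c.hρ0 r4 hl (by clear * - Pt G c hl hl2 hQ hVf0 hVs0 hsel r4 s v y z; linarith) (add_nonneg hQ ?_) hsel).1
    exact add_nonneg (mul_nonneg (ind_nonneg _ _) hVf0)
      (mul_nonneg (by clear * - Pt s v y z hVs0; linarith [ind_le_one s.T {v, y, z}]) hVs0)
  · intro hT
    refine ⟨q2, r4, lt_of_le_of_lt ?_ hsel⟩
    refine add_le_add_right (mul_le_mul_of_nonneg_left (add_le_add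
      (c.quota_anti (nq_le_of G (s := s) (s' := (s.rev G y).rev G z) (subset_refl _) hsub)) ?_) (Nat.cast_nonneg _)) _
    have w1 := c.wt_rev_rev hs hy'.1 hz''.1
    have w2 := c.wt_nonneg s
    simp only [ind, if_pos hT, one_mul, sub_self, zero_mul, add_zero]
    unfold Srv.Val
    rw [if_neg (by clear * - Pt G c s y z hl hl2 hcw w1 hVf; linarith), hVf]
    refine add_le_add ?_ le_rfl
    unfold Srv.Th
    rw [w1, ← Real.exp_add]
    change Real.exp (_ - c.σ * s.u / 4) ≤ _
    split_ifs with h1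
    · refine Real.exp_le_exp.2 ?_
      linarith only [mul_le_mul_of_nonneg_left h1 hσ.le, mul_nonneg hσ.le (r4 true),
        mul_nonneg hσ.le (r4 false)]
    · refine Real.exp_le_exp.2 ?_
      linarith only [mul_le_mul_of_nonneg_left r3 hσ.le, mul_le_mul_of_nonneg_left r6 hσ.le,
        mul_le_mul_of_nonneg_left hl2 hσ.le, hσ]
  · intro hT T' hT1 hT2 hT3
    refine ⟨q2, r4, lt_of_le_of_lt ?_ hsel⟩
    refine add_le_add_right (mul_le_mul_of_nonneg_left (add_le_add
      (c.quota_anti (nq_le_of G hT1 hsub)) ?_) (Nat.cast_nonneg _)) _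
    have w1 := c.wt_cov hs hv hy'.1 hz''.1 hT1 hT2 hT3
    have w2 : (((((s.rev G y).rev G z).cov {v, y, z} T').u : ℕ) : ℝ) = s.u - 1 := by
      simp only [State.cov, State.rev]
      rw [Nat.cast_sub hu, Nat.cast_one]
    simp only [ind, if_neg hT, one_mul, sub_zero, zero_mul, zero_add]
    unfold Srv.Val
    rw [w2, hVs]
    have w3 := c.one_le_wv s.T v
    by_cases h1 : c.wt s ≤ 1
    · rw [if_pos h1, if_pos (by clear * - Pt G c s y z v T' hl hl2 w1 w3 h1; linarith), zero_add]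
    · rw [if_neg h1]
      have w4 : 0 ≤ c.Th s q * Real.exp (c.σ / 2 - c.σ * c.wv s.T v) := by
        unfold Srv.Th; positivity
      split_ifs with h2
      · clear * - Pt G c s q v w4
        linarith
      · refine add_le_add ?_ (hb.Rf_mono (by clear * - Pt s G c hl hl2 hb hσ r3 r6 w1 w2; linarith))
        unfold Srv.Th
        rw [w2, ← Real.exp_add]
        refine Real.exp_le_exp.2 ?_
        clear * - Pt G c s y z v T' q2 q r3 hσ r6 hl2 w1
        linarith only [mul_le_mul_of_nonneg_left r3 hσ.le, mul_le_mul_of_nonneg_left r6 hσ.le,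
          mul_le_mul_of_nonneg_left hl2 hσ.le, hσ, mul_le_mul_of_nonneg_left w1 hσ.le]

theorem PB.revealOne (hb : PB c) (hs : Struct G μ s) (hI : c.InvB s) (hP : s.P = ∅)
    (hu : 1 ≤ s.u) : ∃ y ∈ s.L, (s.rev G y).fam.Nonempty ∧ c.InvB (s.rev G y) := by
  obtain ⟨q, hq, hW⟩ := hI
  have hl := c.hlam
  have hl2 := hb.hlam
  have hV := hb.Val_nonneg hs q
  have hQ := c.quota_nonneg hs.nq_le
  obtain ⟨-, -, b3⟩ := bound_of_lt c.hρ0 hq hl (by linarith) (add_nonneg hQ hV) hW
  have hh : 1 ≤ s.h false := by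
    have := hs.cnt false
    rw [hP] at this; simp [sec] at this; omega
  obtain ⟨r1, -, -⟩ := qrev_bound hq (fun τ => (b3 τ).1) hh
  have hz : ∑ y ∈ sec G.ty s.L false, c.zz (s.rev G y) (qrev s.h q false)
      ≤ s.h false * c.zz s q := by
    have key : ∀ σ, ∑ y ∈ sec G.ty s.L false,
        zL G c.ρ0 (s.rev G y).L (s.rev G y).fam (s.rev G y).h (qrev s.h q false) σ
        ≤ s.h false * zL G c.ρ0 s.L s.fam s.h q σ := by
      intro σ
      refine le_trans (le_of_eq (sum_congr rfl fun y hy => ?_)) (sum_zL_rev c.ρ0 hs.wf1 hq hh σ)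
      simp only [State.rev]
      rw [(mem_sec.1 hy).2]
    unfold Srv.zz
    simp_rw [← sum_div, sum_add_distrib]
    rw [← mul_div_assoc]
    refine div_le_div_of_nonneg_right ?_ c.hlam.le
    linarith [key true, key false]
  obtain ⟨y, hy, hsel⟩ : ∃ y ∈ sec G.ty s.L false, c.zz (s.rev G y) (qrev s.h q false)
      + (s.rev G y).fam.card * (c.quota s + c.Val s q) < (s.rev G y).fam.card := by
    by_contra hcon
    push Not at hcon
    have a1 := sum_le_sum (s := sec G.ty s.L false) fun y hy => hcon y hy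
    rw [sum_add_distrib, ← sum_mul] at a1
    have hZ : ∑ y ∈ sec G.ty s.L false, ((s.rev G y).fam.card : ℝ) = s.h false * s.fam.card :=
      sum_card_filter_mem (fun H hH => hs.wf1 H hH false)
    rw [hZ] at a1
    have a2 : (0 : ℝ) < s.h false := by exact_mod_cast hh
    have a3 := mul_lt_mul_of_pos_left hW a2
    linarith
  have hy' := mem_sec.1 hy
  refine ⟨y, hy'.1, (bound_of_lt c.hρ0 r1 hl (by linarith) (add_nonneg hQ hV) hsel).1,
    qrev s.h q false, r1, lt_of_le_of_lt ?_ hsel⟩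
  refine add_le_add_right (mul_le_mul_of_nonneg_left (add_le_add
    (c.quota_anti (nq_le_of G (s := s) (s' := s.rev G y) (subset_refl _) (erase_subset _ _))) ?_) (Nat.cast_nonneg _)) _
  have w0 : c.wt s = 0 := by unfold Srv.wt; rw [hP]; simp
  have w1 := c.wt_rev hs.dis hs.low hy'.1
  unfold Srv.Val
  rw [if_pos (by linarith), if_pos (by linarith)]
  exact le_rfl

theorem PB.win (hb : PB c) (s : State Pt) (hs : Struct G c.μB s) (hI : c.InvB s) : False := by
  induction' hn : s.L.card using Nat.strong_induction_on with n ih generalizing s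
  obtain ⟨s', h1, h2, h3, -, h5, -⟩ := engine hb.queryOK hb.serveOK s hs hI
  rcases Nat.eq_zero_or_pos s'.u with hu | hu
  · obtain ⟨H, hH⟩ := h1.ne
    have a1 := h1.cov H hH
    have a2 : H ∩ s'.L = ∅ := by
      rw [eq_empty_iff_forall_notMem]
      intro x hx
      have b1 := h1.wf1 H hH (G.ty x)
      have b2 := h1.h_le (G.ty x)
      rw [hu, mul_zero, Nat.le_zero] at b2
      rw [b2, card_eq_zero] at b1
      rw [mem_inter] at hx
      exact notMem_empty x (b1 ▸ mem_inter.2 ⟨mem_sec.2 ⟨hx.2, rfl⟩, hx.1⟩)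
    rw [a2, h3, union_empty] at a1
    exact G.noPM _ _ h1.bad a1
  · obtain ⟨y, hy, a1, a2⟩ := hb.revealOne h1 h2 h3 hu
    refine ih _ ?_ _ (h1.rev hy a1) a2 rfl
    exact lt_of_lt_of_le (card_erase_lt_of_mem hy) (hn ▸ h5)

end Pool.Agent.Work.MP_6aef45_co
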