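import Mathlib
import Pool.Agent.Work.MP_6aef45_co.Block
import Pool.Agent.Work.MP_6aef45_co.PhaseB
import Pool.Agent.Work.MP_6aef45_co.Defs

-- merged part: Pool.Agent.Work.MP_6aef45_co.Consts
section
namespace Pool.Agent.Work.MP_6aef45_co

/-- The constants that do not depend on the size of the board. -/
structure Consts (ε : ℝ) where
  σ : ℝ
  p0 : ℝ
  lam : ℝ
  η : ℝ
  g : ℝ
  κ : ℝ
  x : ℝ
  δ : ℝ
  t : ℝ
  p : ℝ
  γ : ℝ
  e : ℝ
  β : ℝ
  k : ℕ
  σ0 : 0 < σ
  σ1 : σ ≤ 1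
  lam0 : 0 < lam
  η0 : 0 ≤ η
  g0 : 0 < g
  κ0 : 0 < κ
  x0 : 0 < x
  x1 : x ≤ 1
  t0 : 0 < t
  pp0 : 0 ≤ p
  pp1 : p ≤ 1
  γ0 : 0 ≤ γ
  γ1 : γ ≤ 1
  e0 : 0 < e
  β0 : 0 < β
  k1 : 1 ≤ k
  hlow : p0 * Real.exp (9 * σ / 4) + (1 - p0) * Real.exp (-σ / 2) ≤ 1
  hhigh : (1 - ε / 8) * Real.exp (9 * σ / 4) + (1 - (1 - ε / 8)) * Real.exp (-1) ≤ 1
  hp0 : Real.exp (-(σ / (32 * lam))) ≤ p0
  hlam1 : lam ≤ 1 / 32
  hlam2 : 12 * lam ≤ p0
  hlam3 : 48 * lam ≤ ε
  hη : 4 * η / lam ≤ 1 / 4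
  hC : 8 * p0 * Real.exp (4 * σ) / σ ≤ 1 / 4
  hcost : Real.exp (-(4 * γ)) ≤ (1 - γ) * (1 + 0) - γ
  hgain : Real.exp g ≤ (1 - γ) * (1 + η / 2) - γ
  hg : g ≤ σ / 4
  hκ : 512 * κ ≤ g * ε
  hx : 24 * x ≤ κ
  hδ : 48 * δ ≤ κ * x
  hδ2 : 256 * δ ≤ ε
  ht : 40 * t ≤ δ
  ht2 : 4 * t ≤ lam
  ht3 : 4 * t ≤ κ
  hp : 32 * p ≤ t ^ 3
  hk : (1 - p) ^ k ≤ γ
  hγ : 16 * γ ≤ κ
  he1 : 16384 * k * e ≤ γ * ε ^ 2
  he2 : 12 * e ≤ p0
  he3 : 4 * e ≤ ε
  hβ1 : 24 * β ≤ σ * e
  hβ2 : 24 * k * β ≤ t * e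

lemma exp_le_aux {y : ℝ} (h0 : 0 ≤ y) (h1 : y ≤ 1 / 2) : Real.exp y ≤ 1 + 2 * y := by
  have h2 := Real.add_one_le_exp (-y)
  have h3 : Real.exp y * Real.exp (-y) = 1 := by rw [← Real.exp_add]; simp
  have h4 := Real.exp_pos y
  (refine le_of_not_gt fun h_nl => ?_; linarith only [h_nl, h3, h2, h4, h0, h1, mul_le_mul_of_nonneg_left h2 h4.le, mul_nonneg_of_nonpos_of_nonpos (Mathlib.Tactic.Linarith.sub_nonpos_of_le h0) (Mathlib.Tactic.Linarith.sub_nonpos_of_le h1), mul_nonneg_of_nonpos_of_nonpos (Mathlib.Tactic.Linarith.sub_nonpos_of_le h1) (le_of_lt (Mathlib.Tactic.Linarith.sub_neg_of_lt h_nl))])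

lemma exp_neg_le_aux {y : ℝ} (h0 : 0 ≤ y) (h1 : y ≤ 1) : Real.exp (-y) ≤ 1 - y / 2 := by
  have h2 := Real.add_one_le_exp y
  have h3 : Real.exp (-y) * Real.exp y = 1 := by rw [← Real.exp_add]; simp
  have h4 := Real.exp_pos (-y)
  by_contra hc
  push Not at hc
  linarith only [h3, h2, h4, hc, h0, h1, mul_le_mul_of_nonneg_left h2 h4.le, mul_lt_mul_of_pos_right hc (show 0 < y + 1 by linarith), mul_nonneg_of_nonpos_of_nonpos (Mathlib.Tactic.Linarith.sub_nonpos_of_le h0) (Mathlib.Tactic.Linarith.sub_nonpos_of_le h1)]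

lemma exp_neg_le_inv {y : ℝ} (h0 : 0 < y) : Real.exp (-y) ≤ 1 / y := by
  have h2 := Real.add_one_le_exp y
  rw [Real.exp_neg, inv_eq_one_div]
  exact one_div_le_one_div_of_le h0 (by linarith)

theorem exists_consts {ε : ℝ} (h0 : 0 < ε) (h1 : ε ≤ 1) : Nonempty (Consts ε) := by
  obtain ⟨σ, hσ⟩ : ∃ σ : ℝ, σ = ε / 80 := ⟨_, rfl⟩
  have σ0 : 0 < σ := by linarith only [h0, hσ]
  have σ1 : σ ≤ 1 / 80 := by linarith only [h1, hσ]
  obtain ⟨p0, hp0⟩ : ∃ p0 : ℝ, p0 = σ / 64 := ⟨_, rfl⟩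
  have p00 : 0 < p0 := by linarith only [hp0, σ0]
  have p01 : p0 ≤ 1 / 64 := by linarith only [hp0, σ1]
  obtain ⟨lam, hlam⟩ : ∃ lam : ℝ, lam = p0 * σ / 32 := ⟨_, rfl⟩
  have lam0 : 0 < lam := by rw [hlam]; positivity
  have lam1 : 32 * lam ≤ p0 := by
    have := mul_le_mul_of_nonneg_left (show σ ≤ 1 by linarith only [σ1]) p00.le
    linarith only [this, hlam]
  obtain ⟨η, hη⟩ : ∃ η : ℝ, η = lam / 16 := ⟨_, rfl⟩
  have η1 : η ≤ 1 := by linarith only [hη, lam1, p01]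
  obtain ⟨g, hg⟩ : ∃ g : ℝ, g = η / 8 := ⟨_, rfl⟩
  have g0 : 0 < g := by linarith only [hg, hη, lam0]
  have g1 : g ≤ 1 / 8 := by linarith only [hg, η1]
  obtain ⟨κ, hκ⟩ : ∃ κ : ℝ, κ = g * ε / 512 := ⟨_, rfl⟩
  have κ0 : 0 < κ := by rw [hκ]; positivity
  have κ1 : 512 * κ ≤ g := by
    have := mul_le_mul_of_nonneg_left h1 g0.le
    linarith only [this, hκ]
  have κ2 : 512 * κ ≤ ε := by
    have := mul_le_mul_of_nonneg_right (show g ≤ 1 by linarith only [g1]) h0.le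
    linarith only [this, hκ]
  obtain ⟨x, hx⟩ : ∃ x : ℝ, x = κ / 24 := ⟨_, rfl⟩
  have x0 : 0 < x := by linarith only [hx, κ0]
  have x1 : x ≤ 1 := by linarith only [hx, κ2, h1]
  obtain ⟨δ, hδ⟩ : ∃ δ : ℝ, δ = κ * x / 48 := ⟨_, rfl⟩
  have δ0 : 0 < δ := by rw [hδ]; positivity
  have δ1 : 48 * δ ≤ κ := by
    have := mul_le_mul_of_nonneg_left x1 κ0.le
    linarith only [this, hδ]
  obtain ⟨t, ht⟩ : ∃ t : ℝ, t = δ / 40 := ⟨_, rfl⟩
  have t0 : 0 < t := by linarith only [ht, δ0]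
  have t1 : t ≤ 1 := by linarith only [ht, δ1, κ2, h1]
  obtain ⟨p, hp⟩ : ∃ p : ℝ, p = t ^ 3 / 32 := ⟨_, rfl⟩
  have pp0 : 0 < p := by rw [hp]; positivity
  have pp1 : p ≤ 1 := by
    have : t ^ 3 ≤ 1 := pow_le_one₀ t0.le t1
    linarith only [this, hp]
  obtain ⟨γ, hγ⟩ : ∃ γ : ℝ, γ = κ / 16 := ⟨_, rfl⟩
  have γ0 : 0 < γ := by linarith only [hγ, κ0]
  have γ1 : 8192 * γ ≤ 1 := by linarith only [hγ, κ2, h1]
  obtain ⟨k', hk'⟩ := exists_pow_lt_of_lt_one γ0 (show 1 - p < 1 by linarith only [pp0])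
  have hk : (1 - p) ^ (k' + 1) ≤ γ :=
    (pow_le_pow_of_le_one (by linarith only [pp1]) (by linarith only [pp0])
      (Nat.le_succ k')).trans hk'.le
  obtain ⟨k, hkk⟩ : ∃ k : ℕ, k = k' + 1 := ⟨_, rfl⟩
  rw [← hkk] at hk
  have k1 : 1 ≤ k := by omega
  have k1' : (1 : ℝ) ≤ k := by exact_mod_cast k1
  obtain ⟨e, he⟩ : ∃ e : ℝ, e = γ * ε ^ 2 / (16384 * k) := ⟨_, rfl⟩
  have e0 : 0 < e := by rw [he]; positivity
  have e1 : 16384 * k * e = γ * ε ^ 2 := by rw [he]; field_simp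
  have e2 : e ≤ γ := by
    have a1 : ε ^ 2 ≤ 1 := pow_le_one₀ h0.le h1
    have a2 := mul_le_mul_of_nonneg_left a1 γ0.le
    have a3 := mul_le_mul_of_nonneg_right k1' e0.le
    linarith only [a2, a3, e1, e0]
  obtain ⟨β, hβ⟩ : ∃ β : ℝ, β = e * t * σ / (24 * k) := ⟨_, rfl⟩
  have β0 : 0 < β := by rw [hβ]; positivity
  have β1 : 24 * k * β = e * t * σ := by rw [hβ]; field_simp
  have a1 := exp_le_aux (y := 9 * σ / 4) (by linarith only [σ0]) (by linarith only [σ1])
  refine ⟨⟨σ, p0, lam, η, g, κ, x, δ, t, p, γ, e, β, k, σ0, by linarith only [σ1], lam0,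
    by linarith only [hη, lam0], g0, κ0, x0, x1, t0, pp0.le, pp1, γ0.le, by linarith only [γ1], e0,
    β0, k1, ?_, ?_, ?_, by linarith only [lam1, p01], by linarith only [lam1, lam0],
    by linarith only [lam1, hp0, hσ, h0], ?_, ?_, ?_, ?_,
    by linarith only [hg, hη, lam1, hp0, σ0], by linarith only [hκ], by linarith only [hx],
    by linarith only [hδ], by linarith only [δ1, κ2, h0], by linarith only [ht],
    by linarith only [ht, δ1, κ1, hg, hη, lam0], by linarith only [ht, δ1, κ0],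
    by linarith only [hp], hk, by linarith only [hγ], e1.le,
    by linarith only [e2, hγ, κ1, hg, hη, lam1, p00], by linarith only [e2, hγ, κ2, h0], ?_, ?_⟩⟩
  · have a2 := exp_neg_le_aux (y := σ / 2) (by linarith only [σ0]) (by linarith only [σ1])
    rw [neg_div]
    have a3 := mul_le_mul_of_nonneg_left a1 p00.le
    have a4 := mul_le_mul_of_nonneg_left a2 (show 0 ≤ 1 - p0 by linarith only [p01])
    have a5 := mul_le_mul_of_nonneg_right p01 σ0.le
    linarith only [a3, a4, a5, σ0]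
  · have a2 := exp_neg_le_aux (y := 1) zero_le_one le_rfl
    have a3 := mul_le_mul_of_nonneg_left a1 (show 0 ≤ 1 - ε / 8 by linarith only [h1])
    have a4 := mul_le_mul_of_nonneg_left a2 (show 0 ≤ 1 - (1 - ε / 8) by linarith only [h0])
    have a5 := mul_pos h0 σ0
    linarith only [a3, a4, a5, hσ, h0]
  · refine (exp_neg_le_inv (by positivity)).trans (le_of_eq ?_)
    rw [hlam]; field_simp
  · rw [hη]; apply le_of_eq; field_simp; norm_num
  · have a2 := exp_le_aux (y := 4 * σ) (by linarith only [σ0]) (by linarith only [σ1])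
    rw [div_le_iff₀ σ0]
    have a3 := mul_le_mul_of_nonneg_left
      (show Real.exp (4 * σ) ≤ 2 by linarith only [a2, σ1]) p00.le
    linarith only [a3, hp0]
  · have a2 := exp_neg_le_aux (y := 4 * γ) (by linarith only [γ0]) (by linarith only [γ1])
    linarith only [a2]
  · have a2 := exp_le_aux (y := g) g0.le (by linarith only [g1])
    have a3 := mul_le_mul_of_nonneg_left η1 γ0.le
    linarith only [a2, a3, hg, hγ, κ1, g0]
  · have a2 := mul_le_mul_of_nonneg_left t1 (mul_pos e0 σ0).le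
    have a3 := mul_le_mul_of_nonneg_right k1' β0.le
    linarith only [a2, a3, β1]
  · have a2 := mul_le_mul_of_nonneg_left (show σ ≤ 1 by linarith only [σ1]) (mul_pos e0 t0).le
    linarith only [a2, β1]

end Pool.Agent.Work.MP_6aef45_co
end

-- merged part: Pool.Agent.Work.MP_6aef45_co.Final
section
-- merged part: Pool.Agent.Work.MP_6aef45_co.Main
section
namespace Pool.Agent.Work.MP_6aef45_co
open Finset

variable {Pt : Type} [DecidableEq Pt] [Fintype Pt] {G : Game Pt}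

/-- The remaining constants. -/
structure Par (c : Srv G) where
  m0 : ℕ
  s0 : ℕ
  rem : ℕ
  u1 : ℕ
  u2 : ℕ
  k : ℕ
  r0 : ℕ
  x : ℝ
  γ : ℝ
  γA : ℝ
  g : ℝ
  η : ℝ
  p : ℝ
  Bud : ℝ
  hb : PB c
  hk : G.K = 2 * k
  h0a : 4 * (17 * c.σ / 16 * G.Y + 1 + 17 * c.σ / 16 * (3 * m0)) ≤ c.σ * s0
  h0b : 4 * s0 ≤ rem
  hroom : c.ρ0 + rem + u1 + G.Y ≤ G.m
  hu2 : 1 ≤ u2
  hu1 : 1 ≤ u1
  hx0 : 0 < x
  hx1 : x ≤ 1
  hBud : 3 * G.m * x + 3 * s0 / x + 9 * c.σ / 8 * G.Y + γA * G.m < Bud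
  hB1 : Bud ≤ g * ((u1 : ℝ) - u2)
  hB2 : Bud ≤ c.σ * ((u2 : ℝ) - 1)
  hB3 : 16 * Bud ≤ c.σ * rem
  hg0 : 0 < g
  hg1 : g ≤ c.σ / 4
  hγA : 0 ≤ γA
  hr0 : r0 + G.Y ≤ m0
  hp0 : 0 ≤ p
  hp1 : p ≤ 1
  hγ : (1 - p) ^ k ≤ γ
  hγ1 : γ ≤ 1
  hpr : p * (4 * (G.m : ℝ) ^ 3) ≤ (r0 : ℝ) ^ 3
  hloss : G.K * G.θ1 ≤ γ * (u2 * (2 * u2 - 1))
  hfree : 2 * G.θ1 < (2 * c.ρ0 : ℝ) ^ 2
  hcost : Real.exp (-γA) ≤ (1 - γ) * (1 + 0) - γ
  hgain : Real.exp g ≤ (1 - γ) * (1 + η / 2) - γ
  hη : 0 ≤ η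
  hfin : 4 * η / c.lam + G.Y / (c.lam * c.ρ0) + 8 * c.p0 * Real.exp (4 * c.σ) / c.σ < 1

variable {c : Srv G}

/-- The potential data of the initial phase. -/
noncomputable def Par.a0 (r : Par c) : PA G c where
  J := fun l => c.σ / 16 * (3 * G.m - l) - 17 * c.σ / 16 * min (3 * (G.m : ℝ) - l) (3 * r.m0)
  Gf := fun u => c.σ / 4 * (G.m - u)
  Bud := 17 * c.σ / 16 * G.Y + 1
  rem := r.rem
  hJ := by
    intro k
    have hσ := c.hσ
    have : min (3 * (G.m : ℝ) - ((k + 1 : ℕ) : ℝ)) (3 * r.m0) ≤ min (3 * (G.m : ℝ) - k) (3 * r.m0) :=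
      min_le_min (by push_cast; linarith) le_rfl
    push_cast at this ⊢
    nlinarith
  hG := by intro u; push_cast; linarith
  hsup := by
    intro l u x hl hu hx h
    have hσ := c.hσ
    have a1 : (l : ℝ) ≤ 3 * G.m := by exact_mod_cast hl
    have a2 : (u : ℝ) ≤ G.m := by exact_mod_cast hu
    have a3 := min_le_right (3 * (G.m : ℝ) - l) (3 * r.m0)
    have a4 := r.h0a
    have a5 : c.σ * x + c.σ / 16 * (3 * G.m - l) + c.σ / 4 * (G.m - u) < c.σ * r.s0 / 4 := by
      nlinarith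
    have a6 : x + (3 * G.m - l) / 16 + (G.m - u) / 4 < r.s0 / 4 := by
      refine lt_of_mul_lt_mul_left ?_ hσ.le
      linarith
    have a7 : (4 * r.s0 : ℝ) ≤ r.rem := by exact_mod_cast r.h0b
    have a8 : r.rem + 1 ≤ G.m := by have := r.hroom; have := r.hu1; omega
    have a9 : (r.rem : ℝ) + 1 ≤ G.m := by exact_mod_cast a8
    have a10 : (0 : ℝ) ≤ r.s0 := Nat.cast_nonneg _
    refine ⟨by linarith, ?_⟩
    have : (3 * G.m : ℝ) ≤ l + r.rem := by linarith
    exact_mod_cast this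
  hrem := by have := r.hroom; have := r.hu1; omega

/-- The potential data of the main phase. -/
noncomputable def Par.a1 (r : Par c) : PA G c where
  J := fun l => c.σ / 16 * (3 * G.m - l)
  Gf := fun u => r.γA * max ((u : ℝ) - r.u1) 0 + r.g * max ((r.u1 : ℝ) - u) 0
  Bud := r.Bud
  rem := r.rem
  hJ := by intro k; push_cast; linarith
  hG := by
    intro u
    have a1 : max ((u : ℝ) - r.u1) 0 ≤ max (((u + 1 : ℕ) : ℝ) - r.u1) 0 :=
      max_le_max (by push_cast; linarith) le_rfl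
    have a2 : max ((r.u1 : ℝ) - u) 0 ≤ max ((r.u1 : ℝ) - ((u + 1 : ℕ) : ℝ)) 0 + 1 := by
      refine max_le ?_ ?_
      · have := le_max_left ((r.u1 : ℝ) - ((u + 1 : ℕ) : ℝ)) 0
        push_cast at this ⊢; linarith
      · have := le_max_right ((r.u1 : ℝ) - ((u + 1 : ℕ) : ℝ)) 0
        linarith
    have := mul_le_mul_of_nonneg_left a1 r.hγA
    have := mul_le_mul_of_nonneg_left a2 r.hg0.le
    linarith [r.hg1]
  hsup := by
    intro l u x hl hu hx h
    have hσ := c.hσ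
    have a1 : (l : ℝ) ≤ 3 * G.m := by exact_mod_cast hl
    have a2 := mul_nonneg r.hγA (le_max_right ((u : ℝ) - r.u1) 0)
    have a3 := mul_nonneg r.hg0.le (le_max_right ((r.u1 : ℝ) - u) 0)
    have a4 := mul_le_mul_of_nonneg_left (le_max_left ((r.u1 : ℝ) - u) 0) r.hg0.le
    have a5 := mul_nonneg hσ.le hx
    have a6 : 0 ≤ c.σ / 16 * (3 * G.m - l) := mul_nonneg (by linarith) (by linarith)
    have b1 : (r.u1 : ℝ) - u < r.u1 - r.u2 :=
      lt_of_mul_lt_mul_left (by linarith [r.hB1]) r.hg0.le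
    have b2 : x < (r.u2 : ℝ) - 1 := lt_of_mul_lt_mul_left (by linarith [r.hB2]) hσ.le
    have b3 : (3 * G.m - l : ℝ) < r.rem := lt_of_mul_lt_mul_left (by linarith [r.hB3]) hσ.le
    refine ⟨by linarith, ?_⟩
    have : (3 * G.m : ℝ) ≤ l + r.rem := by linarith
    exact_mod_cast this
  hrem := by have := r.hroom; have := r.hu1; omega

lemma Struct.h_le_sec {μ : Bool → ℕ} {s : State Pt} (hs : Struct G μ s) (τ : Bool) :
    s.h τ ≤ (sec G.ty s.L τ).card := by
  obtain ⟨H, hH⟩ := hs.ne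
  rw [← hs.wf1 H hH τ]; exact card_le_card inter_subset_left

lemma Game.θ0_le (G : Game Pt) : G.θ0 ≤ G.θ1 := by
  have : (0 : ℝ) ≤ G.K * G.b1 := by positivity
  linarith [G.hθ1]

theorem Par.start (r : Par c) (h : G.Bad ∅ ∅) :
    ∃ s : State Pt, Struct G (fun _ => 0) s ∧ r.a0.Inv s := by
  have hlow : ∀ v : Pt, (deg (∅ : Finset (Finset Pt)) v : ℝ) ≤ G.θ1 := by
    intro v
    simp only [deg, filter_empty, card_empty, Nat.cast_zero]
    linarith [G.θ0_le, G.hθ0]
  refine ⟨⟨univ, {univ}, ∅, ∅, ∅, fun τ => mult τ * G.m, G.m⟩,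
    ⟨?_, ?_, by simp, by simp, ?_, ?_, h, by simp, by simp, le_rfl, fun v _ => hlow v,
      box_of_low fun v _ => hlow v, ?_⟩, ?_⟩
  · intro H hH τ
    simp only [mem_singleton] at hH
    simp [hH, G.hty]
  · intro H hH H' hH'
    simp only [mem_singleton] at hH hH'
    rw [hH, hH']
  · intro τ; simp [sec]
  · intro H hH
    simp only [mem_singleton] at hH
    exact ⟨∅, by simp, by simp [hH], by simp⟩
  · intro τ; simp [G.hty]
  · unfold PA.Inv PA.pot NN
    simp only [G.hty, Nat.choose_self, card_singleton, Nat.cast_one, one_mul, Real.exp_lt_exp,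
      Par.a0, Srv.wt, sum_empty, State.nq, card_univ, G.card_pt]
    rw [sdiff_eq_empty_iff_subset.2 (subset_univ _)]
    push_cast
    simp

theorem Par.phase0 (r : Par c) (s : State Pt) (hs : Struct G (fun _ => 0) s) (hI : r.a0.Inv s) :
    ∃ s' : State Pt, Struct G (fun _ => 0) s' ∧ r.a0.Inv s' ∧ s'.P = ∅ ∧ s'.Calm G ∧
      s'.u + r.m0 ≤ G.m := by
  induction' hn : s.L.card using Nat.strong_induction_on with n ih generalizing s
  obtain ⟨s', h1, h2, h3, h4, h5, -⟩ := engine r.a0.queryOK r.a0.serveOK s hs hI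
  by_cases hu : s'.u + r.m0 ≤ G.m
  · exact ⟨s', h1, h2, h3, h4, hu⟩
  obtain ⟨y, hy, a1, a2⟩ := r.a0.revealOne h1 h2 h3 (by
    clear * - Pt s' G h1 c r n s hu h3
    intro k hk
    have b1 := h1.h_le_sec true
    have b2 := h1.h_le_sec false
    rw [h1.h_of_empty h3] at b1 b2
    have b3 := card_sec_add G.ty s'.L
    simp only [mult_true, mult_false] at b1 b2
    have b4 : 3 * G.m ≤ k + 3 * r.m0 := by omega
    have b5 : (3 * G.m : ℝ) ≤ k + 3 * r.m0 := by exact_mod_cast b4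
    simp only [Par.a0]
    rw [← hk]
    push_cast
    rw [min_eq_left (by linarith only [b5]), min_eq_left (by linarith only [b5])]
    clear * - Pt G c k
    linarith only [])
  exact ih _ (lt_of_lt_of_le (card_erase_lt_of_mem hy) (hn ▸ h5)) _ (h1.rev hy a1) a2 rfl

lemma choose_le_aux {n k t : ℕ} {x : ℝ} (h0 : 0 < x) (h1 : x ≤ 1) (ht : n ≤ k + t) :
    (n.choose k : ℝ) ≤ Real.exp (n * x + t / x) := by
  rcases lt_or_ge n k with hk | hk
  · rw [Nat.choose_eq_zero_of_lt hk, Nat.cast_zero]; exact (Real.exp_pos _).le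
  have a1 : (n.choose k : ℝ) * x ^ (n - k) ≤ (1 + x) ^ n := by
    rw [add_pow]
    have := single_le_sum (f := fun i => (1 : ℝ) ^ i * x ^ (n - i) * (n.choose i : ℝ))
      (s := range (n + 1)) (fun i _ => by positivity) (mem_range.2 (Nat.lt_succ_of_le hk))
    simpa [mul_comm] using this
  have a2 : x ^ t ≤ x ^ (n - k) := pow_le_pow_of_le_one h0.le h1 (by omega)
  have a3 : (1 + x) ^ n ≤ Real.exp (n * x) := by
    rw [Real.exp_nat_mul]
    exact pow_le_pow_left₀ (by linarith only [h0]) (by linarith only [Real.add_one_le_exp x]) n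
  have a4 : 1 ≤ x ^ t * Real.exp (t / x) := by
    rw [div_eq_mul_inv, Real.exp_nat_mul, ← mul_pow]
    refine one_le_pow₀ ?_
    have := mul_le_mul_of_nonneg_left (Real.add_one_le_exp x⁻¹) h0.le
    rw [mul_add, mul_inv_cancel₀ h0.ne'] at this
    linarith only [h0, this]
  rw [Real.exp_add]
  have a5 : (0 : ℝ) ≤ n.choose k := Nat.cast_nonneg _
  calc (n.choose k : ℝ) ≤ n.choose k * (x ^ t * Real.exp (t / x)) := le_mul_of_one_le_right a5 a4
    _ = n.choose k * x ^ t * Real.exp (t / x) := by ring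
    _ ≤ _ := mul_le_mul_of_nonneg_right
        ((mul_le_mul_of_nonneg_left a2 a5).trans (a1.trans a3)) (Real.exp_pos _).le

theorem Par.readd (r : Par c) {s : State Pt} (hs : Struct G (fun _ => 0) s) (hI : r.a0.Inv s)
    (hP : s.P = ∅) (hc : s.Calm G) (hu : s.u + r.m0 ≤ G.m) :
    ∃ s' : State Pt, Struct G (fun _ => r.m0) s' ∧ r.a1.Inv s' := by
  obtain ⟨H, hH⟩ := hs.ne
  have hσ := c.hσ
  have hL : s.L ⊆ univ \ G.Hi s.T := by
    intro v hv
    simpa [Game.Hi] using hc v hv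
  have hlow : ∀ v ∈ univ \ G.Hi s.T, (deg s.T v : ℝ) ≤ G.θ1 := by
    clear * - Pt G s
    intro v hv
    have : (deg s.T v : ℝ) < G.θ0 := by simpa [Game.Hi] using hv
    linarith [G.θ0_le]
  have hcard : (univ \ G.Hi s.T).card + (G.Hi s.T).card = 3 * G.m := by
    rw [card_sdiff_add_card_eq_card (subset_univ _), card_univ, G.card_pt]
  have hnq : G.Hi s.T \ (univ \ G.Hi s.T) = G.Hi s.T := by ext v; simp
  have hus : G.m ≤ s.u + r.s0 := by
    clear * - Pt G c s r hI hs hσ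
    have a0 := hI.base hs
    simp only [Par.a0] at a0
    have a1 : (s.L.card : ℝ) ≤ 3 * G.m := by exact_mod_cast G.card_pt ▸ card_le_univ s.L
    have a3 := min_le_right (3 * (G.m : ℝ) - s.L.card) (3 * r.m0)
    have a4 := r.h0a
    have a5 := c.wt_nonneg s
    have a6 : c.σ * (G.m - s.u) < c.σ * r.s0 := by linarith only [a0, a4, hσ, a1, a3, a5, mul_nonneg_of_nonpos_of_nonpos (le_of_lt (Mathlib.Tactic.Linarith.sub_neg_of_lt hσ)) (Mathlib.Tactic.Linarith.sub_nonpos_of_le a1), mul_nonneg_of_nonpos_of_nonpos (le_of_lt (Mathlib.Tactic.Linarith.sub_neg_of_lt hσ)) (Mathlib.Tactic.Linarith.sub_nonpos_of_le a3), mul_nonneg_of_nonpos_of_nonpos (le_of_lt (Mathlib.Tactic.Linarith.sub_neg_of_lt hσ)) (Mathlib.Tactic.Linarith.sub_nonpos_of_le a5)]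
    have a7 := lt_of_mul_lt_mul_left a6 hσ.le
    have a8 : (G.m : ℝ) ≤ s.u + r.s0 := by linarith only [a7]
    exact_mod_cast a8
  refine ⟨⟨univ \ G.Hi s.T, {H ∩ s.L}, ∅, s.M, s.T, s.h, s.u⟩,
    ⟨?_, ?_, by simp, by simp, ?_, ?_, hs.bad, hs.val, hs.time, hs.um, hlow,
      box_of_low (by simpa using hlow), ?_⟩, ?_⟩
  · intro H' hH' τ
    simp only [mem_singleton] at hH'
    rw [← hs.wf1 H hH τ, hH']
    congr 1
    ext v
    simp only [mem_inter, mem_sec]
    have := @hL v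
    tauto
  · intro A hA B hB
    simp only [mem_singleton] at hA hB
    rw [hA, hB]
  · intro τ; have := hs.cnt τ; rwa [hP] at this
  · intro H' hH'
    simp only [mem_singleton] at hH'
    have := hs.cov H hH
    rw [hP] at this
    rw [hH', inter_assoc, inter_eq_left.2 hL]
    exact this
  · intro τ
    have a1 := Struct.sec_ge G (univ \ G.Hi s.T) hcard.ge τ
    have a2 := Nat.mul_le_mul_left (mult τ) hu
    have a3 := Nat.mul_le_mul_right r.m0 (one_le_mult τ)
    simp only [State.nq, hnq]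
    rw [hs.h_of_empty hP]
    rw [mul_add] at a2
    omega
  · have a1 := choose_le_aux (n := (sec G.ty (univ \ G.Hi s.T) true).card) (k := s.h true)
      (t := 2 * r.s0) r.hx0 r.hx1 (by
        have := G.sec_le (univ \ G.Hi s.T) true
        rw [hs.h_of_empty hP]; simp only [mult_true] at this ⊢; omega)
    have a2 := choose_le_aux (n := (sec G.ty (univ \ G.Hi s.T) false).card) (k := s.h false)
      (t := r.s0) r.hx0 r.hx1 (by
        have := G.sec_le (univ \ G.Hi s.T) false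
        rw [hs.h_of_empty hP]; simp only [mult_false] at this ⊢; omega)
    have a3 := mul_le_mul a1 a2 (Nat.cast_nonneg _) (Real.exp_pos _).le
    unfold PA.Inv NN
    refine lt_of_le_of_lt (mul_le_mul_of_nonneg_right a3 (Real.exp_pos _).le) ?_
    simp only [card_singleton, Nat.cast_one, one_mul]
    rw [← Real.exp_add, ← Real.exp_add, Real.exp_lt_exp]
    refine lt_of_le_of_lt ?_ r.hBud
    have b1 : ((sec G.ty (univ \ G.Hi s.T) true).card : ℝ) ≤ 2 * G.m := by
      exact_mod_cast G.sec_le (univ \ G.Hi s.T) true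
    have b2 : ((sec G.ty (univ \ G.Hi s.T) false).card : ℝ) ≤ G.m := by
      simpa using G.sec_le (univ \ G.Hi s.T) false
    have b3 : ((univ \ G.Hi s.T).card : ℝ) + (G.Hi s.T).card = 3 * G.m := by exact_mod_cast hcard
    have b4 : ((G.Hi s.T).card : ℝ) ≤ G.Y := by exact_mod_cast hs.hi_le
    have b5 : r.u1 ≤ s.u := by have := r.hroom; have := r.h0b; omega
    have b6 : (r.u1 : ℝ) ≤ s.u := by exact_mod_cast b5
    have b7 : (s.u : ℝ) ≤ G.m := by exact_mod_cast hs.um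
    have b8 : (0 : ℝ) ≤ r.u1 := Nat.cast_nonneg _
    have b9 : (0 : ℝ) ≤ (G.Hi s.T).card := Nat.cast_nonneg _
    unfold PA.pot
    simp only [Par.a1, Srv.wt, sum_empty, State.nq, hnq]
    rw [max_eq_left (by clear * - Pt s G c r b6; linarith), max_eq_right (by clear * - Pt G c r s b6; linarith)]
    have c1 := mul_le_mul_of_nonneg_right b1 r.hx0.le
    have c2 := mul_le_mul_of_nonneg_right b2 r.hx0.le
    have c3 := mul_le_mul_of_nonneg_left (show (s.u : ℝ) - r.u1 ≤ G.m by clear * - Pt s G c r b7; linarith) r.hγA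
    have c4 := mul_le_mul_of_nonneg_left b4 hσ.le
    have c5 := mul_nonneg hσ.le b9
    have c6 : c.σ / 16 * (3 * G.m - (univ \ G.Hi s.T).card) = c.σ * (G.Hi s.T).card / 16 := by
      rw [← b3]; ring
    rw [c6]
    push_cast
    have c7 : 2 * (r.s0 : ℝ) / r.x + r.s0 / r.x = 3 * r.s0 / r.x := by ring
    clear * - Pt G s c r c1 c2 c3 c4 c5 c7
    linarith only [c1, c2, c3, c4, c5, c7]

theorem Par.phaseA (r : Par c) (s : State Pt) (hs : Struct G (fun _ => r.m0) s)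
    (hI : r.a1.Inv s) :
    ∃ s' : State Pt, Struct G (fun _ => r.m0) s' ∧ r.a1.Inv s' ∧ s'.P = ∅ ∧ s'.u ≤ r.u1 ∧
      ∀ τ, esc (sec G.ty s'.L τ) s'.fam
        ≤ r.η * s'.fam.card * s'.h τ * ((sec G.ty s'.L τ).card - s'.h τ + 1) := by
  induction' hn : s.u using Nat.strong_induction_on with n ih generalizing s
  obtain ⟨s', h1, h2, h3, h4, -, h6⟩ := engine r.a1.queryOK r.a1.serveOK s hs hI
  by_cases hgoal : s'.u ≤ r.u1 ∧ ∀ τ, esc (sec G.ty s'.L τ) s'.fam
        ≤ r.η * s'.fam.card * s'.h τ * ((sec G.ty s'.L τ).card - s'.h τ + 1)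
  · exact ⟨s', h1, h2, h3, hgoal.1, hgoal.2⟩
  have hσ := c.hσ
  have hu2 : (r.u2 : ℝ) ≤ s'.u := by
    clear * - Pt G c s' r h2 h1 hσ
    have a0 := h2.base h1
    simp only [Par.a1] at a0
    have a1 : (s'.L.card : ℝ) ≤ 3 * G.m := by exact_mod_cast G.card_pt ▸ card_le_univ s'.L
    have a2 := mul_nonneg r.hγA (le_max_right ((s'.u : ℝ) - r.u1) 0)
    have a4 := mul_le_mul_of_nonneg_left (le_max_left ((r.u1 : ℝ) - s'.u) 0) r.hg0.le
    have a5 := mul_nonneg hσ.le (c.wt_nonneg s')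
    have a6 : 0 ≤ c.σ / 16 * (3 * G.m - s'.L.card) := mul_nonneg (by linarith only [hσ]) (by linarith only [a1])
    have b1 : (r.u1 : ℝ) - s'.u < r.u1 - r.u2 :=
      lt_of_mul_lt_mul_left (by linarith only [a0, a2, a4, a5, a6, r.hB1]) r.hg0.le
    linarith only [b1]
  have hu2' : (1 : ℝ) ≤ r.u2 := by exact_mod_cast r.hu2
  obtain ⟨w, hw⟩ : ∃ w, s'.u = w + 1 := ⟨s'.u - 1, by
    have : r.u2 ≤ s'.u := by exact_mod_cast hu2
    have := r.hu2; omega⟩
  have hw' : (s'.u : ℝ) = w + 1 := by rw [hw]; push_cast; ring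
  have γn : 0 ≤ r.γ := le_trans (pow_nonneg (by linarith only [r.hp1]) _) r.hγ
  obtain ⟨s'', t1, t2, t3, t4, t5, t7, t6⟩ := block h1 h3 h4 r.hk hw r.hp0 r.hp1 r.hγ r.hγ1
    (r0 := r.r0) (fun τ => by
      have := h1.room τ; have := h1.nq_le; have := r.hr0; omega) r.hpr
    (r.hloss.trans (mul_le_mul_of_nonneg_left
      (mul_le_mul (by linarith only [hu2, hw']) (by linarith only [hu2, hw']) (by linarith only [hu2']) (by linarith only [])) γn))
    (by
      clear * - Pt G s' c r h2 h1 n s w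
      have a1 := Struct.sec_ge G s'.L (h2.sup h1).2 true
      have a2 : 2 * c.ρ0 + 1 ≤ (sec G.ty s'.L true).card := by
        have := r.hroom; have := r.hu1
        simp only [mult_true, Par.a1] at a1; omega
      have a3 : (2 * c.ρ0 + 1 : ℝ) ≤ (sec G.ty s'.L true).card := by exact_mod_cast a2
      have a4 : (0 : ℝ) ≤ c.ρ0 := Nat.cast_nonneg _
      refine lt_of_lt_of_le r.hfree ?_
      rw [sq]
      exact mul_le_mul (by linarith only [a3]) (by linarith only [a3]) (by linarith only []) (by linarith only [a3]))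
  have key : ∀ δ κ : ℝ, Real.exp δ ≤ κ → r.a1.Gf w ≤ r.a1.Gf s'.u + δ →
      κ * s'.fam.card * NN G s''.L s''.h ≤ s''.fam.card * NN G s'.L s'.h →
      0 < NN G s''.L s''.h → r.a1.Inv s'' := by
    clear * - Pt G c r w s' s'' t5 t2 hσ t3 t4 h3 h1 t7 h2
    intro δ κ k1 k2 k3 k4
    have a1 : r.a1.pot s'' ≤ r.a1.pot s' + δ := by
      clear * - Pt G s' s'' t5 t2 c hσ r δ t3 w t4 h3 k2
      have b1 : (s'.nq G : ℝ) ≤ s''.nq G := by exact_mod_cast nq_le_of G t5 t2.le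
      have b2 := mul_le_mul_of_nonneg_left b1 hσ.le
      unfold PA.pot Srv.wt
      rw [t2, t3, t4, h3]
      simp only [sum_empty]
      linarith only [k2, b2]
    have a2 : (0 : ℝ) < s'.fam.card := by exact_mod_cast h1.ne.card_pos
    have a3 : 0 < NN G s'.L s'.h := a2.trans_le h1.card_le_NN
    unfold PA.Inv at h2 ⊢
    refine lt_of_mul_lt_mul_left ?_ a3.le
    have a4 := Real.exp_le_exp.2 a1
    rw [Real.exp_add] at a4
    calc NN G s'.L s'.h * (NN G s''.L s''.h * Real.exp (r.a1.pot s''))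
        ≤ NN G s'.L s'.h * (NN G s''.L s''.h * (Real.exp (r.a1.pot s') * Real.exp δ)) := by
          clear * - Pt G s' s'' c r δ a4 t7 a3
          gcongr
      _ = (NN G s''.L s''.h * Real.exp δ) * (NN G s'.L s'.h * Real.exp (r.a1.pot s')) := by ring
      _ < (NN G s''.L s''.h * Real.exp δ) * (s'.fam.card * Real.exp r.a1.Bud) :=
          mul_lt_mul_of_pos_left h2 (mul_pos k4 (Real.exp_pos _))
      _ ≤ (NN G s''.L s''.h * κ) * (s'.fam.card * Real.exp r.a1.Bud) := by clear * - Pt s' G c r s'' δ κ k1 t7 a2 a1; gcongr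
      _ = (κ * s'.fam.card * NN G s''.L s''.h) * Real.exp r.a1.Bud := by ring
      _ ≤ (s''.fam.card * NN G s'.L s'.h) * Real.exp r.a1.Bud := by gcongr
      _ = _ := by ring
  have hI'' : r.a1.Inv s'' := by
    clear * - Pt G c r s'' s' hgoal key w hw' t6 t7 n s hw t4
    by_cases hu : s'.u ≤ r.u1
    · have hτ : ∃ τ, 2 * (r.η / 2) * s'.fam.card * s'.h τ
          * ((sec G.ty s'.L τ).card - s'.h τ + 1) ≤ esc (sec G.ty s'.L τ) s'.fam := by
        clear * - Pt G c r s' hgoal hu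
        by_contra hcon
        push Not at hcon
        refine hgoal ⟨hu, fun τ => ?_⟩
        have := hcon τ
        linarith only [this]
      refine key r.g _ r.hgain ?_ (t6 (r.η / 2) (Or.inr hτ)) t7
      have a1 : (s'.u : ℝ) ≤ r.u1 := by exact_mod_cast hu
      simp only [Par.a1]
      rw [max_eq_right (by linarith only [hw', a1]), max_eq_left (by linarith only [hw', a1]), max_eq_right (by linarith only [a1]),
        max_eq_left (by linarith only [a1]), hw']
      linarith only []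
    · refine key (-r.γA) _ r.hcost ?_ (t6 0 (Or.inl rfl)) t7
      have a0 : r.u1 ≤ w := by omega
      have a1 : (r.u1 : ℝ) ≤ w := by exact_mod_cast a0
      simp only [Par.a1]
      rw [max_eq_left (by linarith only [a1]), max_eq_right (by linarith only [a1]), max_eq_left (by linarith only [hw', a1]),
        max_eq_right (by linarith only [hw', a1]), hw']
      linarith only []
  exact ih _ (by omega) s'' (t1 hI''.nonempty) hI'' rfl

theorem Par.maker_wins (r : Par c) : ¬ G.Bad ∅ ∅ := by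
  intro h
  obtain ⟨s0, a1, a2⟩ := r.start h
  obtain ⟨s1, b1, b2, b3, b4, b5⟩ := r.phase0 s0 a1 a2
  obtain ⟨s2, c1, c2⟩ := r.readd b1 b2 b3 b4 b5
  obtain ⟨s, h1, h2, h3, h4, h5⟩ := r.phaseA s2 c1 c2
  have hl := c.hlam
  have hρ : (1 : ℝ) ≤ c.ρ0 := by exact_mod_cast c.hρ0
  have hs : Struct G c.μB s := by
    refine { h1 with room := fun τ => ?_ }
    have d1 := Struct.sec_ge G s.L (h2.sup h1).2 τ
    have d2 := Nat.mul_le_mul_left (mult τ) r.hroom
    have d3 := Nat.mul_le_mul_left (mult τ) h4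
    have d4 := Nat.mul_le_mul_right r.rem (one_le_mult τ)
    have d5 := Nat.mul_le_mul_right G.Y (one_le_mult τ)
    rw [h1.h_of_empty h3]
    simp only [Par.a1, Srv.μB, mul_add] at d1 d2 ⊢
    omega
  refine r.hb.win s hs ⟨fun _ => 0, fun _ => le_rfl, ?_⟩
  have Zp : (0 : ℝ) < s.fam.card := by exact_mod_cast h1.ne.card_pos
  have d1 : ∀ τ, zL G c.ρ0 s.L s.fam s.h (fun _ => 0) τ ≤ 2 * r.η * s.fam.card := by
    clear * - Pt G c r s Zp hρ h5 h
    intro τ
    have e0 := r.hη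
    unfold zL
    rcases Nat.eq_zero_or_pos (s.h τ) with e1 | e1
    · rw [e1]; simp only [Nat.cast_zero, add_zero, div_zero]; positivity
    have e2 : (0 : ℝ) < s.h τ := by exact_mod_cast e1
    have m1 : (1 : ℝ) ≤ mult τ := by exact_mod_cast one_le_mult τ
    have e3 : ((sec G.ty s.L τ).card : ℝ) ≤ mult τ * G.m := by exact_mod_cast G.sec_le s.L τ
    have e4 : (G.m : ℝ) + 1 ≤ 2 * c.ρ0 := by exact_mod_cast r.hb.hm
    have e5 : ((sec G.ty s.L τ).card : ℝ) - s.h τ + 1 ≤ 2 * (mult τ * c.ρ0) := by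
      have := mul_le_mul_of_nonneg_left e4 (show (0 : ℝ) ≤ mult τ by linarith only [m1])
      linarith only [e2, m1, e3, this]
    simp only [zero_mul, zero_add, add_zero]
    rw [div_le_iff₀ e2, div_le_iff₀ (by positivity)]
    refine (h5 τ).trans ?_
    have := mul_le_mul_of_nonneg_left e5 (show 0 ≤ r.η * s.fam.card * s.h τ by positivity)
    linarith only [this]
  have d2 : c.zz s (fun _ => 0) ≤ s.fam.card * (4 * r.η / c.lam) := by
    unfold Srv.zz
    rw [← mul_div_assoc]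
    refine div_le_div_of_nonneg_right ?_ hl.le
    linarith only [d1, d1 true, d1 false]
  have d3 : c.quota s ≤ G.Y / (c.lam * c.ρ0) := by
    clear * - Pt G c s hl hρ
    unfold Srv.quota
    refine div_le_div_of_nonneg_right ?_ (by positivity)
    have : (0 : ℝ) ≤ s.nq G := Nat.cast_nonneg _
    linarith
  have d4 : c.Val s (fun _ => 0) ≤ 8 * c.p0 * Real.exp (4 * c.σ) / c.σ := by
    unfold Srv.Val
    rw [if_pos (by unfold Srv.wt; rw [h3]; simp)]
    exact r.hb.Rf_le _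
  have d5 := mul_le_mul_of_nonneg_left (add_le_add d3 d4) Zp.le
  have d6 := mul_lt_mul_of_pos_left r.hfin Zp
  clear * - Pt G c s r d2 d5 d6
  linarith only [d2, d5, d6]

end Pool.Agent.Work.MP_6aef45_co
end

-- merged part: Pool.Agent.Work.MP_6aef45_co.Params
section
namespace Pool.Agent.Work.MP_6aef45_co
open Finset

lemma sum_Ico_inv_le {i m : ℕ} (hi : 1 ≤ i) (him : i ≤ m) :
    ∑ j ∈ Ico 1 i, (1 : ℝ) / j ≤ 1 + Real.log m := by
  have a1 := harmonic_le_one_add_log m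
  rw [harmonic_eq_sum_Icc] at a1
  push_cast at a1
  refine le_trans ?_ a1
  simp_rw [one_div]
  refine sum_le_sum_of_subset_of_nonneg ?_ fun j _ _ => by positivity
  intro j hj
  rw [mem_Ico] at hj
  rw [mem_Icc]; omega

/-- The natural number parameters for a given size. -/
structure Sizes {ε : ℝ} (c : Consts ε) (m : ℕ) where
  Y : ℕ
  m0 : ℕ
  s0 : ℕ
  u1 : ℕ
  u2 : ℕ
  ρ0 : ℕ
  r0 : ℕ
  Y1 : c.t * m / 4 ≤ Y
  Y2 : (Y : ℝ) ≤ c.t * m / 2
  m02 : (m0 : ℝ) ≤ 2 * (c.t * m)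
  s01 : c.δ * m ≤ s0
  s02 : (s0 : ℝ) ≤ 2 * (c.δ * m)
  u11 : ε * m / 32 ≤ u1
  u21 : ε * m / 64 ≤ u2
  u22 : (u2 : ℝ) ≤ ε * m / 64 + 1
  hroom : ρ0 + u1 + u1 + Y ≤ m
  ρ1 : (1 - ε / 8) * m ≤ ρ0
  hr0 : r0 + Y ≤ m0
  r01 : c.t * m / 2 ≤ r0

lemma exists_sizes {ε : ℝ} (h0 : 0 < ε) (h1 : ε ≤ 1) (c : Consts ε) {m : ℕ}
    (hm : 4 ≤ c.t * m) : Nonempty (Sizes c m) := by
  have m0 : (0 : ℝ) ≤ m := Nat.cast_nonneg _
  have a1 := mul_le_mul_of_nonneg_right c.ht m0
  have a2 := mul_le_mul_of_nonneg_right c.hδ2 m0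
  have a3 := mul_le_mul_of_nonneg_right h1 m0
  have c1 := Nat.le_ceil (c.t * m / 4)
  have c2 := (Nat.ceil_lt_add_one (show 0 ≤ c.t * m / 4 by linarith only [hm])).le
  have c3 := Nat.le_ceil (c.t * m)
  have c4 := (Nat.ceil_lt_add_one (show 0 ≤ c.t * m by linarith only [hm])).le
  have c5 := Nat.le_ceil (c.δ * m)
  have c6 := (Nat.ceil_lt_add_one (show 0 ≤ c.δ * m by linarith only [hm, a1])).le
  have c7 := Nat.le_ceil (ε * m / 32)
  have c8 := (Nat.ceil_lt_add_one (show 0 ≤ ε * m / 32 by linarith only [hm, a1, a2])).le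
  have c9 := Nat.le_ceil (ε * m / 64)
  have c10 := (Nat.ceil_lt_add_one (show 0 ≤ ε * m / 64 by clear * - ε m c hm a1 a2; linarith only [hm, a1, a2])).le
  have d1 : ⌈ε * m / 32⌉₊ + ⌈ε * m / 32⌉₊ + ⌈c.t * m / 4⌉₊ ≤ m := by
    clear * - ε m c hm a1 a2 a3 c2 c8
    have : ((⌈ε * m / 32⌉₊ + ⌈ε * m / 32⌉₊ + ⌈c.t * m / 4⌉₊ : ℕ) : ℝ) ≤ m := by
      push_cast; linarith only [hm, a1, a2, a3, c2, c8]
    exact_mod_cast this
  have d2 : ⌈c.t * m / 4⌉₊ ≤ ⌈c.t * m⌉₊ := Nat.ceil_mono (by clear * - ε c m hm; linarith only [hm])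
  refine ⟨⟨⌈c.t * m / 4⌉₊, ⌈c.t * m⌉₊, ⌈c.δ * m⌉₊, ⌈ε * m / 32⌉₊, ⌈ε * m / 64⌉₊,
    m - (⌈ε * m / 32⌉₊ + ⌈ε * m / 32⌉₊ + ⌈c.t * m / 4⌉₊), ⌈c.t * m⌉₊ - ⌈c.t * m / 4⌉₊,
    c1, by clear * - ε c m hm c2 c1 c10 c5 c7 c9; linarith only [hm, c2], by clear * - ε c m hm c4 c1 c10 c5 c7 c9; linarith only [hm, c4], c5, by clear * - ε c m hm a1 c6 c1 c10 c5 c7 c9; linarith only [hm, a1, c6], c7, c9, c10, by omega, ?_, by omega, ?_⟩⟩
  · rw [Nat.cast_sub d1]; push_cast; linarith only [hm, a1, a2, c2, c8]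
  · rw [Nat.cast_sub d2]; linarith only [hm, c2, c3]

theorem maker_asym {ε : ℝ} (h0 : 0 < ε) (h1 : ε ≤ 1) : ∃ β : ℝ, 0 < β ∧ ∃ M0 : ℕ,
    ∀ (Pt : Type) [DecidableEq Pt] [Fintype Pt] (ty : Pt → Bool) (m b1 : ℕ)
      (Bad : Finset (Finset Pt) → Finset (Finset Pt) → Prop),
      (∀ τ, (sec ty univ τ).card = mult τ * m) → (∀ M T, Bad M T → ¬ Cov M ∅) →
      (∀ M T e, Bad M T → Valid ty e → e ∉ T → ∃ T', T ⊆ T' ∧ (T' \ T).card ≤ b1 ∧
        (∀ f ∈ T', f ∉ T → Valid ty f) ∧ Bad (insert e M) T') →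
      M0 ≤ m → (b1 : ℝ) ≤ β * (m : ℝ) ^ 2 → b1 * (1 + Real.log m) ≤ (2 - 2 * ε) * (m : ℝ) ^ 2 →
      ¬ Bad ∅ ∅ := by
  obtain ⟨c⟩ := exists_consts h0 h1
  obtain ⟨M0, hM0⟩ := exists_nat_ge (4 / (c.t * c.σ))
  refine ⟨c.β, c.β0, M0, ?_⟩
  intro Pt _ _ ty m b1 Bad hty noPM move hm hb hlog
  have σ0 := c.σ0
  have t0 := c.t0
  have e0 := c.e0
  have m0 : (0 : ℝ) ≤ m := Nat.cast_nonneg _
  have hm1 : 4 ≤ c.t * m * c.σ := by
    clear * - M0 m hm ε c t0 σ0 hM0
    have a1 : (M0 : ℝ) ≤ m := by exact_mod_cast hm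
    rw [div_le_iff₀ (mul_pos t0 σ0)] at hM0
    clear * - ε c m M0 hM0 a1 t0 σ0
    linarith only [hM0, a1, t0, σ0, mul_le_mul_of_nonneg_right a1 (mul_pos t0 σ0).le]
  have hm2 : 4 ≤ c.t * m := by clear * - ε c m hm1 σ0 m0 t0; (refine le_of_not_gt fun h_nl => ?_; linarith only [h_nl, hm1, σ0, c.σ1, mul_nonneg t0.le m0, mul_pos_of_neg_of_neg (Mathlib.Tactic.Linarith.sub_neg_of_lt σ0) (Mathlib.Tactic.Linarith.sub_neg_of_lt h_nl)])
  obtain ⟨z⟩ := exists_sizes h0 h1 c hm2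
  have f1 := mul_le_mul_of_nonneg_right c.ht m0
  have f2 := mul_le_mul_of_nonneg_right c.hδ2 m0
  have f3 := mul_le_mul_of_nonneg_right h1 m0
  have f4 := mul_le_mul_of_nonneg_right c.ht2 m0
  have f5 := mul_le_mul_of_nonneg_right c.ht3 m0
  have mp : (0 : ℝ) < m := by linarith only [hm2, f1, f2, f3]
  have m2 : (0 : ℝ) < (m : ℝ) ^ 2 := by positivity
  have k1 : (1 : ℝ) ≤ c.k := by exact_mod_cast c.k1
  have t1 : c.t ≤ 1 := by linarith only [h1, c.ht, c.hδ2]
  have Y1 := z.Y1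
  have Y2 := z.Y2
  have ρ1 := z.ρ1
  have hkb : 24 * (c.k * b1 : ℝ) ≤ c.t * (c.e * (m : ℝ) ^ 2) := by
    clear * - ε c b1 m hb k1 m2
    have a1 := mul_le_mul_of_nonneg_left hb (show (0 : ℝ) ≤ 24 * c.k by linarith)
    have a2 := mul_le_mul_of_nonneg_right c.hβ2 m2.le
    linarith
  have em : 0 < c.e * (m : ℝ) ^ 2 := mul_pos e0 m2
  have hYe := mul_le_mul_of_nonneg_right Y1 em.le
  have hkm := mul_le_mul_of_nonneg_right hkb m0
  have hY1 : 1 ≤ z.Y := by
    clear * - ε c m z hm2 Y1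
    have : (1 : ℝ) ≤ z.Y := by linarith only [hm2, Y1]
    exact_mod_cast this
  let G : Game Pt :=
    { ty := ty, m := m, b1 := b1, K := 2 * c.k, i0 := z.Y, Y := z.Y, θ0 := c.e * (m : ℝ) ^ 2,
      θ1 := 2 * (c.e * (m : ℝ) ^ 2), Bad := Bad, hty := hty, noPM := noPM, move := move,
      hK := by have := c.k1; omega
      hi0 := hY1
      hθ0 := em
      hθ1 := by
        clear * - ε c m b1 t1 em hkb
        push_cast
        have := mul_le_mul_of_nonneg_right t1 em.le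
        linarith only [hkb, em, this]
      hY := by clear * - b1 ε c m z hYe hkm; push_cast; linarith only [hYe, hkm]
      hi := by
        clear * - b1 ε c m z k1 mp hYe hkm
        push_cast
        have : (0 : ℝ) ≤ c.k * b1 * m := by positivity
        linarith only [hYe, hkm, this] }
  have ρ2 : (7 / 8 * m : ℝ) ≤ z.ρ0 := by clear * - m ε c z f3 ρ1; linarith only [f3, ρ1]
  have ρ3 : (7 / 8 * m : ℝ) ^ 2 ≤ (z.ρ0 : ℝ) ^ 2 := pow_le_pow_left₀ (by clear * - m ε c hm2 f1 f2 f3 z ρ2; linarith only [hm2, f1, f2, f3]) ρ2 2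
  have p00 : 0 < c.p0 := by clear * - ε c; linarith [c.hlam2, c.lam0]
  let S : Srv G :=
    { σ := c.σ, p0 := c.p0, p1 := 1 - ε / 8, lam := c.lam, ρ0 := z.ρ0, hσ := σ0
      hc := by
        clear * - ε c m m2 Pt G b1 hb
        have := mul_le_mul_of_nonneg_right c.hβ1 m2.le
        show 24 * (b1 : ℝ) ≤ c.σ * (c.e * (m : ℝ) ^ 2)
        linarith only [hb, this]
      hlow := c.hlow
      hhigh := c.hhigh
      hlam := c.lam0
      hρ0 := by
        clear * - ε c m z hm2 f1 f2 f3 ρ1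
        have : (1 : ℝ) ≤ z.ρ0 := by linarith only [hm2, f1, f2, f3, ρ1]
        exact_mod_cast this
      hd0 := by
        clear * - Pt G ε c m z m2 ρ3 p00 em
        show c.e * (m : ℝ) ^ 2 + 2 * (c.e * (m : ℝ) ^ 2) ≤ _
        have a1 := mul_le_mul (show c.p0 / 2 ≤ c.p0 - 6 * c.lam by linarith only [c.hlam2])
          (show (m : ℝ) ^ 2 ≤ 2 * (z.ρ0 : ℝ) ^ 2 by linarith only [m2, ρ3]) m2.le (by linarith only [p00, c.hlam2])
        have a2 := mul_le_mul_of_nonneg_right c.he2 m2.le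
        have a3 := mul_pos p00 m2
        clear * - ε c m z em a1 a2
        linarith only [em, a1, a2]
      hd1 := by
        clear * - Pt G ε c m z b1 hY1 M0 m2 hm2 f1 f2 Y2 f3 ρ1 h0 mp h1 hlog
        rw [G.card_pt]
        show gb (2 * (c.e * (m : ℝ) ^ 2)) (3 * m) b1 z.Y 1 ≤ _
        unfold gb
        have a1 := mul_le_mul_of_nonneg_left (sum_Ico_inv_le (m := m) hY1 (by
          have := z.hroom; omega)) (Nat.cast_nonneg (α := ℝ) b1)
        have a2 := mul_le_mul_of_nonneg_right c.he3 m2.le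
        have a3 := mul_le_mul_of_nonneg_left (show (z.Y : ℝ) - 1 ≤ ε * m / 6 by clear * - ε c m z hm2 f1 f2 Y2; linarith only [hm2, f1, f2, Y2])
          (show (0 : ℝ) ≤ 3 * m by linarith only [hm2, f1, f2, f3])
        have a4 : ((1 - ε / 8) * m : ℝ) ^ 2 ≤ (z.ρ0 : ℝ) ^ 2 :=
          pow_le_pow_left₀ (by clear * - ε m c hm2 f1 f2 f3 ρ1; linarith only [hm2, f1, f2, f3]) ρ1 2
        have a5 : (1 - ε / 4) * (m : ℝ) ^ 2 ≤ (z.ρ0 : ℝ) ^ 2 := by
          clear * - ε m h0 mp c z a4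
          have : 0 ≤ ε ^ 2 * (m : ℝ) ^ 2 := by positivity
          linarith only [a4, this]
        have a6 := mul_le_mul (show 1 - ε / 4 ≤ 1 - ε / 8 - 6 * c.lam by clear * - ε c a5 m2; linarith only [c.hlam3])
          (mul_le_mul_of_nonneg_left a5 zero_le_two)
          (mul_nonneg zero_le_two (mul_nonneg (by clear * - ε h1 c m2; linarith only [h1]) m2.le)) (by clear * - ε c h1 m2; linarith only [h1, c.hlam3])
        have a7 : 0 ≤ ε ^ 2 * (m : ℝ) ^ 2 := by positivity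
        push_cast
        clear * - ε c m z b1 hlog a1 a2 a3 a6 a7
        linarith only [hlog, a1, a2, a3, a6, a7] }
  have u11 := z.u11
  have u21 := z.u21
  have u22 := z.u22
  have s01 := z.s01
  have s02 := z.s02
  have g0 := c.g0
  have κ0 := c.κ0
  have hκ := mul_le_mul_of_nonneg_right c.hκ m0
  have hεm : 0 ≤ ε * m := by clear * - ε m c hm2 f1 f2; linarith only [hm2, f1, f2]
  have hgσ := mul_le_mul_of_nonneg_right c.hg hεm
  have hr : Par S :=
    { m0 := z.m0, s0 := z.s0, rem := z.u1, u1 := z.u1, u2 := z.u2, k := c.k, r0 := z.r0,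
      x := c.x, γ := c.γ, γA := 4 * c.γ, g := c.g, η := c.η, p := c.p, Bud := c.κ * m
      hb := ⟨c.hlam1, by
        clear * - m ε c z hm2 f1 f2 f3 ρ1
        have : (m : ℝ) + 1 ≤ 2 * z.ρ0 := by clear * - m ε c z hm2 f1 f2 f3 ρ1; linarith only [hm2, f1, f2, f3, ρ1]
        exact_mod_cast this, c.hp0⟩
      hk := rfl
      h0a := by
        clear * - Pt G S ε c m z Y2 σ0 f1 s01 hm1 m0
        show 4 * (17 * c.σ / 16 * z.Y + 1 + 17 * c.σ / 16 * (3 * z.m0)) ≤ c.σ * z.s0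
        have a1 := mul_le_mul_of_nonneg_left Y2 σ0.le
        have a2 := mul_le_mul_of_nonneg_left z.m02 σ0.le
        have a3 := mul_le_mul_of_nonneg_left (show 40 * (c.t * m) ≤ z.s0 by clear * - ε c m z f1 s01 σ0; linarith) σ0.le
        clear * - ε c m z hm1 a1 a2 a3
        linarith only [hm1, a1, a2, a3]
      h0b := by
        clear * - ε c m z f2 u11 s02
        have : (4 * z.s0 : ℝ) ≤ z.u1 := by linarith only [f2, u11, s02]
        exact_mod_cast this
      hroom := z.hroom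
      hu2 := by
        clear * - ε c m z hm2 f1 f2 u21
        have : (1 : ℝ) ≤ z.u2 := by linarith only [hm2, f1, f2, u21]
        exact_mod_cast this
      hu1 := by
        clear * - ε c m z hm2 f1 f2 u11
        have : (1 : ℝ) ≤ z.u1 := by linarith only [hm2, f1, f2, u11]
        exact_mod_cast this
      hx0 := c.x0
      hx1 := c.x1
      hBud := by
        clear * - Pt G ε c m z S m0 s02 κ0 mp hm2 f5 Y2
        show 3 * (m : ℝ) * c.x + 3 * z.s0 / c.x + 9 * c.σ / 8 * z.Y + 4 * c.γ * m < c.κ * m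
        have a1 := mul_le_mul_of_nonneg_right c.hx m0
        have a2 : 3 * z.s0 / c.x ≤ c.κ * m / 8 := by
          clear * - ε c m z m0 s02
          rw [div_le_iff₀ c.x0]
          have := mul_le_mul_of_nonneg_right c.hδ m0
          linarith only [s02, this]
        have a3 := mul_le_mul_of_nonneg_right c.σ1 (Nat.cast_nonneg (α := ℝ) z.Y)
        have a4 := mul_le_mul_of_nonneg_right c.hγ m0
        have a5 := mul_pos κ0 mp
        clear * - m ε c z hm2 f5 Y2 a1 a2 a3 a4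
        linarith only [hm2, f5, Y2, a1, a2, a3, a4]
      hB1 := by
        clear * - ε c m z hm2 f1 f2 u11 u22 g0 hεm f5 hκ
        have a1 := mul_le_mul_of_nonneg_left
          (show ε * m / 128 ≤ (z.u1 : ℝ) - z.u2 by linarith only [hm2, f1, f2, u11, u22]) g0.le
        have a2 := mul_nonneg g0.le hεm
        linarith only [hm2, f5, hκ, a1]
      hB2 := by
        clear * - ε c m Pt G S z hm2 f1 f2 u21 σ0 hεm f5 hκ hgσ
        show c.κ * m ≤ c.σ * ((z.u2 : ℝ) - 1)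
        have a1 := mul_le_mul_of_nonneg_left
          (show ε * m / 128 ≤ (z.u2 : ℝ) - 1 by clear * - ε m c z hm2 f1 f2 u21 σ0; linarith only [hm2, f1, f2, u21]) σ0.le
        have a2 := mul_nonneg σ0.le hεm
        clear * - ε c m z hm2 f5 hκ hgσ a1
        linarith only [hm2, f5, hκ, hgσ, a1]
      hB3 := by
        clear * - ε c m Pt G S z u11 σ0 hεm hm2 f5 hκ hgσ
        show 16 * (c.κ * m) ≤ c.σ * (z.u1 : ℝ)
        have a1 := mul_le_mul_of_nonneg_left u11 σ0.le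
        have a2 := mul_nonneg σ0.le hεm
        clear * - ε c m z hm2 f5 hκ hgσ a1
        linarith only [hm2, f5, hκ, hgσ, a1]
      hg0 := g0
      hg1 := c.hg
      hγA := by clear * - ε c; linarith [c.γ0]
      hr0 := z.hr0
      hp0 := c.pp0
      hp1 := c.pp1
      hγ := c.hk
      hγ1 := c.γ1
      hpr := by
        clear * - ε c Pt G m z hm2 mp
        show c.p * (4 * (m : ℝ) ^ 3) ≤ (z.r0 : ℝ) ^ 3
        have a1 := pow_le_pow_left₀ (by linarith only [hm2]) z.r01 3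
        have a2 := mul_le_mul_of_nonneg_right c.hp (show (0 : ℝ) ≤ (m : ℝ) ^ 3 by positivity)
        have a3 : (c.t * m / 2) ^ 3 = c.t ^ 3 * (m : ℝ) ^ 3 / 8 := by ring
        clear * - ε c m z a1 a2
        linarith only [a1, a2]
      hloss := by
        clear * - Pt G ε c m z u21 hm2 f1 f2 m2
        show ((2 * c.k : ℕ) : ℝ) * (2 * (c.e * (m : ℝ) ^ 2)) ≤ c.γ * (z.u2 * (2 * z.u2 - 1))
        have a1 := mul_le_mul u21 (show ε * m / 64 ≤ 2 * (z.u2 : ℝ) - 1 by linarith only [hm2, f1, f2, u21])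
          (by linarith only [hm2, f1, f2]) (by linarith only [hm2, f1, f2, u21])
        have a2 := mul_le_mul_of_nonneg_left a1 c.γ0
        have a3 := mul_le_mul_of_nonneg_right c.he1 m2.le
        push_cast
        clear * - ε c m z a2 a3
        linarith only [a2, a3]
      hfree := by
        clear * - Pt G S ε c m h1 m2 z em ρ3
        show 2 * (2 * (c.e * (m : ℝ) ^ 2)) < (2 * z.ρ0 : ℝ) ^ 2
        have a2 := mul_le_mul_of_nonneg_right (c.he3.trans h1) m2.le
        clear * - ε c m z em ρ3 a2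
        linarith only [em, ρ3, a2]
      hcost := c.hcost
      hgain := c.hgain
      hη := c.η0
      hfin := by
        clear * - ε c Pt G S m z hm2 f1 f2 f3 ρ1 ρ2 mp f4 Y2
        show 4 * c.η / c.lam + z.Y / (c.lam * z.ρ0) + 8 * c.p0 * Real.exp (4 * c.σ) / c.σ < 1
        have a1 : (z.Y : ℝ) / (c.lam * z.ρ0) ≤ 1 / 4 := by
          clear * - ε c m z hm2 f1 f2 f3 ρ1 ρ2 mp f4 Y2
          rw [div_le_iff₀ (mul_pos c.lam0 (by linarith only [hm2, f1, f2, f3, ρ1]))]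
          have := mul_le_mul_of_nonneg_left ρ2 c.lam0.le
          have := mul_pos c.lam0 mp
          linarith
        linarith only [a1, c.hη, c.hC] }
  exact hr.maker_wins

end Pool.Agent.Work.MP_6aef45_co
end

-- merged part: Pool.Agent.Work.MP_6aef45_co.Transfer
section
namespace Pool.Agent.Work.MP_6aef45_co
open Finset

/-- The points (two vertices and a colour) of a board element. -/
def pts {m : ℕ} (e : Board m) : Finset (Fin (2 * m) ⊕ Fin m) := e.2.1.disjSum {e.1}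

lemma sec_disjSum {α β : Type} [DecidableEq α] [DecidableEq β] (s : Finset α) (t : Finset β)
    (τ : Bool) : (sec Sum.isLeft (s.disjSum t) τ).card = if τ then s.card else t.card := by
  cases τ
  · have : sec Sum.isLeft (s.disjSum t) false = (∅ : Finset α).disjSum t := by
      ext x; cases x <;> simp
    rw [this]; simp
  · have : sec Sum.isLeft (s.disjSum t) true = s.disjSum (∅ : Finset β) := by
      ext x; cases x <;> simp
    rw [this]; simp

lemma valid_pts {m : ℕ} (e : Board m) : Valid Sum.isLeft (pts e) := by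
  intro τ
  unfold pts
  rw [sec_disjSum]
  cases τ
  · simp
  · simp [e.2.2]

lemma exists_pts {m : ℕ} {f : Finset (Fin (2 * m) ⊕ Fin m)} (hf : Valid Sum.isLeft f) :
    ∃ e : Board m, pts e = f := by
  have h1 := hf true
  have h2 := hf false
  rw [← toLeft_disjSum_toRight (u := f), sec_disjSum] at h1 h2
  simp only [if_true, mult_true, Bool.false_eq_true, if_false, mult_false] at h1 h2
  obtain ⟨c, hc⟩ := card_eq_one.1 h2
  refine ⟨⟨c, ⟨f.toLeft, h1⟩⟩, ?_⟩
  unfold pts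
  simp only
  rw [← hc, toLeft_disjSum_toRight]

lemma BreakerWins.no_pm {m b : ℕ} {M B : Finset (Board m)} (h : BreakerWins b M B) :
    ¬ ∃ W, W ⊆ M ∧ IsRainbowPM W := by
  induction h with
  | full M B _ hno => exact hno
  | step M B F h _ _ _ ih =>
    obtain ⟨e, he⟩ : ∃ e, e ∉ M ∪ B := by
      by_contra hc
      push Not at hc
      exact h (eq_univ_of_forall hc)
    rintro ⟨W, hW, hW'⟩
    exact ih e he ⟨W, hW.trans (subset_insert _ _), hW'⟩

lemma BreakerWins.reply {m b : ℕ} {M B : Finset (Board m)} (h : BreakerWins b M B) {e : Board m}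
    (he : e ∉ M ∪ B) : ∃ F : Finset (Board m), F.card ≤ b ∧ BreakerWins b (insert e M) (B ∪ F) := by
  cases h with
  | full _ _ h _ => exact absurd (h ▸ mem_univ e) he
  | step _ _ F _ _ hcard hnext => exact ⟨F e, (hcard e he).trans_le (min_le_left _ _), hnext e he⟩

lemma pm_of_cov {m : ℕ} {M : Finset (Board m)} (h : Cov (M.image pts) ∅) :
    ∃ W, W ⊆ M ∧ IsRainbowPM W := by
  obtain ⟨F, hF, h1, -⟩ := h
  have inj : ∀ e e' : Board m, pts e = pts e' → e = e' := by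
    intro e e' h
    unfold pts at h
    have a1 := congrArg toLeft h
    have a2 := congrArg toRight h
    simp only [toLeft_disjSum, toRight_disjSum, singleton_inj] at a1 a2
    exact Prod.ext a2 (Subtype.ext a1)
  refine ⟨M.filter (fun e => pts e ∈ F), filter_subset _ _, ?_, ?_⟩
  · intro e he e' he' hc
    rw [mem_filter] at he he'
    obtain ⟨f, -, hu⟩ := h1 (Sum.inr e.1) (notMem_empty _)
    apply inj
    rw [hu (pts e) ⟨he.2, by simp [pts]⟩, hu (pts e') ⟨he'.2, by simp [pts, hc]⟩]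
  · intro v
    obtain ⟨f, ⟨hf, hv⟩, hu⟩ := h1 (Sum.inl v) (notMem_empty _)
    obtain ⟨e, he, rfl⟩ := mem_image.1 (hF hf)
    refine ⟨e, ⟨mem_filter.2 ⟨he, hf⟩, by simpa [pts] using hv⟩, ?_⟩
    rintro e' ⟨he', hv'⟩
    apply inj
    exact hu (pts e') ⟨(mem_filter.1 he').2, by simpa [pts] using hv'⟩

theorem maker_board {ε : ℝ} (h0 : 0 < ε) (h1 : ε ≤ 1) : ∃ β : ℝ, 0 < β ∧ ∃ M0 : ℕ,
    ∀ m b : ℕ, M0 ≤ m → ((b : ℝ) + 1) ≤ β * (m : ℝ) ^ 2 →
      (b + 1) * (1 + Real.log m) ≤ (2 - 2 * ε) * (m : ℝ) ^ 2 →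
      ¬ BreakerWins b (∅ : Finset (Board m)) ∅ := by
  obtain ⟨β, hβ, M0, h⟩ := maker_asym h0 h1
  refine ⟨β, hβ, M0, fun m b hm hb hl hw => ?_⟩
  refine h (Fin (2 * m) ⊕ Fin m) Sum.isLeft m (b + 1)
    (fun M' T' => ∃ M B : Finset (Board m), BreakerWins b M B ∧ M' = M.image pts ∧
      T' = (M ∪ B).image pts) ?_ ?_ ?_ hm (by push_cast; exact hb) (by push_cast; exact hl)
    ⟨∅, ∅, hw, by simp, by simp⟩
  · intro τ
    rw [← univ_disjSum_univ, sec_disjSum]
    cases τ <;> simp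
  · rintro M' T' ⟨M, B, hMB, rfl, -⟩ hc
    exact hMB.no_pm (pm_of_cov hc)
  · rintro M' T' f ⟨M, B, hMB, rfl, rfl⟩ hf hfT
    obtain ⟨e, rfl⟩ := exists_pts hf
    have he : e ∉ M ∪ B := fun h => hfT (mem_image_of_mem _ h)
    obtain ⟨F, hF, hw'⟩ := hMB.reply he
    refine ⟨(insert e M ∪ (B ∪ F)).image pts, image_subset_image ?_, ?_, ?_,
      insert e M, B ∪ F, hw', by rw [image_insert], rfl⟩
    · exact union_subset_union (subset_insert _ _) subset_union_left
    · have : (insert e M ∪ (B ∪ F)).image pts \ (M ∪ B).image pts ⊆ (insert e F).image pts := by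
        clear * - m e M B F h
        intro g hg
        rw [mem_sdiff] at hg
        obtain ⟨e', he', rfl⟩ := mem_image.1 hg.1
        refine mem_image_of_mem _ ?_
        have : e' ∉ M ∪ B := fun h => hg.2 (mem_image_of_mem _ h)
        simp only [mem_union, mem_insert, not_or] at he' this ⊢
        tauto
      refine (card_le_card this).trans (card_image_le.trans ((card_insert_le _ _).trans ?_))
      omega
    · intro g hg _
      obtain ⟨e', -, rfl⟩ := mem_image.1 hg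
      exact valid_pts e'

end Pool.Agent.Work.MP_6aef45_co
end

-- merged part: Pool.Agent.Work.MP_6aef45_co.Breaker
section
namespace Pool.Agent.Work.MP_6aef45_co
open Finset

lemma IsRainbowPM.exists_colour {m : ℕ} {W : Finset (Board m)} (h : IsRainbowPM W) (c : Fin m) :
    ∃ e ∈ W, e.1 = c := by
  have a1 : ∑ e ∈ W, (e.2.1).card = ∑ v : Fin (2 * m), (W.filter (fun e => v ∈ e.2.1)).card := by
    simp_rw [card_eq_sum_ones]
    apply sum_comm'
    intro e v; simp [and_comm]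
  have a2 : ∀ v : Fin (2 * m), (W.filter (fun e => v ∈ e.2.1)).card = 1 := by
    intro v
    obtain ⟨e, he, hu⟩ := h.2 v
    rw [card_eq_one]
    refine ⟨e, ?_⟩
    ext e'
    simp only [mem_filter, mem_singleton]
    exact ⟨hu e', fun h' => h' ▸ he⟩
  rw [sum_congr rfl (fun e _ => e.2.2), sum_congr rfl (fun v _ => a2 v)] at a1
  simp only [sum_const, smul_eq_mul, card_univ, Fintype.card_fin, mul_one] at a1
  have a3 : (W.image Prod.fst).card = m := by
    rw [card_image_of_injOn (fun e he e' he' hc => h.1 e he e' he' hc)]; omega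
  have a4 : W.image Prod.fst = univ := by
    rw [← card_eq_iff_eq_univ, a3, Fintype.card_fin]
  have := a4 ▸ mem_univ c
  simpa using mem_image.1 this

/-- The box game bound. -/
def boxSum (b k : ℕ) : ℕ := ∑ j ∈ Ico 1 k, b / j

theorem breaker_box {m b : ℕ} (M B : Finset (Board m)) (S : Finset (Fin m)) (hS : S.Nonempty)
    (hM : ∀ c ∈ S, ∀ e ∈ M, e.1 ≠ c)
    (hc : ∀ c ∈ S, ((univ \ (M ∪ B)).filter (fun e : Board m => e.1 = c)).card ≤ boxSum b S.card) :
    BreakerWins b M B := by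
  induction' hn : (univ \ (M ∪ B)).card using Nat.strong_induction_on with n ih generalizing M B S
  by_cases hfull : M ∪ B = univ
  · refine BreakerWins.full M B hfull ?_
    rintro ⟨W, hW, hW'⟩
    obtain ⟨c, hcS⟩ := hS
    obtain ⟨e, he, hec⟩ := hW'.exists_colour c
    exact hM c hcS e (hW he) hec
  have key : ∀ e : Board m, ∃ F : Finset (Board m), e ∉ M ∪ B →
      Disjoint F (insert e (M ∪ B)) ∧ F.card = min b (univ \ insert e (M ∪ B)).card ∧
      BreakerWins b (insert e M) (B ∪ F) := by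
    intro e
    by_cases he : e ∈ M ∪ B
    · exact ⟨∅, fun h => absurd he h⟩
    set U := univ \ insert e (M ∪ B) with hU
    obtain ⟨S', F0, h1, h2, h3, h4, h5, h6⟩ : ∃ (S' : Finset (Fin m)) (F0 : Finset (Board m)),
        S'.Nonempty ∧ S' ⊆ S ∧ e.1 ∉ S' ∧ F0 ⊆ U ∧ F0.card ≤ b ∧
        ∀ c ∈ S', ((U \ F0).filter (fun e : Board m => e.1 = c)).card ≤ boxSum b S'.card := by
      clear * - m U M B e S b hS n hc he
      have hsub : ∀ c, U.filter (fun e : Board m => e.1 = c)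
          ⊆ (univ \ (M ∪ B)).filter (fun e : Board m => e.1 = c) := fun c =>
        filter_subset_filter _ (sdiff_subset_sdiff (subset_refl _) (subset_insert _ _))
      by_cases heS : e.1 ∈ S
      · have hk : 2 ≤ S.card := by
          by_contra hcon
          have a1 : S.card = 1 := by have := hS.card_pos; omega
          have a2 := hc _ heS
          rw [a1] at a2
          simp only [boxSum, Ico_self, sum_empty, nonpos_iff_eq_zero, card_eq_zero] at a2
          have : e ∈ (univ \ (M ∪ B)).filter (fun e' : Board m => e'.1 = e.1) := by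
            rw [mem_filter]; exact ⟨mem_sdiff.2 ⟨mem_univ _, he⟩, rfl⟩
          rw [a2] at this
          exact notMem_empty _ this
        obtain ⟨k, hk'⟩ : ∃ k, S.card = k + 1 := ⟨S.card - 1, by omega⟩
        have hcard : (S.erase e.1).card = k := by rw [card_erase_of_mem heS]; omega
        have a1 : ∀ c : Fin m, ∃ A ⊆ U.filter (fun e : Board m => e.1 = c),
            A.card = min (b / k) (U.filter (fun e : Board m => e.1 = c)).card := fun c =>
          exists_subset_card_eq (min_le_right _ _)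
        choose A hA1 hA2 using a1
        refine ⟨S.erase e.1, (S.erase e.1).biUnion A, card_pos.1 (by omega), erase_subset _ _,
          notMem_erase _ _, biUnion_subset.2 fun c _ => (hA1 c).trans (filter_subset _ _), ?_, ?_⟩
        · refine card_biUnion_le.trans ?_
          refine (sum_le_card_nsmul _ _ (b / k) fun c _ => (hA2 c).trans_le (min_le_left _ _)).trans ?_
          rw [hcard, smul_eq_mul]
          exact Nat.mul_div_le b k
        · intro c hc'
          have b1 : (U \ (S.erase e.1).biUnion A).filter (fun e : Board m => e.1 = c)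
              ⊆ U.filter (fun e : Board m => e.1 = c) \ A c := by
            intro x hx
            simp only [mem_filter, mem_sdiff, mem_biUnion, not_exists, not_and] at hx ⊢
            exact ⟨⟨hx.1.1, hx.2⟩, hx.1.2 c hc'⟩
          have b2 := card_le_card b1
          have b3 := card_sdiff_add_card_eq_card (hA1 c)
          have b4 := (card_le_card (hsub c)).trans (hc c (mem_of_mem_erase hc'))
          rw [hk'] at b4
          unfold boxSum at b4 ⊢
          rw [sum_Ico_succ_top (by omega)] at b4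
          rw [hcard]
          rw [hA2 c] at b3
          omega
      · exact ⟨S, ∅, hS, subset_refl _, heS, empty_subset _, by simp, fun c hc' => by
          rw [sdiff_empty]; exact (card_le_card (hsub c)).trans (hc c hc')⟩
    obtain ⟨F, f1, f2, f3⟩ := exists_subsuperset_card_eq h4
      (le_min h5 (card_le_card h4)) (min_le_right b U.card)
    refine ⟨F, fun _ => ⟨?_, f3, ?_⟩⟩
    · exact disjoint_of_subset_left f2 sdiff_disjoint
    · have hsub : univ \ (insert e M ∪ (B ∪ F)) ⊆ U \ F0 := by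
        clear * - m e M B F F0 f1 U hU
        intro x hx
        have := @f1 x
        simp only [hU, mem_sdiff, mem_union, mem_insert, mem_univ, true_and, not_or] at hx ⊢
        tauto
      refine ih _ ?_ (insert e M) (B ∪ F) S' h1 ?_ ?_ rfl
      · rw [← hn]
        refine lt_of_le_of_lt (card_le_card (hsub.trans sdiff_subset)) (card_lt_card ?_)
        rw [ssubset_iff_of_subset (sdiff_subset_sdiff (subset_refl _) (subset_insert _ _))]
        exact ⟨e, mem_sdiff.2 ⟨mem_univ _, he⟩, by clear * - m e M B he; simp⟩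
      · intro c hc' e' he'
        rcases mem_insert.1 he' with h | h
        · rw [h]; exact fun h' => h3 (h' ▸ hc')
        · exact hM c (h2 hc') e' h
      · intro c hc'
        exact (card_le_card (filter_subset_filter _ hsub)).trans (h6 c hc')
  choose F hF using key
  exact BreakerWins.step M B F hfull (fun e he => (hF e he).1) (fun e he => (hF e he).2.1)
    (fun e he => (hF e he).2.2)

lemma le_boxSum (b : ℕ) {m : ℕ} (hm : 1 ≤ m) : b * Real.log m - m ≤ boxSum b m := by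
  obtain ⟨k, rfl⟩ : ∃ k, m = k + 1 := ⟨m - 1, by omega⟩
  have a1 := log_add_one_le_harmonic k
  rw [harmonic_eq_sum_Icc] at a1
  push_cast at a1
  unfold boxSum
  rw [Finset.Ico_add_one_right_eq_Icc]
  push_cast
  have a2 : ∀ j ∈ Icc 1 k, (b : ℝ) * (j : ℝ)⁻¹ - 1 ≤ ((b / j : ℕ) : ℝ) := by
    intro j hj
    rw [mem_Icc] at hj
    have b1 : (0 : ℝ) < j := by exact_mod_cast hj.1
    have b2 := Nat.lt_mul_div_succ b hj.1
    have b3 : (b : ℝ) < j * ((b / j : ℕ) + 1) := by exact_mod_cast b2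
    rw [← div_eq_mul_inv, sub_le_iff_le_add, div_le_iff₀ b1]
    linarith only [b3]
  have a3 := sum_le_sum a2
  rw [sum_sub_distrib, ← mul_sum] at a3
  simp only [sum_const, Nat.card_Icc, add_tsub_cancel_right, nsmul_eq_mul, mul_one] at a3
  have a4 := mul_le_mul_of_nonneg_left a1 (Nat.cast_nonneg (α := ℝ) b)
  linarith only [a3, a4]

theorem breaker_board {m b : ℕ} (hm : 1 ≤ m) (h : 2 * (m : ℝ) ^ 2 + m ≤ b * Real.log m) :
    BreakerWins b (∅ : Finset (Board m)) ∅ := by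
  refine breaker_box ∅ ∅ univ ⟨⟨0, hm⟩, mem_univ _⟩ (by simp) fun c _ => ?_
  have a1 : ((univ \ (∅ ∪ ∅)).filter (fun e : Board m => e.1 = c)).card
      ≤ (powersetCard 2 (univ : Finset (Fin (2 * m)))).card := by
    refine card_le_card_of_injOn (fun e => e.2.1) ?_ ?_
    · intro e _
      simp [e.2.2]
    · intro e he e' he' hee
      simp only [coe_filter, Set.mem_ofPred_eq] at he he'
      exact Prod.ext (he.2.trans he'.2.symm) (Subtype.ext hee)
  rw [card_powersetCard, card_univ, Fintype.card_fin] at a1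
  refine a1.trans ?_
  rw [card_univ, Fintype.card_fin]
  have a2 := le_boxSum b hm
  have a3 : (((2 * m).choose 2 : ℕ) : ℝ) ≤ 2 * (m : ℝ) ^ 2 := by
    rw [Nat.cast_choose_two]
    push_cast
    have : (0 : ℝ) ≤ m := Nat.cast_nonneg _
    nlinarith
  have a4 : (((2 * m).choose 2 : ℕ) : ℝ) ≤ boxSum b m := by linarith only [h, a2, a3]
  exact_mod_cast a4

end Pool.Agent.Work.MP_6aef45_co
end

-- merged part: Pool.Agent.Work.MP_6aef45_co.Final
section
namespace Pool.Agent.Work.MP_6aef45_co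
open Filter Topology

theorem threshold_tendsto :
    Tendsto (fun m : ℕ => (thresholdBias m : ℝ) * Real.log (2 * m) / (2 * m) ^ 2) atTop
      (𝓝 (1 / 2)) := by
  suffices h : ∀ ε : ℝ, 0 < ε → ε ≤ 1 / 4 → ∀ᶠ m : ℕ in atTop,
      |(thresholdBias m : ℝ) * Real.log (2 * m) / (2 * m) ^ 2 - 1 / 2| ≤ ε by
    rw [Metric.tendsto_nhds]
    intro ε hε
    filter_upwards [h (min (ε / 2) (1 / 4)) (by positivity) (min_le_right _ _)] with m hm
    rw [Real.dist_eq]
    have := min_le_left (ε / 2) (1 / 4)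
    linarith only [hε, hm, this]
  intro ε h0 h1
  obtain ⟨β, hβ, M0, hM⟩ := maker_board h0 (by linarith)
  have hcast : Tendsto (fun m : ℕ => (m : ℝ)) atTop atTop := tendsto_natCast_atTop_atTop
  have hlog : Tendsto (fun m : ℕ => Real.log (2 * m)) atTop atTop :=
    Real.tendsto_log_atTop.comp (hcast.const_mul_atTop two_pos)
  filter_upwards [eventually_ge_atTop M0, eventually_ge_atTop 1, hcast.eventually_ge_atTop (2 / ε),
    hcast.eventually_ge_atTop (2 / β), hlog.eventually_ge_atTop (4 / ε),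
    hlog.eventually_ge_atTop (4 / β)] with m e1 e2 e3 e4 e5 e6
  have m1 : (1 : ℝ) ≤ m := by exact_mod_cast e2
  have m2 : (0 : ℝ) < (m : ℝ) ^ 2 := by positivity
  have m3 : (m : ℝ) ≤ (m : ℝ) ^ 2 := by clear * - m m1; linarith only [m1, mul_nonneg_of_nonpos_of_nonpos (Mathlib.Tactic.Linarith.sub_nonpos_of_le (Mathlib.Tactic.Linarith.natCast_nonneg ℝ m)) (Mathlib.Tactic.Linarith.sub_nonpos_of_le m1)]
  have hL : Real.log (2 * m) = Real.log 2 + Real.log m := Real.log_mul (by norm_num) (by linarith only [h0, h1, m1])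
  have l1 : Real.log 2 ≤ 1 := by linarith only [Real.log_le_sub_one_of_pos (show (0 : ℝ) < 2 by norm_num)]
  have l2 : 0 ≤ Real.log 2 := Real.log_nonneg (by norm_num)
  have l3 : Real.log m ≤ m - 1 := Real.log_le_sub_one_of_pos (by linarith only [h0, h1, m1])
  have l4 : 0 ≤ Real.log m := Real.log_nonneg m1
  set L := Real.log (2 * m) with hLdef
  rw [div_le_iff₀ h0] at e3 e5
  rw [div_le_iff₀ hβ] at e4 e6
  have Lp : 0 < L := by clear * - L ε h1 e5 h0; (refine lt_of_not_ge fun h_nl => ?_; linarith only [h_nl, h1, e5, h0, mul_pos_of_neg_of_neg (Mathlib.Tactic.Linarith.sub_neg_of_lt h0) (Mathlib.Tactic.Linarith.sub_neg_of_lt h0), mul_nonneg_of_nonpos_of_nonpos (le_of_lt (Mathlib.Tactic.Linarith.sub_neg_of_lt h0)) (Mathlib.Tactic.Linarith.sub_nonpos_of_le h1), mul_nonneg_of_nonpos_of_nonpos (le_of_lt (Mathlib.Tactic.Linarith.sub_neg_of_lt h0)) (Mathlib.Tactic.Linarith.sub_nonpos_of_le h_nl)])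
  have f1 : 2 * (m : ℝ) ≤ ε * (m : ℝ) ^ 2 := by clear * - m ε e3; nlinarith
  set y : ℝ := (m : ℝ) ^ 2 / L with hy
  have y0 : 0 < y := div_pos m2 Lp
  have y1 : y * L = (m : ℝ) ^ 2 := div_mul_cancel₀ _ Lp.ne'
  have y2 : 4 * y ≤ ε * (m : ℝ) ^ 2 := by clear * - y ε m L y1 h0 h1 e5 y0; rw [← y1]; linarith only [e5, y0, mul_nonneg_of_nonpos_of_nonpos (Mathlib.Tactic.Linarith.sub_nonpos_of_le e5) (le_of_lt (Mathlib.Tactic.Linarith.sub_neg_of_lt y0))]
  have y3 : 4 * y ≤ β * (m : ℝ) ^ 2 := by clear * - y β m L y1 ε h0 h1 e6 y0; rw [← y1]; (refine le_of_not_gt fun h_nl => ?_; linarith only [h_nl, h0, h1, e6, y0, mul_pos_of_neg_of_neg (Mathlib.Tactic.Linarith.sub_neg_of_lt h0) (Mathlib.Tactic.Linarith.sub_neg_of_lt h_nl), mul_nonneg_of_nonpos_of_nonpos (Mathlib.Tactic.Linarith.sub_nonpos_of_le h1) (le_of_lt (Mathlib.Tactic.Linarith.sub_neg_of_lt h_nl)), mul_nonneg_of_nonpos_of_nonpos (Mathlib.Tactic.Linarith.sub_nonpos_of_le e6) (le_of_lt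 (Mathlib.Tactic.Linarith.sub_neg_of_lt y0))])
  have hw : BreakerWins ⌈(2 + 2 * ε) * y⌉₊ (∅ : Finset (Board m)) ∅ := by
    clear * - m ε y e2 l4 L y1 hL l1 y0 h0 h1 m1 f1 y2
    refine breaker_board e2 ?_
    have a1 := mul_le_mul_of_nonneg_right (Nat.le_ceil ((2 + 2 * ε) * y)) l4
    have a2 : y * Real.log m = (m : ℝ) ^ 2 - y * Real.log 2 := by rw [← y1, hL]; ring
    have a3 := mul_le_mul_of_nonneg_left l1 y0.le
    have a4 : (2 + 2 * ε) * ((m : ℝ) ^ 2 - y) ≤ (2 + 2 * ε) * (y * Real.log m) :=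
      mul_le_mul_of_nonneg_left (by linarith only [a2, a3]) (by linarith only [h0, h1])
    have a5 := mul_le_mul_of_nonneg_right h1 y0.le
    clear * - m ε y L h0 h1 m1 f1 y2 a1 a4 a5
    linarith only [h0, h1, m1, f1, y2, a1, a4, a5]
  have t1 : thresholdBias m ≤ ⌈(2 + 2 * ε) * y⌉₊ := Nat.sInf_le hw
  have t2 : BreakerWins (thresholdBias m) (∅ : Finset (Board m)) ∅ :=
    Nat.sInf_mem (s := {b : ℕ | BreakerWins b (∅ : Finset (Board m)) ∅}) ⟨_, hw⟩
  have t3 : (thresholdBias m : ℝ) ≤ (2 + 2 * ε) * y + 1 := by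
    clear * - m ε y t1 L h0 e2 Lp
    have a1 : (thresholdBias m : ℝ) ≤ ⌈(2 + 2 * ε) * y⌉₊ := by exact_mod_cast t1
    linarith only [a1, h0, e2, Lp, Nat.ceil_lt_add_one (show 0 ≤ (2 + 2 * ε) * y by positivity)]
  have t4 : (2 - 4 * ε) * y ≤ thresholdBias m := by
    clear * - ε y m h0 y0 hM e1 β e4 L m1 y3 l2 hL l4 y1 l3 f1 y2 t2
    by_contra hc
    push Not at hc
    have a0 := mul_pos h0 y0
    refine hM m _ e1 ?_ ?_ t2
    · have : 2 * (m : ℝ) ≤ β * (m : ℝ) ^ 2 := by clear * - m β e4; nlinarith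
      linarith only [m1, y3, hc, a0, this]
    · have a1 := mul_le_mul hc.le (show 1 + Real.log m ≤ L + 1 by linarith only [l2, hL]) (by linarith only [l4])
        (by clear * - ε y m L hc; nlinarith)
      have a2 : (2 - 4 * ε) * y * (L + 1) = (2 - 4 * ε) * (m : ℝ) ^ 2 + (2 - 4 * ε) * y := by
        rw [← y1]; ring
      clear * - m ε y L l3 f1 y2 hc a0 a1 a2
      linarith only [l3, f1, y2, hc, a0, a1, a2]
  have d : (0 : ℝ) < (2 * m) ^ 2 := by positivity
  rw [abs_le, le_sub_iff_add_le, sub_le_iff_le_add, le_div_iff₀ d, div_le_iff₀ d]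
  have u1 := mul_le_mul_of_nonneg_right t3 Lp.le
  have u2 := mul_le_mul_of_nonneg_right t4 Lp.le
  have u3 : (2 + 2 * ε) * y * L = (2 + 2 * ε) * (m : ℝ) ^ 2 := by rw [← y1]; ring
  have u4 : (2 - 4 * ε) * y * L = (2 - 4 * ε) * (m : ℝ) ^ 2 := by rw [← y1]; ring
  constructor <;> linarith only [y1, u2, u3, h0, h1, m1, l1, l3, hL, f1, u1]

end Pool.Agent.Work.MP_6aef45_co
end
end
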